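import Pool.Agent.Lib.MP_648c71_nt.Diag.Gen
import Pool.Agent.Lib.MP_648c71_nt.AC.A

/-!
The cubics `T^3 + b T`: the five term relation along Pell conics gives `g (-m) = κ` for
`m = (s^2 - b) / (2 s)` and for twice this number, which is impossible if `g 2 = -1`.
-/

namespace MP648Diag

open Filter Pool.Agent.Lib.MP_648c71_nt.AllCub

theorem zero_rel {g : ℚ → ℤ} (hg : GMul g) {b : ℚ} {κ : ℤ} (h : Pool.Agent.Lib.MP_648c71_nt.AllCub.Hyp g b 0 κ) (t : ℕ) (ht : 0 < t)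
    (hD : ¬ IsSquare (1 + t : ℤ)) {m k : ℚ} (hm : 0 < m) (hk : 0 < k) (hk2 : k ^ 2 = m ^ 2 + t * b) :
    g (-m) = κ := by
  have htQ : (0:ℚ) < t := by exact_mod_cast ht
  obtain ⟨B, hB⟩ : ∃ B : ℚ, B = 3 + 4 / t := ⟨_, rfl⟩
  obtain ⟨e, he⟩ : ∃ e : ℚ, e = 1 + 4 / t := ⟨_, rfl⟩
  have hBe : B = e + 2 := by rw [hB, he]; ring
  have he0 : 0 < e := by rw [he]; positivity
  have hte : (t:ℚ) * e = t + 4 := by
    rw [he]
    field_simp
  -- the points on the conic
  let yy : ℤ × ℤ → ℚ := fun P => (B * m * ((P.1 : ℚ) - 1) + (P.2 : ℚ) * (e * (1 + t) * k)) / (e ^ 2 * (1 + t))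
  let vv : ℤ × ℤ → ℚ := fun P => (P.1 : ℚ) * k + (P.2 : ℚ) * (B * m / e)
  let x1 : ℤ × ℤ → ℚ := fun P => e * yy P
  let x2 : ℤ × ℤ → ℚ := fun P => (-(e * yy P) - m - vv P) / 2
  let x3 : ℤ × ℤ → ℚ := fun P => (-(e * yy P) - m + vv P) / 2
  let zz : ℤ × ℤ → ℚ := fun P => (e ^ 2 + (4 * B - 4 + t) / 4) / m * yy P ^ 2 + e * yy P + b * (1 + t / 4) / m
  have b1 : BD (fun P : ℤ × ℤ => (P.1 : ℚ)) := BD.int (fun P : ℤ × ℤ => P.1)
  have b2 : BD (fun P : ℤ × ℤ => (P.2 : ℚ)) := BD.int (fun P : ℤ × ℤ => P.2)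
  have by' : BD yy := (((BD.const (B * m)).mul (b1.sub (BD.const 1))).add (b2.mul (BD.const _))).div _
  have bv : BD vv := (b1.mul (BD.const k)).add (b2.mul (BD.const _))
  have bx1 : BD x1 := (BD.const e).mul by'
  have bx2 : BD x2 := (((((BD.const e).mul by').neg).sub (BD.const m)).sub bv).div 2
  have bx3 : BD x3 := (((((BD.const e).mul by').neg).sub (BD.const m)).add bv).div 2
  have bz : BD zz := (((BD.const _).mul (by'.pow 2)).add ((BD.const e).mul by')).add (BD.const _)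
  obtain ⟨Ry, hRy⟩ := hyp_bd h by'
  obtain ⟨R1, hR1⟩ := hyp_bd h bx1
  obtain ⟨R2, hR2⟩ := hyp_bd h bx2
  obtain ⟨R3, hR3⟩ := hyp_bd h bx3
  obtain ⟨Rz, hRz⟩ := hyp_bd h bz
  obtain ⟨T, hT⟩ := quad_large ((e ^ 2 + (4 * B - 4 + t) / 4) / m) e (b * (1 + t / 4) / m)
    (by
      have : 0 < 4 * B - 4 + t := by rw [hBe]; linarith
      positivity) Rz
  -- a bound for `y`
  obtain ⟨S, hS⟩ : ∃ S : ℚ, S = |Ry| + |R1| / e + 2 * |R2| / e + |R3| + |T| + |b| + 1 := ⟨_, rfl⟩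
  have hS0 : 0 ≤ S := by rw [hS]; positivity
  obtain ⟨n, hn⟩ := exists_nat_gt (S * (e ^ 2 * (1 + t)) / (B * m) + 1)
  obtain ⟨p, q, hp, hq, hpq⟩ := pell_large (1 + t : ℤ) (by positivity) hD n
  have hB0 : 0 < B := by rw [hBe]; linarith
  have hpQ : (n : ℚ) ≤ p := by exact_mod_cast hp
  have hqQ : (0 : ℚ) ≤ q := by
    have : (0:ℤ) ≤ q := le_trans (Int.natCast_nonneg n) hq
    exact_mod_cast this
  have hpqQ : (p : ℚ) ^ 2 - (1 + t) * q ^ 2 = 1 := by exact_mod_cast hpq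
  obtain ⟨P, hP⟩ : ∃ P : ℤ × ℤ, P = (p, q) := ⟨_, rfl⟩
  obtain ⟨y, hy⟩ : ∃ y, y = yy P := ⟨_, rfl⟩
  obtain ⟨v, hv⟩ : ∃ v, v = vv P := ⟨_, rfl⟩
  have hyv : y = (B * m * ((p : ℚ) - 1) + (q : ℚ) * (e * (1 + t) * k)) / (e ^ 2 * (1 + t)) := by
    rw [hy, hP]
  have hvv : v = (p : ℚ) * k + (q : ℚ) * (B * m / e) := by
    rw [hv, hP]
  have hden : 0 < e ^ 2 * (1 + (t:ℚ)) := by positivity
  -- `y` is large
  have hyS : S ≤ y := by
    rw [hyv, le_div_iff₀ hden]
    have h1 : S * (e ^ 2 * (1 + t)) ≤ B * m * ((p : ℚ) - 1) := by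
      have h2 : S * (e ^ 2 * (1 + t)) / (B * m) ≤ (p : ℚ) - 1 := by linarith
      rw [div_le_iff₀ (by positivity)] at h2
      linarith
    have h3 : 0 ≤ (q : ℚ) * (e * (1 + t) * k) := by positivity
    linarith
  have hp0 : (0:ℚ) < p := by
    have : 0 ≤ S * (e ^ 2 * (1 + t)) / (B * m) := by positivity
    linarith
  have hv0 : 0 < v := by
    rw [hvv]
    have : 0 ≤ (q : ℚ) * (B * m / e) := by positivity
    have h2 : 0 < (p:ℚ) * k := by positivity
    linarith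
  -- the conic
  have hconic : v ^ 2 = (B * y + m) ^ 2 + t * (y ^ 2 + b) := by
    have e1 : y * (e ^ 2 * (1 + t)) = B * m * ((p : ℚ) - 1) + (q : ℚ) * (e * (1 + t) * k) := by
      rw [hyv]
      field_simp
    have e2 : e * v = p * k * e + q * (B * m) := by
      rw [hvv]
      field_simp
    have e3 : B ^ 2 + t = e ^ 2 * (1 + t) := by
      have h1 : (t:ℚ) ≠ 0 := htQ.ne'
      rw [hB, he]
      field_simp
      ring
    have e4 : (B * m) ^ 2 - e ^ 2 * (1 + t) * (m ^ 2 + t * b) = -(t * m ^ 2 + e ^ 2 * (1 + t) * (t * b)) := by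
      rw [← e3]
      ring
    have e5 : (y * (e ^ 2 * (1 + t)) + B * m) = B * m * p + q * (e * (1 + t) * k) := by
      rw [e1]
      ring
    have e6 : (y * (e ^ 2 * (1 + t)) + B * m) ^ 2 - (1 + t) * (e * v) ^ 2 =
        (B * m) ^ 2 - (1 + t) * e ^ 2 * k ^ 2 := by
      rw [e5, e2]
      linear_combination ((B * m) ^ 2 - (1 + t) * e ^ 2 * k ^ 2) * hpqQ
    have hne : (1 + (t:ℚ)) * e ^ 2 ≠ 0 := by positivity
    apply mul_left_cancel₀ hne
    have e7 : (1 + (t:ℚ)) * e ^ 2 * ((B * y + m) ^ 2 + t * (y ^ 2 + b)) =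
        (y * (e ^ 2 * (1 + t)) + B * m) ^ 2 - (B * m) ^ 2 + (1 + t) * e ^ 2 * (m ^ 2 + t * b) := by
      have : (1 + (t:ℚ)) * e ^ 2 * ((B * y + m) ^ 2 + t * (y ^ 2 + b)) =
        (1 + (t:ℚ)) * e ^ 2 * ((B ^ 2 + t) * y ^ 2 + 2 * B * m * y + m ^ 2 + t * b) := by ring
      rw [this, e3]
      ring
    rw [e7, ← hk2]
    linear_combination -e6
  have hyb : 0 ≤ y ^ 2 + b := by
    have h1 : |b| + 1 ≤ y := by
      refine le_trans ?_ hyS
      rw [hS]
      have : 0 ≤ |Ry| + |R1| / e + 2 * |R2| / e + |R3| + |T| := by positivity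
      linarith
    have h2 : -|b| ≤ b := neg_abs_le b
    have h3 : 0 ≤ |b| := abs_nonneg b
    nlinarith
  have hy0 : 0 ≤ y := le_trans hS0 hyS
  have hvB : B * y + m ≤ v := by
    apply abs_le_of_sq_le_sq' _ hv0.le |>.2
    rw [hconic]
    have : 0 ≤ (t:ℚ) * (y ^ 2 + b) := by positivity
    linarith
  -- the five values
  have gy : g (fc b 0 y) = κ := by
    rw [hy]
    apply hRy
    rw [← hy]
    refine le_trans ?_ (le_abs_self _)
    refine le_trans ?_ hyS
    rw [hS]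
    have h1 := le_abs_self Ry
    have : 0 ≤ |R1| / e + 2 * |R2| / e + |R3| + |T| + |b| := by positivity
    linarith
  have g1 : g (fc b 0 (e * y)) = κ := by
    have : e * y = x1 P := by rw [hy]
    rw [this]
    apply hR1
    rw [← this]
    refine le_trans ?_ (le_abs_self _)
    have h1 := le_abs_self R1
    have h2 : |R1| / e ≤ y := by
      refine le_trans ?_ hyS
      rw [hS]
      have : 0 ≤ |Ry| + 2 * |R2| / e + |R3| + |T| + |b| := by positivity
      linarith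
    rw [div_le_iff₀ he0] at h2
    linarith
  have g2 : g (fc b 0 ((-(e * y) - m - v) / 2)) = κ := by
    have : (-(e * y) - m - v) / 2 = x2 P := by rw [hy, hv]
    rw [this]
    apply hR2
    rw [← this]
    refine le_trans ?_ (neg_le_abs _)
    have h1 := le_abs_self R2
    have h2 : 2 * |R2| / e ≤ y := by
      refine le_trans ?_ hyS
      rw [hS]
      have : 0 ≤ |Ry| + |R1| / e + |R3| + |T| + |b| := by positivity
      linarith
    rw [div_le_iff₀ he0] at h2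
    linarith
  have g3 : g (fc b 0 ((-(e * y) - m + v) / 2)) = κ := by
    have : (-(e * y) - m + v) / 2 = x3 P := by rw [hy, hv]
    rw [this]
    apply hR3
    rw [← this]
    refine le_trans ?_ (le_abs_self _)
    have h1 := le_abs_self R3
    have h2 : |R3| ≤ y := by
      refine le_trans ?_ hyS
      rw [hS]
      have : 0 ≤ |Ry| + |R1| / e + 2 * |R2| / e + |T| + |b| := by positivity
      linarith
    rw [hBe] at hvB
    linarith
  have gz : g (fc b 0 ((e ^ 2 + (4 * B - 4 + t) / 4) / m * y ^ 2 + e * y + b * (1 + t / 4) / m)) = κ := by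
    have : (e ^ 2 + (4 * B - 4 + t) / 4) / m * y ^ 2 + e * y + b * (1 + t / 4) / m = zz P := by rw [hy]
    rw [this]
    apply hRz
    rw [← this]
    apply hT
    refine le_trans ?_ (le_abs_self _)
    have h1 := le_abs_self T
    refine le_trans h1 ?_
    refine le_trans ?_ hyS
    rw [hS]
    have : 0 ≤ |Ry| + |R1| / e + 2 * |R2| / e + |R3| + |b| := by positivity
    linarith
  -- the identity
  have key := prod_identity_gen (M := m) (y := y)
    (z := (e ^ 2 + (4 * B - 4 + t) / 4) / m * y ^ 2 + e * y + b * (1 + t / 4) / m) (b := b) (c := 0)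
    (x1 := e * y) (x2 := (-(e * y) - m - v) / 2) (x3 := (-(e * y) - m + v) / 2)
    (by ring)
    (by
      rw [hBe] at hconic ⊢
      field_simp
      linear_combination (-4) * hconic)
    (by
      rw [hBe] at hconic ⊢
      field_simp
      linear_combination (-4 * e * y) * hconic + (-4 * y * (y ^ 2 + b)) * hte)
  have hk1 := Pool.Agent.Lib.MP_648c71_nt.AllCub.Hyp.k_sq hg h
  have key2 := congrArg g key
  have f1 : ∀ x : ℚ, x ^ 3 + b * x + 0 = fc b 0 x := fun x => rfl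
  rw [f1, f1, f1, f1, f1, show -m ^ 3 = (-m) * m ^ 2 by ring, hg.mul, hg.mul, g1, g2, g3, hg.mul, hg.mul,
    hg.pow_two hm.ne', hg.mul, gy, gz, mul_one] at key2
  calc g (-m) = g (-m) * (κ * κ) := by rw [hk1, mul_one]
    _ = κ * κ * κ := key2.symm
    _ = κ := by rw [hk1, one_mul]

theorem no_hyp_zero {g : ℚ → ℤ} (hg : GMul g) (h2 : g 2 = -1) {b : ℚ} {κ : ℤ}
    (h : Pool.Agent.Lib.MP_648c71_nt.AllCub.Hyp g b 0 κ) : False := by
  have hb0 : 0 ≤ |b| := abs_nonneg b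
  have hb1 : b ≤ |b| := le_abs_self b
  have hb2 : -|b| ≤ b := neg_abs_le b
  obtain ⟨s, hs⟩ : ∃ s : ℚ, s = |b| + 1 := ⟨_, rfl⟩
  have hs0 : 0 < s := by rw [hs]; linarith
  have hs1 : |b| < s ^ 2 := by rw [hs]; nlinarith
  have hm : 0 < (s ^ 2 - b) / (2 * s) := div_pos (by linarith) (by linarith)
  have hk : 0 < (s ^ 2 + b) / (2 * s) := div_pos (by linarith) (by linarith)
  have hm' : 0 < 2 * ((s ^ 2 - b) / (2 * s)) := by linarith
  have hk' : 0 < 2 * ((s ^ 2 + b) / (2 * s)) := by linarith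
  have r1 := zero_rel hg h 1 one_pos (by
    rintro ⟨z, hz⟩
    push_cast at hz
    have h1 : z ≤ 1 := by nlinarith
    have h2 : -1 ≤ z := by nlinarith
    interval_cases z <;> norm_num at hz) hm hk (by
      push_cast
      field_simp
      ring)
  have r2 := zero_rel hg h 4 (by norm_num) (by
    rintro ⟨z, hz⟩
    push_cast at hz
    have h1 : z ≤ 2 := by nlinarith
    have h2 : -2 ≤ z := by nlinarith
    interval_cases z <;> norm_num at hz) hm' hk' (by
      push_cast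
      field_simp
      ring)
  have hsq : κ * κ = 1 := Pool.Agent.Lib.MP_648c71_nt.AllCub.Hyp.k_sq hg h
  rw [show -(2 * ((s ^ 2 - b) / (2 * s))) = 2 * (-((s ^ 2 - b) / (2 * s))) by ring, hg.mul, r1, h2] at r2
  have : κ = 0 := by linarith
  rw [this] at hsq
  norm_num at hsq

end MP648Diag
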