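import Pool.Agent.Lib.MP_648c71_nt.Diag.Red
import Pool.Agent.Lib.MP_648c71_nt.Diag.Zero

/-!
Assembly: the reduction together with the case `Q = 0`.
-/

namespace MP648Diag

open Filter Pool.Agent.Lib.MP_648c71_nt

theorem CM.gmul {g : ℚ → ℤ} (hg : CM g) : AllCub.GMul g where
  mul := hg.mul
  sq := fun _ hx => hg.self hx

theorem hyp_conv {g : ℚ → ℤ} {P Q : ℚ} {κ : ℤ}
    (h : ∀ q : ℕ, 0 < q → ∃ R : ℚ, ∀ w : ℚ, (∃ n : ℤ, w = n / q) → R ≤ |w| →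
      g (w ^ 3 + P * w + Q) = κ) : AllCub.Hyp g P Q κ := by
  intro q hq
  obtain ⟨R, hR⟩ := h q hq
  refine ⟨R, fun s hs hs2 => hR s ?_ hs2⟩
  obtain ⟨r, hr⟩ := hs
  refine ⟨s.num * r, ?_⟩
  have hd : (s.den : ℚ) ≠ 0 := by exact_mod_cast s.den_ne_zero
  have hr0 : (r : ℚ) ≠ 0 := by
    intro h0
    have : r = 0 := by exact_mod_cast h0
    rw [this, mul_zero] at hr
    omega
  have hqr : (q : ℚ) = s.den * r := by exact_mod_cast hr
  rw [hqr]
  push_cast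
  rw [mul_div_mul_right _ _ hr0, Rat.num_div_den]

/-- it is enough to refute the constancy hypothesis for integers `P`, `Q`, `Q ≠ 0` -/
theorem good_of_no_hyp'
    (H : ∀ (g : ℚ → ℤ), (g = gl ∨ g = gs) → ∀ (P Q : ℤ) (κ : ℤ), (κ = 1 ∨ κ = -1) → Q ≠ 0 →
      (∀ q : ℕ, 0 < q → ∃ R : ℚ, ∀ w : ℚ, (∃ n : ℤ, w = n / q) → R ≤ |w| →
        g (w ^ 3 + (P : ℚ) * w + (Q : ℚ)) = κ) → False)
    {a b c d : ℤ} (ha : a ≠ 0) : Good a b c d := by
  by_cases hQ : 27 * a ^ 2 * d - 9 * a * b * c + 2 * b ^ 3 = 0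
  · by_contra hnot
    have key : ∀ {a b c d : ℤ}, 0 < a → ¬ Good a b c d → 27 * a ^ 2 * d - 9 * a * b * c + 2 * b ^ 3 = 0 →
        False := by
      intro a b c d h1 h2 h3
      obtain ⟨g, hg, κ, hκ, hyp⟩ := reduction_pos h1 h2
      rw [h3, Int.cast_zero] at hyp
      obtain ⟨c1, c2, c3, -⟩ := g_facts hg
      exact no_hyp_zero c1.gmul c3 (hyp_conv hyp)
    rcases lt_or_gt_of_ne ha with h | h
    · refine key (a := -a) (b := -b) (c := -c) (d := -d) (by linarith) (fun hg => hnot (good_neg hg)) ?_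
      have e : 27 * (-a) ^ 2 * -d - 9 * -a * -b * -c + 2 * (-b) ^ 3 =
          -(27 * a ^ 2 * d - 9 * a * b * c + 2 * b ^ 3) := by ring
      rw [e, hQ, neg_zero]
    · exact key h hnot hQ
  · exact good_of_no_hyp H ha hQ

end MP648Diag
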