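import Pool.Agent.Lib.MP_648c71_nt.Diag.Core

/-!
General cubics `T^3 + b T + c`: the five term relation and its consequences.
-/

namespace MP648Diag

open Filter Polynomial

/-- `g (w^3 + b w + c) = κ` for all large `w` in `(1/q) ℤ`, for every `q`. -/
def HypC (g : ℚ → ℤ) (b c : ℚ) (κ : ℤ) : Prop :=
  ∀ q : ℤ, q ≠ 0 → ∃ R : ℚ, ∀ w : ℚ, (∃ m : ℤ, (q : ℚ) * w = m) → R ≤ |w| → g (w ^ 3 + b * w + c) = κ

theorem HypC.ev {g : ℚ → ℤ} {b c : ℚ} {κ : ℤ} (h : HypC g b c κ) (P : ℚ[X]) (hP : 0 < P.degree) :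
    ∀ᶠ n : ℕ in atTop, g ((P.eval (n : ℚ)) ^ 3 + b * P.eval (n : ℚ) + c) = κ := by
  obtain ⟨d, hdm, hd⟩ := IsLocalization.integerNormalization_spec (nonZeroDivisors ℤ) P
  obtain ⟨R, hR⟩ := h d (nonZeroDivisors.ne_zero hdm)
  have ht : Tendsto (fun n : ℕ => |P.eval (n : ℚ)|) atTop atTop := by
    refine Polynomial.tendsto_abv_atTop abs P hP ?_
    have h1 : (abs ∘ fun n : ℕ => (n : ℚ)) = fun n : ℕ => (n : ℚ) := by
      funext n
      simp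
    rw [h1]
    exact tendsto_natCast_atTop_atTop
  filter_upwards [ht.eventually_ge_atTop R] with n hn
  refine hR _ ⟨(IsLocalization.integerNormalization (nonZeroDivisors ℤ) P).eval (n : ℤ), ?_⟩ hn
  have h2 := congrArg (Polynomial.eval (n : ℚ)) hd
  have h3 : Polynomial.eval (n : ℚ) ((IsLocalization.integerNormalization (nonZeroDivisors ℤ) P).map
      (algebraMap ℤ ℚ)) = (((IsLocalization.integerNormalization (nonZeroDivisors ℤ) P).eval (n : ℤ) : ℤ) : ℚ) := by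
    have := Polynomial.eval_map_apply (algebraMap ℤ ℚ) (n : ℤ)
      (p := IsLocalization.integerNormalization (nonZeroDivisors ℤ) P)
    simp at this ⊢
  rw [← h3, h2]
  simp

theorem prod_identity_gen {M y z b c x1 x2 x3 : ℚ} (h1 : x1 + x2 + x3 = -M)
    (h2 : x1 * x2 + x1 * x3 + x2 * x3 = b - M * (y + z)) (h3 : x1 * x2 * x3 = -c - M * y * z) :
    (x1 ^ 3 + b * x1 + c) * (x2 ^ 3 + b * x2 + c) * (x3 ^ 3 + b * x3 + c) =
      -M ^ 3 * ((y ^ 3 + b * y + c) * (z ^ 3 + b * z + c)) := by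
  obtain ⟨p, hp⟩ : ∃ p, p = x1 + x2 + x3 := ⟨_, rfl⟩
  obtain ⟨q, hq⟩ : ∃ q, q = x1 * x2 + x1 * x3 + x2 * x3 := ⟨_, rfl⟩
  obtain ⟨r, hr⟩ : ∃ r, r = x1 * x2 * x3 := ⟨_, rfl⟩
  have e : (x1 ^ 3 + b * x1 + c) * (x2 ^ 3 + b * x2 + c) * (x3 ^ 3 + b * x3 + c) =
      r ^ 3 + b * (r * (q ^ 2 - 2 * p * r)) + c * (q ^ 3 - 3 * p * q * r + 3 * r ^ 2)
      + b ^ 2 * (r * (p ^ 2 - 2 * q)) + b * c * (p ^ 2 * q - 2 * q ^ 2 - p * r)
      + c ^ 2 * (p ^ 3 - 3 * p * q + 3 * r) + b ^ 3 * r + b ^ 2 * c * q + b * c ^ 2 * p + c ^ 3 := by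
    rw [hp, hq, hr]
    ring
  rw [← hp] at h1
  rw [← hq] at h2
  rw [← hr] at h3
  rw [e, h1, h2, h3]
  ring

theorem five_term_gen {u t b c F F1 G : ℚ} (hb : b = F1 - 3 * u ^ 2) (hc : c = F - F1 * u + 2 * u ^ 3)
    (hG : G = 27 * u * F * F1 - 54 * F ^ 2 - F1 ^ 3) (hF0 : F ≠ 0) (hF10 : F1 ≠ 0) (hG0 : G ≠ 0)
    {y x1 x2 x3 z : ℚ}
    (hy : y = (-1 / (4 * F)) * t ^ 2 + (F1 ^ 2 / (4 * F) - 2 * u))
    (hx1 : x1 = (-3 / (8 * F * F1)) * t ^ 3 + (1 / (8 * F)) * t ^ 2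
      + (-3 * (12 * u * F - F1 ^ 2) / (8 * F * F1)) * t
      + (-F1 ^ 2 / (8 * F) + 5 / 2 * u - 3 * F / F1))
    (hx2 : x2 = (3 / (8 * F * F1)) * t ^ 3 + (1 / (8 * F)) * t ^ 2
      + (3 * (12 * u * F - F1 ^ 2) / (8 * F * F1)) * t
      + (-F1 ^ 2 / (8 * F) + 5 / 2 * u - 3 * F / F1))
    (hx3 : x3 = (-1 / (4 * F)) * t ^ 2 + (5 * F1 ^ 2 / (36 * F) - 2 * u))
    (hz : z = x3 + (81 * F ^ 2 / (G * F1)) * (x3 ^ 3 + b * x3 + c)) :
    (x1 ^ 3 + b * x1 + c) * (x2 ^ 3 + b * x2 + c) * (x3 ^ 3 + b * x3 + c) =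
      -(-G / (9 * F * F1)) ^ 3 * ((y ^ 3 + b * y + c) * (z ^ 3 + b * z + c)) := by
  apply prod_identity_gen
  · rw [hx1, hx2, hx3]
    field_simp
    rw [hG]
    ring
  · rw [hz, hx1, hx2, hx3, hy, hb, hc]
    field_simp
    rw [hG]
    ring
  · rw [hz, hx1, hx2, hx3, hy, hb, hc]
    field_simp
    rw [hG]
    ring

theorem cubic_ne_zero_of_large {w b c : ℚ} (hw : |b| + |c| + 1 ≤ |w|) : w ^ 3 + b * w + c ≠ 0 := by
  have hb0 : 0 ≤ |b| := abs_nonneg b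
  have hc0 : 0 ≤ |c| := abs_nonneg c
  intro h
  have h1 : w ^ 3 = -(b * w + c) := by linarith
  have h2 : |w| ^ 3 ≤ |b| * |w| + |c| := by
    rw [← abs_pow, h1, abs_neg]
    calc |b * w + c| ≤ |b * w| + |c| := abs_add_le _ _
      _ = |b| * |w| + |c| := by rw [abs_mul]
  have h3 : 1 ≤ |w| := by linarith
  have h4 : (|b| + |c| + 1) * |w| ≤ |w| ^ 3 := by
    have h5 : |b| + |c| + 1 ≤ |w| ^ 2 := by nlinarith
    calc (|b| + |c| + 1) * |w| ≤ |w| ^ 2 * |w| := mul_le_mul_of_nonneg_right h5 (by linarith)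
      _ = |w| ^ 3 := by ring
  nlinarith

theorem HypC.val {g : ℚ → ℤ} (hg : CM g) {b c : ℚ} {κ : ℤ} (h : HypC g b c κ) : κ = 1 ∨ κ = -1 := by
  have h1 := h.ev X (by rw [degree_X]; norm_num)
  obtain ⟨N, hN⟩ := eventually_atTop.1 h1
  obtain ⟨m, hm⟩ := exists_nat_gt (|b| + |c| + 1)
  have h2 := hN (max N m) (le_max_left _ _)
  rw [eval_X] at h2
  rw [← h2]
  apply hg.val
  apply cubic_ne_zero_of_large
  have h3 : (m : ℚ) ≤ (max N m : ℕ) := by exact_mod_cast le_max_right N m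
  have h4 : |((max N m : ℕ) : ℚ)| = ((max N m : ℕ) : ℚ) := abs_of_nonneg (Nat.cast_nonneg _)
  rw [h4]
  linarith

/-- the five term relation for `f = T^3 + b T + c` at the rational point `u` -/
theorem HypC.rel {g : ℚ → ℤ} (hg : CM g) {b c : ℚ} {κ : ℤ} (h : HypC g b c κ) {u F F1 G : ℚ}
    (hF : F = u ^ 3 + b * u + c) (hF1 : F1 = 3 * u ^ 2 + b)
    (hG : G = 27 * u * F * F1 - 54 * F ^ 2 - F1 ^ 3) (hF0 : F ≠ 0) (hF10 : F1 ≠ 0) (hG0 : G ≠ 0) :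
    g F * g F1 * g G = κ := by
  have hb : b = F1 - 3 * u ^ 2 := by rw [hF1]; ring
  have hc : c = F - F1 * u + 2 * u ^ 3 := by rw [hF, hF1]; ring
  set Py : ℚ[X] := C (-1 / (4 * F)) * X ^ 2 + C (F1 ^ 2 / (4 * F) - 2 * u) with hPy
  set P1 : ℚ[X] := C (-3 / (8 * F * F1)) * X ^ 3 + C (1 / (8 * F)) * X ^ 2
      + C (-3 * (12 * u * F - F1 ^ 2) / (8 * F * F1)) * X
      + C (-F1 ^ 2 / (8 * F) + 5 / 2 * u - 3 * F / F1) with hP1
  set P2 : ℚ[X] := C (3 / (8 * F * F1)) * X ^ 3 + C (1 / (8 * F)) * X ^ 2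
      + C (3 * (12 * u * F - F1 ^ 2) / (8 * F * F1)) * X
      + C (-F1 ^ 2 / (8 * F) + 5 / 2 * u - 3 * F / F1) with hP2
  set P3 : ℚ[X] := C (-1 / (4 * F)) * X ^ 2 + C (5 * F1 ^ 2 / (36 * F) - 2 * u) with hP3
  set Q : ℚ[X] := C (81 * F ^ 2 / (G * F1)) * X ^ 3 + C 0 * X ^ 2 + C (1 + 81 * F ^ 2 / (G * F1) * b) * X
      + C (81 * F ^ 2 / (G * F1) * c) with hQ
  have dy : 0 < Py.degree := deg2 (div_ne_zero (by norm_num) (by positivity))
  have d1 : 0 < P1.degree := deg3 (div_ne_zero (by norm_num) (by positivity))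
  have d2 : 0 < P2.degree := deg3 (div_ne_zero (by norm_num) (by positivity))
  have d3 : 0 < P3.degree := deg2 (div_ne_zero (by norm_num) (by positivity))
  have dQ : 0 < Q.degree := deg3 (div_ne_zero (by positivity) (by positivity))
  have dz : 0 < (Q.comp P3).degree := by
    rw [← natDegree_pos_iff_degree_pos, natDegree_comp]
    exact Nat.mul_pos (natDegree_pos_iff_degree_pos.2 dQ) (natDegree_pos_iff_degree_pos.2 d3)
  obtain ⟨n, ny, n1, n2, n3, nz⟩ := ((h.ev Py dy).and ((h.ev P1 d1).and ((h.ev P2 d2).and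
    ((h.ev P3 d3).and (h.ev _ dz))))).exists
  have key := five_term_gen (t := (n : ℚ)) hb hc hG hF0 hF10 hG0 (y := Py.eval (n : ℚ)) (x1 := P1.eval (n : ℚ))
    (x2 := P2.eval (n : ℚ)) (x3 := P3.eval (n : ℚ)) (z := (Q.comp P3).eval (n : ℚ))
    (by simp only [hPy, eval_add, eval_mul, eval_C, eval_pow, eval_X])
    (by simp only [hP1, eval_add, eval_mul, eval_C, eval_pow, eval_X])
    (by simp only [hP2, eval_add, eval_mul, eval_C, eval_pow, eval_X])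
    (by simp only [hP3, eval_add, eval_mul, eval_C, eval_pow, eval_X])
    (by
      rw [eval_comp]
      generalize P3.eval (n : ℚ) = w
      simp only [hQ, eval_add, eval_mul, eval_C, eval_pow, eval_X]
      ring)
  have hκ := h.val hg
  have key2 := congrArg g key
  have e1 : -(-G / (9 * F * F1)) ^ 3 = (G / (9 * F * F1)) ^ 2 * (G / (3 ^ 2 * (F * F1))) := by
    ring
  have hm0 : G / (9 * F * F1) ≠ 0 := div_ne_zero hG0 (by positivity)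
  rw [hg.mul, hg.mul, n1, n2, n3, hg.mul, hg.mul, ny, nz, e1, hg.mul, hg.sq hm0,
    hg.div (by positivity), hg.mul (3 ^ 2), hg.sq (by norm_num), hg.mul F] at key2
  have hk2 : κ * κ = 1 := by rcases hκ with h | h <;> rw [h] <;> norm_num
  have e3 : κ * κ * κ = (g F * g F1 * g G) * (κ * κ) := by
    rw [key2]
    ring
  rw [hk2] at e3
  linarith

/-- the sign is determined by the value at the centre -/
theorem HypC.centre {g : ℚ → ℤ} (hg : CM g) {b c : ℚ} {κ : ℤ} (h : HypC g b c κ) (hb : b ≠ 0) (hc : c ≠ 0)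
    (hD : 4 * b ^ 3 + 27 * c ^ 2 ≠ 0) : g (2 * c) = κ := by
  obtain ⟨D, hDe⟩ : ∃ D, D = 4 * b ^ 3 + 27 * c ^ 2 := ⟨_, rfl⟩
  rw [← hDe] at hD
  have hF : -(c * D) / (8 * b ^ 3) = (-3 * c / (2 * b)) ^ 3 + b * (-3 * c / (2 * b)) + c := by
    rw [hDe]
    field_simp
    ring
  have hF1 : D / (4 * b ^ 2) = 3 * (-3 * c / (2 * b)) ^ 2 + b := by
    rw [hDe]
    field_simp
    ring
  have hG : -(D ^ 2) / (16 * b ^ 3) = 27 * (-3 * c / (2 * b)) * (-(c * D) / (8 * b ^ 3)) * (D / (4 * b ^ 2))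
      - 54 * (-(c * D) / (8 * b ^ 3)) ^ 2 - (D / (4 * b ^ 2)) ^ 3 := by
    field_simp
    rw [hDe]
    ring
  have h1 := h.rel hg hF hF1 hG (div_ne_zero (neg_ne_zero.2 (mul_ne_zero hc hD)) (by positivity))
    (div_ne_zero hD (by positivity)) (div_ne_zero (neg_ne_zero.2 (pow_ne_zero 2 hD)) (by positivity))
  rw [← hg.mul, ← hg.mul] at h1
  have e : -(c * D) / (8 * b ^ 3) * (D / (4 * b ^ 2)) * (-(D ^ 2) / (16 * b ^ 3)) =
      (D ^ 2 / (32 * b ^ 4)) ^ 2 * (2 * c) := by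
    field_simp
    norm_num
  rw [e, hg.mul, hg.sq (div_ne_zero (pow_ne_zero 2 hD) (by positivity)), one_mul] at h1
  exact h1

end MP648Diag
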