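import Pool.Agent.Lib.MP_648c71_nt.Diag.SeqLib
import Pool.Agent.Lib.MP_648c71_nt.Diag.Gen

/-!
The cubics `T^3 + b T` with counts: both signs along Pell orbits of the five term surface.
-/

namespace MP648Diag

open Filter Pool.Agent.Lib.MP_648c71_nt Pool.Agent.Lib.MP_648c71_nt.AllCub

/-- the five term identity at one point of the conic -/
theorem zero_point {g : ℚ → ℤ} (hg : GMul g) {b t e m y v : ℚ} (hte : t * e = t + 4) (hm : m ≠ 0)
    (hconic : v ^ 2 = ((e + 2) * y + m) ^ 2 + t * (y ^ 2 + b))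
    {x1 x2 x3 z : ℚ} (hx1 : x1 = e * y) (hx2 : x2 = (-(e * y) - m - v) / 2)
    (hx3 : x3 = (-(e * y) - m + v) / 2)
    (hz : z = (e ^ 2 + (4 * e + 4 + t) / 4) / m * y ^ 2 + e * y + b * (1 + t / 4) / m)
    (n0 : fc b 0 y ≠ 0) (n1 : fc b 0 x1 ≠ 0) (n2 : fc b 0 x2 ≠ 0) (n3 : fc b 0 x3 ≠ 0) (n4 : fc b 0 z ≠ 0) :
    g (fc b 0 x1) * g (fc b 0 x2) * g (fc b 0 x3) * (g (fc b 0 y) * g (fc b 0 z)) = g (-m) := by
  have key := prod_identity_gen (M := m) (y := y) (z := z) (b := b) (c := 0) (x1 := x1) (x2 := x2) (x3 := x3)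
    (by rw [hx1, hx2, hx3]; ring)
    (by
      rw [hx1, hx2, hx3, hz]
      field_simp
      linear_combination (-4) * hconic)
    (by
      rw [hx1, hx2, hx3, hz]
      field_simp
      linear_combination (-4 * e * y) * hconic + (-4 * y * (y ^ 2 + b)) * hte)
  have key2 := congrArg g key
  have f1 : ∀ x : ℚ, x ^ 3 + b * x + 0 = fc b 0 x := fun x => rfl
  rw [f1, f1, f1, f1, f1, show -m ^ 3 = (-m) * m ^ 2 by ring, hg.mul, hg.mul, hg.mul, hg.mul,
    hg.pow_two hm, mul_one, hg.mul] at key2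
  have s0 := hg.sq _ n0
  have s4 := hg.sq _ n4
  rw [key2]
  calc g (-m) * (g (fc b 0 y) * g (fc b 0 z)) * (g (fc b 0 y) * g (fc b 0 z))
      = g (-m) * (g (fc b 0 y) * g (fc b 0 y)) * (g (fc b 0 z) * g (fc b 0 z)) := by ring
    _ = g (-m) := by rw [s0, s4]; ring

theorem fc_ne {b c w : ℚ} (hw : |b| + |c| + 1 ≤ |w|) : fc b c w ≠ 0 := cubic_ne_zero_of_large hw

theorem zero_orbit {g : ℚ → ℤ} (hg : GMul g) {b : ℚ} (t : ℕ) (ht : 0 < t)
    (hD : ¬ IsSquare (1 + t : ℤ)) {m kk : ℚ} (hm : 0 < m) (hk : 0 < kk) (hk2 : kk ^ 2 = m ^ 2 + t * b) :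
    Seq g b 0 (g (-m)) := by
  have htQ : (0:ℚ) < t := by exact_mod_cast ht
  obtain ⟨e, he⟩ : ∃ e : ℚ, e = 1 + 4 / t := ⟨_, rfl⟩
  have he0 : 0 < e := by rw [he]; positivity
  have hte : (t:ℚ) * e = t + 4 := by
    rw [he]
    field_simp
  obtain ⟨x, y, C, hxy, hx1, hy1, hxm, hym, hxC, hyC⟩ := pell_seq (1 + t : ℤ) (by positivity) hD
  have hxyQ : ∀ k, (x k : ℚ) ^ 2 - (1 + t) * (y k) ^ 2 = 1 := fun k => by exact_mod_cast hxy k
  have hx1Q : ∀ k, (1:ℚ) ≤ x k := fun k => by exact_mod_cast hx1 k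
  have hy1Q : ∀ k, (1:ℚ) ≤ y k := fun k => by exact_mod_cast hy1 k
  obtain ⟨α, hα⟩ : ∃ α : ℚ, α = (e + 2) * m / (e ^ 2 * (1 + t)) := ⟨_, rfl⟩
  obtain ⟨β, hβ⟩ : ∃ β : ℚ, β = kk / e := ⟨_, rfl⟩
  obtain ⟨γ, hγ⟩ : ∃ γ : ℚ, γ = (e + 2) * m / e := ⟨_, rfl⟩
  have hα0 : 0 < α := by rw [hα]; positivity
  have hβ0 : 0 < β := by rw [hβ]; positivity
  have hγ0 : 0 < γ := by rw [hγ]; positivity
  let Y : ℕ → ℚ := fun k => α * ((x k : ℚ) - 1) + β * y k
  let V : ℕ → ℚ := fun k => kk * x k + γ * y k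
  -- monotonicity
  have hYm : StrictMono Y := by
    intro k l hkl
    have h1 : (x k : ℚ) < x l := by exact_mod_cast hxm hkl
    have h2 : (y k : ℚ) < y l := by exact_mod_cast hym hkl
    have h3 := mul_lt_mul_of_pos_left h1 hα0
    have h4 := mul_lt_mul_of_pos_left h2 hβ0
    show α * ((x k : ℚ) - 1) + β * y k < α * ((x l : ℚ) - 1) + β * y l
    linarith
  have hVm : StrictMono V := by
    intro k l hkl
    have h1 : (x k : ℚ) < x l := by exact_mod_cast hxm hkl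
    have h2 : (y k : ℚ) < y l := by exact_mod_cast hym hkl
    have h3 := mul_lt_mul_of_pos_left h1 hk
    have h4 := mul_lt_mul_of_pos_left h2 hγ0
    show kk * x k + γ * y k < kk * x l + γ * y l
    linarith
  have hY0 : ∀ k, 0 < Y k := by
    intro k
    have h1 := hx1Q k
    have h2 := hy1Q k
    have h3 : 0 ≤ α * ((x k : ℚ) - 1) := mul_nonneg hα0.le (by linarith)
    have h4 : 0 < β * y k := by positivity
    show 0 < α * ((x k : ℚ) - 1) + β * y k
    linarith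
  have hV0 : ∀ k, 0 < V k := by
    intro k
    have h1 := hx1Q k
    have h2 := hy1Q k
    show 0 < kk * x k + γ * y k
    positivity
  -- the conic
  have hconic : ∀ k, V k ^ 2 = ((e + 2) * Y k + m) ^ 2 + t * (Y k ^ 2 + b) := by
    intro k
    have e3 : (e + 2) ^ 2 + t = e ^ 2 * (1 + t) := by
      have h1 : (t:ℚ) ≠ 0 := htQ.ne'
      rw [he]
      field_simp
      ring
    have e5 : Y k * (e ^ 2 * (1 + t)) + (e + 2) * m = (e + 2) * m * x k + y k * (e * (1 + t) * kk) := by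
      show (α * ((x k : ℚ) - 1) + β * y k) * (e ^ 2 * (1 + t)) + (e + 2) * m = _
      rw [hα, hβ]
      field_simp
      ring
    have e2 : e * V k = x k * kk * e + y k * ((e + 2) * m) := by
      show e * (kk * x k + γ * y k) = _
      rw [hγ]
      field_simp
    have e6 : (Y k * (e ^ 2 * (1 + t)) + (e + 2) * m) ^ 2 - (1 + t) * (e * V k) ^ 2 =
        ((e + 2) * m) ^ 2 - (1 + t) * e ^ 2 * kk ^ 2 := by
      rw [e5, e2]
      linear_combination (((e + 2) * m) ^ 2 - (1 + t) * e ^ 2 * kk ^ 2) * hxyQ k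
    have hne : (1 + (t:ℚ)) * e ^ 2 ≠ 0 := by positivity
    apply mul_left_cancel₀ hne
    have e7 : (1 + (t:ℚ)) * e ^ 2 * (((e + 2) * Y k + m) ^ 2 + t * (Y k ^ 2 + b)) =
        (Y k * (e ^ 2 * (1 + t)) + (e + 2) * m) ^ 2 - ((e + 2) * m) ^ 2 + (1 + t) * e ^ 2 * (m ^ 2 + t * b) := by
      have : (1 + (t:ℚ)) * e ^ 2 * (((e + 2) * Y k + m) ^ 2 + t * (Y k ^ 2 + b)) =
        (1 + (t:ℚ)) * e ^ 2 * (((e + 2) ^ 2 + t) * Y k ^ 2 + 2 * (e + 2) * m * Y k + m ^ 2 + t * b) := by ring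
      rw [this, e3]
      ring
    rw [e7, ← hk2]
    linear_combination -e6
  -- tameness
  have tx : Gr (fun k => (x k : ℚ)) := Gr.int hx1 hxC
  have ty : Gr (fun k => (y k : ℚ)) := Gr.int hy1 hyC
  have bx : BD (fun k => (x k : ℚ)) := BD.int x
  have bY' : BD (fun k => (y k : ℚ)) := BD.int y
  have gY : Gr Y := ((Gr.const α).mul (tx.sub (Gr.const 1))).add ((Gr.const β).mul ty)
  have bY : BD Y := ((BD.const α).mul (bx.sub (BD.const 1))).add ((BD.const β).mul bY')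
  have gV : Gr V := ((Gr.const kk).mul tx).add ((Gr.const γ).mul ty)
  have bV : BD V := ((BD.const kk).mul bx).add ((BD.const γ).mul bY')
  obtain ⟨A, hA⟩ : ∃ A : ℚ, A = (e ^ 2 + (4 * e + 4 + t) / 4) / m := ⟨_, rfl⟩
  obtain ⟨E, hE⟩ : ∃ E : ℚ, E = b * (1 + t / 4) / m := ⟨_, rfl⟩
  have hA0 : 0 < A := by rw [hA]; positivity
  let w : Fin 5 → ℕ → ℚ := ![Y, fun k => e * Y k, fun k => (-(e * Y k) - m - V k) / 2,
    fun k => (-(e * Y k) - m + V k) / 2, fun k => A * Y k ^ 2 + e * Y k + E]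
  have hw : ∀ i, Tame (w i) := by
    intro i
    fin_cases i
    · exact ⟨bY, gY, 1, mult_inj hYm.injective⟩
    · refine ⟨(BD.const e).mul bY, (Gr.const e).mul gY, 1, mult_inj ?_⟩
      intro k l hkl
      exact hYm.injective (mul_left_cancel₀ he0.ne' hkl)
    · refine ⟨(((((BD.const e).mul bY).neg).sub (BD.const m)).sub bV).div 2,
        (((((Gr.const e).mul gY).neg).sub (Gr.const m)).sub gV).div 2, 1, mult_inj ?_⟩
      apply StrictAnti.injective
      intro k l hkl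
      have h1 := hYm hkl
      have h2 := hVm hkl
      have h3 := mul_lt_mul_of_pos_left h1 he0
      show (-(e * Y l) - m - V l) / 2 < (-(e * Y k) - m - V k) / 2
      linarith
    · refine ⟨(((((BD.const e).mul bY).neg).sub (BD.const m)).add bV).div 2,
        (((((Gr.const e).mul gY).neg).sub (Gr.const m)).add gV).div 2, 2, ?_⟩
      have hA' : (e + 2) ^ 2 + t - e ^ 2 ≠ 0 := by
        have : (e + 2) ^ 2 + t - e ^ 2 = 4 * e + 4 + t := by ring
        rw [this]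
        positivity
      refine mult_quad (u := Y) hYm.injective hA' (fun ξ => 2 * (e + 2) * m - 2 * e * (2 * ξ + m))
        (fun ξ => m ^ 2 + t * b - (2 * ξ + m) ^ 2) ?_
      intro k
      have h1 : V k = 2 * ((-(e * Y k) - m + V k) / 2) + e * Y k + m := by ring
      have h2 := hconic k
      obtain ⟨ξ, hξ⟩ : ∃ ξ, ξ = (-(e * Y k) - m + V k) / 2 := ⟨_, rfl⟩
      show ((e + 2) ^ 2 + t - e ^ 2) * Y k ^ 2 + (2 * (e + 2) * m - 2 * e * (2 * ((-(e * Y k) - m + V k) / 2) + m)) * Y k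
        + (m ^ 2 + t * b - (2 * ((-(e * Y k) - m + V k) / 2) + m) ^ 2) = 0
      rw [← hξ] at h1 ⊢
      rw [h1] at h2
      linear_combination -h2
    · refine ⟨(((BD.const A).mul (bY.pow 2)).add ((BD.const e).mul bY)).add (BD.const E),
        (((Gr.const A).mul (gY.pow 2)).add ((Gr.const e).mul gY)).add (Gr.const E), 1, mult_inj ?_⟩
      apply StrictMono.injective
      intro k l hkl
      have h1 := hYm hkl
      have h2 := hY0 k
      have h3 := mul_lt_mul_of_pos_left h1 he0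
      have h4 : Y k ^ 2 < Y l ^ 2 := by nlinarith
      have h5 := mul_lt_mul_of_pos_left h4 hA0
      show A * Y k ^ 2 + e * Y k + E < A * Y l ^ 2 + e * Y l + E
      linarith
  -- largeness of `Y`
  have hYk : ∀ k : ℕ, β * k ≤ Y k := by
    intro k
    have h1 := hx1Q k
    have h3 : 0 ≤ α * ((x k : ℚ) - 1) := mul_nonneg hα0.le (by linarith)
    have h4 : (k:ℤ) ≤ y k := by
      induction k with
      | zero => have := hy1 0; push_cast; omega
      | succ k ih =>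
        have h7 : y k < y (k + 1) := hym (Nat.lt_succ_self k)
        have ih' := ih (hx1Q k) (mul_nonneg hα0.le (by linarith [hx1Q k]))
        push_cast
        linarith
    have h5 : (k:ℚ) ≤ y k := by exact_mod_cast h4
    show β * k ≤ α * ((x k : ℚ) - 1) + β * y k
    have h6 := mul_le_mul_of_nonneg_left h5 hβ0.le
    linarith
  obtain ⟨S, hS⟩ : ∃ S : ℚ, S = (|b| + 1) * (1 + 2 / e + 1 / A) + |E| / A + 1 := ⟨_, rfl⟩
  obtain ⟨k₀, hk₀⟩ := exists_nat_gt (S / β)
  refine seq_of_cover w hw k₀ fun k hk' => ?_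
  have hYS : S ≤ Y k := by
    refine le_trans ?_ (hYk k)
    have h1 : (k₀:ℚ) ≤ k := by exact_mod_cast hk'
    have h2 : S / β < k := lt_of_lt_of_le hk₀ h1
    rw [div_lt_iff₀ hβ0] at h2
    linarith
  have hb0 : 0 ≤ |b| := abs_nonneg b
  have hS1 : 1 ≤ S := by
    rw [hS]
    have : 0 ≤ (|b| + 1) * (1 + 2 / e + 1 / A) + |E| / A := by positivity
    linarith
  have hSb : |b| + 1 ≤ S := by
    rw [hS]
    have : 0 ≤ (|b| + 1) * (2 / e + 1 / A) + |E| / A + 1 := by positivity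
    nlinarith
  have hSe : 2 * (|b| + 1) ≤ e * S := by
    have h1 : (|b| + 1) * (2 / e) ≤ S := by
      rw [hS]
      have : 0 ≤ (|b| + 1) * (1 + 1 / A) + |E| / A + 1 := by positivity
      nlinarith
    have h2 := mul_le_mul_of_nonneg_left h1 he0.le
    have h3 : e * ((|b| + 1) * (2 / e)) = 2 * (|b| + 1) := by field_simp
    linarith
  have hY1 : 1 ≤ Y k := le_trans hS1 hYS
  have hVB : (e + 2) * Y k + m ≤ V k := by
    apply abs_le_of_sq_le_sq' _ (hV0 k).le |>.2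
    rw [hconic k]
    have h1 : 0 ≤ Y k ^ 2 + b := by
      have h2 : -|b| ≤ b := neg_abs_le b
      have h3 : |b| + 1 ≤ Y k := le_trans hSb hYS
      nlinarith
    have : 0 ≤ (t:ℚ) * (Y k ^ 2 + b) := by positivity
    linarith
  have heY : 2 * (|b| + 1) ≤ e * Y k := le_trans hSe (mul_le_mul_of_nonneg_left hYS he0.le)
  have n0 : fc b 0 (Y k) ≠ 0 := by
    apply fc_ne
    rw [abs_of_pos (hY0 k), abs_zero]
    linarith
  have n1 : fc b 0 (e * Y k) ≠ 0 := by
    apply fc_ne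
    rw [abs_of_pos (mul_pos he0 (hY0 k)), abs_zero]
    linarith
  have n2 : fc b 0 ((-(e * Y k) - m - V k) / 2) ≠ 0 := by
    apply fc_ne
    refine le_trans ?_ (neg_le_abs _)
    rw [abs_zero]
    have := hV0 k
    linarith
  have n3 : fc b 0 ((-(e * Y k) - m + V k) / 2) ≠ 0 := by
    apply fc_ne
    refine le_trans ?_ (le_abs_self _)
    rw [abs_zero]
    have h3 : |b| + 1 ≤ Y k := le_trans hSb hYS
    linarith
  have n4 : fc b 0 (A * Y k ^ 2 + e * Y k + E) ≠ 0 := by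
    apply fc_ne
    refine le_trans ?_ (le_abs_self _)
    rw [abs_zero]
    have h1 : (|b| + 1) / A + |E| / A ≤ Y k := by
      refine le_trans ?_ hYS
      rw [hS]
      have h2 : 0 ≤ (|b| + 1) * (1 + 2 / e) + 1 := by positivity
      have h3 : (|b| + 1) * (1 + 2 / e + 1 / A) = (|b| + 1) * (1 + 2 / e) + (|b| + 1) / A := by ring
      linarith
    have h2 : |b| + 1 + |E| ≤ A * Y k := by
      have h3 := mul_le_mul_of_nonneg_left h1 hA0.le
      have h4 : A * ((|b| + 1) / A + |E| / A) = |b| + 1 + |E| := by field_simp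
      linarith
    have h3 : A * Y k ≤ A * Y k ^ 2 := by
      apply mul_le_mul_of_nonneg_left _ hA0.le
      nlinarith
    have h4 := neg_abs_le E
    have h5 : 0 < e * Y k := mul_pos he0 (hY0 k)
    linarith
  have key := zero_point hg (b := b) (t := (t:ℚ)) (e := e) (m := m) (y := Y k) (v := V k) hte hm.ne' (hconic k)
    rfl rfl rfl (z := A * Y k ^ 2 + e * Y k + E) (by rw [hA, hE]) n0 n1 n2 n3 n4
  -- one of the five signs
  have hpm : ∀ z : ℚ, fc b 0 z ≠ 0 → g (fc b 0 z) = 1 ∨ g (fc b 0 z) = -1 := by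
    intro z hz
    rcases mul_self_eq_one_iff.1 (hg.sq _ hz) with h | h
    · exact Or.inl h
    · exact Or.inr h
  have hgm : g (-m) = 1 ∨ g (-m) = -1 := by
    rcases mul_self_eq_one_iff.1 (hg.sq (-m) (neg_ne_zero.2 hm.ne')) with h | h
    · exact Or.inl h
    · exact Or.inr h
  by_contra hcon
  push Not at hcon
  have c0 : g (fc b 0 (Y k)) ≠ g (-m) := hcon 0
  have c1 : g (fc b 0 (e * Y k)) ≠ g (-m) := hcon 1
  have c2 : g (fc b 0 ((-(e * Y k) - m - V k) / 2)) ≠ g (-m) := hcon 2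
  have c3 : g (fc b 0 ((-(e * Y k) - m + V k) / 2)) ≠ g (-m) := hcon 3
  have c4 : g (fc b 0 (A * Y k ^ 2 + e * Y k + E)) ≠ g (-m) := hcon 4
  have p0 := hpm _ n0
  have p1 := hpm _ n1
  have p2 := hpm _ n2
  have p3 := hpm _ n3
  have p4 := hpm _ n4
  generalize g (fc b 0 (Y k)) = a0 at *
  generalize g (fc b 0 (e * Y k)) = a1 at *
  generalize g (fc b 0 ((-(e * Y k) - m - V k) / 2)) = a2 at *
  generalize g (fc b 0 ((-(e * Y k) - m + V k) / 2)) = a3 at *
  generalize g (fc b 0 (A * Y k ^ 2 + e * Y k + E)) = a4 at *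
  generalize g (-m) = G at *
  have q : ∀ a : ℤ, (a = 1 ∨ a = -1) → a ≠ G → a = -G := by
    intro a ha hne
    rcases ha with ha | ha <;> rcases hgm with h | h <;> rw [ha, h] at hne ⊢ <;> simp at hne ⊢
  rw [q a0 p0 c0, q a1 p1 c1, q a2 p2 c2, q a3 p3 c3, q a4 p4 c4] at key
  rcases hgm with h | h <;> rw [h] at key <;> norm_num at key

theorem zero_seq {g : ℚ → ℤ} (hg : GMul g) (h2 : g 2 = -1) (b : ℚ) (s : ℤ) (hs : s = 1 ∨ s = -1) :
    Seq g b 0 s := by
  have hb0 : 0 ≤ |b| := abs_nonneg b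
  have hb1 : b ≤ |b| := le_abs_self b
  have hb2 : -|b| ≤ b := neg_abs_le b
  obtain ⟨r, hr⟩ : ∃ r : ℚ, r = |b| + 1 := ⟨_, rfl⟩
  have hr0 : 0 < r := by rw [hr]; linarith
  have hr1 : |b| < r ^ 2 := by rw [hr]; nlinarith
  have hm : 0 < (r ^ 2 - b) / (2 * r) := div_pos (by linarith) (by linarith)
  have hk : 0 < (r ^ 2 + b) / (2 * r) := div_pos (by linarith) (by linarith)
  have r1 := zero_orbit hg (b := b) 1 one_pos (by
    rintro ⟨z, hz⟩
    push_cast at hz
    have h1 : z ≤ 1 := by nlinarith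
    have h2 : -1 ≤ z := by nlinarith
    interval_cases z <;> norm_num at hz) hm hk (by
      push_cast
      field_simp
      ring)
  have r2 := zero_orbit hg (b := b) 4 (by norm_num) (by
    rintro ⟨z, hz⟩
    push_cast at hz
    have h1 : z ≤ 2 := by nlinarith
    have h2 : -2 ≤ z := by nlinarith
    interval_cases z <;> norm_num at hz) (m := 2 * ((r ^ 2 - b) / (2 * r)))
      (kk := 2 * ((r ^ 2 + b) / (2 * r))) (by linarith) (by linarith) (by
      push_cast
      field_simp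
      ring)
  rw [show -(2 * ((r ^ 2 - b) / (2 * r))) = 2 * (-((r ^ 2 - b) / (2 * r))) by ring, hg.mul, h2] at r2
  rcases mul_self_eq_one_iff.1 (hg.sq (-((r ^ 2 - b) / (2 * r))) (neg_ne_zero.2 hm.ne')) with h | h
  · rw [h] at r1 r2
    rcases hs with h' | h' <;> rw [h']
    · exact r1
    · simpa using r2
  · rw [h] at r1 r2
    rcases hs with h' | h' <;> rw [h']
    · simpa using r2
    · exact r1

end MP648Diag
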