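import Pool.Agent.Lib.MP_648c71_nt.Diag.Cnt2
import Pool.Agent.Lib.MP_648c71_nt.Diag.Zero2
import Pool.Agent.Lib.MP_648c71_nt.Diag.AllRed
import Pool.Agent.Lib.MP_648c71_nt.AC.Orbit

/-!
All cubics: both signs, with counts.
-/

namespace MP648Diag

open Filter Pool.Agent.Lib.MP_648c71_nt Pool.Agent.Lib.MP_648c71_nt.AllCub

theorem seq_flip {g : ℚ → ℤ} (hg : GMul g) {b c : ℚ} {s : ℤ} (h : Seq g b (-c) (g (-1) * s)) : Seq g b c s := by
  obtain ⟨q, hq, C, K, n, h1, h2, h3⟩ := h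
  refine ⟨q, hq, C, K, fun k => -n k, fun k => ?_, fun v N => ?_, fun k => ?_⟩
  · rw [abs_neg]
    exact h1 k
  · have := h2 (-v) N
    refine le_trans (Finset.card_le_card ?_) this
    intro k hk
    rw [Finset.mem_filter] at hk ⊢
    exact ⟨hk.1, by linarith [hk.2]⟩
  · have h4 := h3 k
    have e : fc b c (((-n k : ℤ) : ℚ) / q) = (-1) * fc b (-c) ((n k : ℚ) / q) := by
      unfold fc
      push_cast
      ring
    have h5 : g (-1) * g (-1) = 1 := hg.sq _ (by norm_num)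
    rw [e, hg.mul, h4, ← mul_assoc, h5, one_mul]

theorem seq_all {g : ℚ → ℤ} (hg : g = gl ∨ g = gs) (b c : ℤ) (s : ℤ) (hs : s = 1 ∨ s = -1) :
    Seq g (b : ℚ) (c : ℚ) s := by
  obtain ⟨c1, c2, c3, -⟩ := g_facts hg
  have hm := c1.gmul
  rcases lt_trichotomy c 0 with h | h | h
  · refine seq_flip hm ?_
    have h1 : ((-c : ℤ) : ℚ) = -(c : ℚ) := by push_cast; rfl
    rw [← h1]
    refine seq_pos hm c2 (by omega) _ ?_
    have h5 : g (-1) * g (-1) = 1 := hm.sq _ (by norm_num)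
    rcases mul_self_eq_one_iff.1 h5 with h6 | h6 <;> rcases hs with rfl | rfl <;> simp [h6]
  · rw [h, Int.cast_zero]
    exact zero_seq hm c3 b s hs
  · exact seq_pos hm c2 h s hs

/-- ALL CUBICS, with counts. -/
theorem all_cubics {a b c d : ℤ} (ha : a ≠ 0) : GoodC a b c d := by
  rcases lt_or_gt_of_ne ha with h | h
  · exact goodC_neg (count_pos (by linarith) fun g hg s hs => seq_all hg _ _ s hs)
  · exact count_pos h fun g hg s hs => seq_all hg _ _ s hs

end MP648Diag
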