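import Pool.Agent.Lib.MP_648c71_nt.Diag.Red
import Pool.Agent.Lib.MP_648c71_nt.AC.SeqDef

/-!
Counting along sequences of exponential growth, and the assembly of the theorem with counts.
-/

namespace MP648Diag

open Filter Pool.Agent.Lib.MP_648c71_nt Pool.Agent.Lib.MP_648c71_nt.AllCub

/-- the same with a given denominator -/
def SeqAt (q : ℕ) (g : ℚ → ℤ) (b c : ℚ) (s : ℤ) : Prop :=
  ∃ (C K : ℕ) (n : ℕ → ℤ), (∀ k, |n k| ≤ C ^ (k + 1)) ∧
    (∀ v N, ((Finset.range N).filter (fun k => n k = v)).card ≤ K) ∧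
    ∀ k, g (fc b c ((n k : ℚ) / q)) = s

theorem SeqAt.mul {q : ℕ} {g : ℚ → ℤ} {b c : ℚ} {s : ℤ} (h : SeqAt q g b c s) {m : ℕ} (hm : 0 < m) :
    SeqAt (q * m) g b c s := by
  obtain ⟨C, K, n, h1, h2, h3⟩ := h
  have hmZ : (0:ℤ) < m := by exact_mod_cast hm
  refine ⟨C * m, K, fun k => n k * m, fun k => ?_, fun v N => ?_, fun k => ?_⟩
  · rw [abs_mul, abs_of_pos hmZ]
    push_cast
    rw [mul_pow]
    have e1 : (m : ℤ) ≤ (m : ℤ) ^ (k + 1) := by
      calc (m : ℤ) = (m : ℤ) ^ 1 := (pow_one _).symm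
        _ ≤ (m : ℤ) ^ (k + 1) := pow_le_pow_right₀ (by omega) (by omega)
    exact mul_le_mul (h1 k) e1 (by omega) (by positivity)
  · by_cases hv : (m : ℤ) ∣ v
    · obtain ⟨w, hw⟩ := hv
      refine le_trans (Finset.card_le_card ?_) (h2 w N)
      intro k hk
      simp only [Finset.mem_filter, Finset.mem_range] at hk ⊢
      refine ⟨hk.1, ?_⟩
      have := hk.2
      rw [hw, mul_comm] at this
      exact mul_left_cancel₀ hmZ.ne' this
    · have : (Finset.range N).filter (fun k => n k * m = v) = ∅ := by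
        apply Finset.filter_eq_empty_iff.2
        intro k _ hk
        exact hv ⟨n k, by rw [← hk]; ring⟩
      rw [this]
      simp
  · have := h3 k
    rw [← this]
    congr 1
    push_cast
    have hmQ : (m:ℚ) ≠ 0 := by exact_mod_cast hm.ne'
    rw [mul_div_mul_right _ _ hmQ]

/-- the count -/
theorem SeqAt.count {q : ℕ} {g : ℚ → ℤ} {b c : ℚ} {s : ℤ} (h : SeqAt q g b c s) :
    ∃ δ : ℝ, 0 < δ ∧ ∀ B : ℕ, ∃ X₀ : ℕ, ∀ X : ℕ, X₀ ≤ X →
      δ * Real.log X ≤ (((Finset.Icc (-(X:ℤ)) X).filter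
        (fun n => (B:ℤ) < |n| ∧ g (fc b c ((n : ℚ) / q)) = s)).card : ℝ) := by
  obtain ⟨C', K', n, h1', h2', h3⟩ := h
  -- make the constants large
  obtain ⟨C, hC⟩ : ∃ C, C = max C' 2 := ⟨_, rfl⟩
  obtain ⟨K, hK⟩ : ∃ K, K = K' + 1 := ⟨_, rfl⟩
  have hC2 : 2 ≤ C := by rw [hC]; exact le_max_right _ _
  have hK1 : 1 ≤ K := by omega
  have h1 : ∀ k, |n k| ≤ (C:ℤ) ^ (k + 1) := fun k => by
    refine le_trans (h1' k) ?_
    have : (C' : ℤ) ≤ C := by exact_mod_cast (hC ▸ le_max_left _ _)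
    exact pow_le_pow_left₀ (by positivity) this _
  have h2 : ∀ v N, ((Finset.range N).filter (fun k => n k = v)).card ≤ K := fun v N =>
    le_trans (h2' v N) (by omega)
  have hCR : (2:ℝ) ≤ C := by exact_mod_cast hC2
  have hKR : (1:ℝ) ≤ K := by exact_mod_cast hK1
  have hlogC : 0 < Real.log C := Real.log_pos (by linarith)
  refine ⟨1 / (4 * K * Real.log C), by positivity, fun B => ?_⟩
  -- choose `X₀ = C ^ (4 K (2 B + 4))`
  refine ⟨C ^ (4 * K * (2 * B + 4)), fun X hX => ?_⟩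
  obtain ⟨L, hL⟩ : ∃ L, L = Nat.log C X := ⟨_, rfl⟩
  have hX1 : 1 ≤ X := le_trans (Nat.one_le_pow _ _ (by omega)) hX
  have hXpos : X ≠ 0 := by omega
  have hLX : C ^ L ≤ X := by rw [hL]; exact Nat.pow_log_le_self C hXpos
  have hXL : X < C ^ (L + 1) := by rw [hL]; exact Nat.lt_pow_succ_log_self (by omega) X
  have hLbig : 4 * K * (2 * B + 4) ≤ L := by
    rw [hL]
    exact (Nat.le_log_iff_pow_le (by omega) hXpos).2 hX
  have hlogX : Real.log X ≤ (L + 1) * Real.log C := by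
    have : Real.log X ≤ Real.log ((C:ℝ) ^ (L + 1)) := by
      apply Real.log_le_log (by exact_mod_cast hX1)
      exact_mod_cast hXL.le
    rw [Real.log_pow] at this
    push_cast at this
    exact this
  -- the image
  have himg : L ≤ K * ((Finset.range L).image n).card := by
    have := Finset.card_le_mul_card_image (s := Finset.range L) (f := n) K (fun v _ => h2 v L)
    rw [Finset.card_range] at this
    rw [mul_comm] at this
    linarith
  have hsub : ((Finset.range L).image n).filter (fun v => (B:ℤ) < |v|) ⊆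
      (Finset.Icc (-(X:ℤ)) X).filter (fun n => (B:ℤ) < |n| ∧ g (fc b c ((n : ℚ) / q)) = s) := by
    intro v hv
    simp only [Finset.mem_filter, Finset.mem_image, Finset.mem_range, Finset.mem_Icc] at hv ⊢
    obtain ⟨⟨k, hk, hkv⟩, hv2⟩ := hv
    rw [← hkv] at hv2 ⊢
    refine ⟨?_, hv2, h3 k⟩
    have e1 : |n k| ≤ X := by
      refine le_trans (h1 k) ?_
      have e2 : C ^ (k + 1) ≤ X := le_trans (Nat.pow_le_pow_right (by omega) (by omega)) hLX
      exact_mod_cast e2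
    exact abs_le.1 e1
  have hfil : ((Finset.range L).image n).card ≤
      (((Finset.range L).image n).filter (fun v => (B:ℤ) < |v|)).card + (2 * B + 1) := by
    have e1 := Finset.card_filter_add_card_filter_not (s := (Finset.range L).image n)
      (fun v => (B:ℤ) < |v|)
    have e2 : (((Finset.range L).image n).filter (fun v => ¬ (B:ℤ) < |v|)).card ≤ 2 * B + 1 := by
      have : ((Finset.range L).image n).filter (fun v => ¬ (B:ℤ) < |v|) ⊆ Finset.Icc (-(B:ℤ)) B := by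
        intro v hv
        simp only [Finset.mem_filter, not_lt] at hv
        rw [Finset.mem_Icc]
        exact abs_le.1 hv.2
      refine le_trans (Finset.card_le_card this) ?_
      rw [Int.card_Icc]
      omega
    omega
  have hcard := Finset.card_le_card hsub
  have hmain : L ≤ K * (((Finset.Icc (-(X:ℤ)) X).filter
      (fun n => (B:ℤ) < |n| ∧ g (fc b c ((n : ℚ) / q)) = s)).card + (2 * B + 1)) := by
    refine le_trans himg ?_
    apply Nat.mul_le_mul_left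
    omega
  obtain ⟨N, hN⟩ : ∃ N, N = ((Finset.Icc (-(X:ℤ)) X).filter
      (fun n => (B:ℤ) < |n| ∧ g (fc b c ((n : ℚ) / q)) = s)).card := ⟨_, rfl⟩
  rw [← hN] at hmain ⊢
  have m1 : (L:ℝ) ≤ K * (N + (2 * B + 1)) := by exact_mod_cast hmain
  have m2 : (4:ℝ) * K * (2 * B + 4) ≤ L := by exact_mod_cast hLbig
  have hB0 : (0:ℝ) ≤ B := by positivity
  have m3 : (L:ℝ) + 1 ≤ 4 * K * N := by nlinarith
  rw [div_mul_eq_mul_div, one_mul, div_le_iff₀ (by positivity)]
  calc Real.log X ≤ (L + 1) * Real.log C := hlogX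
    _ ≤ (4 * K * N) * Real.log C := mul_le_mul_of_nonneg_right m3 hlogC.le
    _ = (N:ℝ) * (4 * K * Real.log C) := by ring

/-- four counts with the same denominator and the same constant -/
theorem four_counts {P Q : ℚ}
    (H : ∀ g : ℚ → ℤ, (g = gl ∨ g = gs) → ∀ s : ℤ, s = 1 ∨ s = -1 → Seq g P Q s) :
    ∃ q : ℕ, 0 < q ∧ ∃ δ : ℝ, 0 < δ ∧ ∀ B : ℕ, ∃ X₀ : ℕ, ∀ X : ℕ, X₀ ≤ X →
      ∀ g : ℚ → ℤ, (g = gl ∨ g = gs) → ∀ s : ℤ, s = 1 ∨ s = -1 →
      δ * Real.log X ≤ (((Finset.Icc (-(X:ℤ)) X).filter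
        (fun n => (B:ℤ) < |n| ∧ g (fc P Q ((n : ℚ) / q)) = s)).card : ℝ) := by
  obtain ⟨q1, hq1, H1⟩ := H gl (Or.inl rfl) 1 (Or.inl rfl)
  obtain ⟨q2, hq2, H2⟩ := H gl (Or.inl rfl) (-1) (Or.inr rfl)
  obtain ⟨q3, hq3, H3⟩ := H gs (Or.inr rfl) 1 (Or.inl rfl)
  obtain ⟨q4, hq4, H4⟩ := H gs (Or.inr rfl) (-1) (Or.inr rfl)
  have K1 : SeqAt (q1 * q2 * q3 * q4) gl P Q 1 := by
    have := SeqAt.mul (q := q1) (m := q2 * q3 * q4) H1 (by positivity)
    rwa [show q1 * (q2 * q3 * q4) = q1 * q2 * q3 * q4 by ring] at this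
  have K2 : SeqAt (q1 * q2 * q3 * q4) gl P Q (-1) := by
    have := SeqAt.mul (q := q2) (m := q1 * q3 * q4) H2 (by positivity)
    rwa [show q2 * (q1 * q3 * q4) = q1 * q2 * q3 * q4 by ring] at this
  have K3 : SeqAt (q1 * q2 * q3 * q4) gs P Q 1 := by
    have := SeqAt.mul (q := q3) (m := q1 * q2 * q4) H3 (by positivity)
    rwa [show q3 * (q1 * q2 * q4) = q1 * q2 * q3 * q4 by ring] at this
  have K4 : SeqAt (q1 * q2 * q3 * q4) gs P Q (-1) := by
    have := SeqAt.mul (q := q4) (m := q1 * q2 * q3) H4 (by positivity)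
    rwa [show q4 * (q1 * q2 * q3) = q1 * q2 * q3 * q4 by ring] at this
  obtain ⟨d1, hd1, c1⟩ := K1.count
  obtain ⟨d2, hd2, c2⟩ := K2.count
  obtain ⟨d3, hd3, c3⟩ := K3.count
  obtain ⟨d4, hd4, c4⟩ := K4.count
  refine ⟨q1 * q2 * q3 * q4, by positivity, min (min d1 d2) (min d3 d4), by positivity, fun B => ?_⟩
  obtain ⟨X1, e1⟩ := c1 B
  obtain ⟨X2, e2⟩ := c2 B
  obtain ⟨X3, e3⟩ := c3 B
  obtain ⟨X4, e4⟩ := c4 B
  refine ⟨X1 + X2 + X3 + X4 + 1, fun X hX g hg s hs => ?_⟩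
  have hlog : 0 ≤ Real.log X := Real.log_nonneg (by exact_mod_cast (by omega : 1 ≤ X))
  have k1 : min (min d1 d2) (min d3 d4) ≤ d1 := le_trans (min_le_left _ _) (min_le_left _ _)
  have k2 : min (min d1 d2) (min d3 d4) ≤ d2 := le_trans (min_le_left _ _) (min_le_right _ _)
  have k3 : min (min d1 d2) (min d3 d4) ≤ d3 := le_trans (min_le_right _ _) (min_le_left _ _)
  have k4 : min (min d1 d2) (min d3 d4) ≤ d4 := le_trans (min_le_right _ _) (min_le_right _ _)
  rcases hg with hg | hg <;> rcases hs with hs | hs <;> rw [hg, hs]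
  · exact le_trans (mul_le_mul_of_nonneg_right k1 hlog) (e1 X (by omega))
  · exact le_trans (mul_le_mul_of_nonneg_right k2 hlog) (e2 X (by omega))
  · exact le_trans (mul_le_mul_of_nonneg_right k3 hlog) (e3 X (by omega))
  · exact le_trans (mul_le_mul_of_nonneg_right k4 hlog) (e4 X (by omega))

end MP648Diag
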