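import Pool.Agent.Lib.MP_648c71_nt.Diag.Cnt

/-!
The transfer of the counts to the binary form.
-/

namespace MP648Diag

open Filter Pool.Agent.Lib.MP_648c71_nt Pool.Agent.Lib.MP_648c71_nt.AllCub

/-- The theorem with counts, for one form. -/
def GoodC (a b c d : ℤ) : Prop :=
  ∃ y₀ : ℤ, 0 < y₀ ∧ ∃ δ : ℝ, 0 < δ ∧ ∀ y : ℤ, 0 < y → y₀ ∣ y → ∃ X₀ : ℕ, ∀ X : ℕ, X₀ ≤ X →
    (∀ s : ℤ, s = 1 ∨ s = -1 → δ * Real.log X ≤
      (((Finset.Icc (1:ℤ) X).filter (fun n => lam (form a b c d n y) = s)).card : ℝ)) ∨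
    (∀ s : ℤ, s = 1 ∨ s = -1 → δ * Real.log X ≤
      (((Finset.Icc (1:ℤ) X).filter (fun n => lam (form a b c d (-n) y) = s)).card : ℝ))

theorem form_neg' (a b c d x y : ℤ) : lam (form (-a) (-b) (-c) (-d) x y) = lam (form a b c d x y) := by
  rw [← lam_neg]
  congr 1
  unfold form
  ring

theorem goodC_neg {a b c d : ℤ} (h : GoodC (-a) (-b) (-c) (-d)) : GoodC a b c d := by
  unfold GoodC at h ⊢
  simpa only [form_neg'] using h

theorem val_id {a b c d : ℤ} (ha : 0 < a) {y : ℤ} (hy : 0 < y) (n : ℤ) :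
    gl (fc ((9 * a * c - 3 * b ^ 2 : ℤ) : ℚ) ((27 * a ^ 2 * d - 9 * a * b * c + 2 * b ^ 3 : ℤ) : ℚ)
      (3 * a * n / y + b)) = - lam y * lam (form a b c d n y) := by
  have haQ : (0:ℚ) < a := by exact_mod_cast ha
  have hyQ : (0:ℚ) < y := by exact_mod_cast hy
  have e : fc ((9 * a * c - 3 * b ^ 2 : ℤ) : ℚ) ((27 * a ^ 2 * d - 9 * a * b * c + 2 * b ^ 3 : ℤ) : ℚ)
      (3 * a * n / y + b) = (3 * ((3 * a) ^ 2)) * ((form a b c d n y : ℤ) : ℚ) / (y * y ^ 2) := by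
    unfold form fc
    push_cast
    field_simp
    ring
  rw [e, gl_cm.div (by positivity), gl_mul, gl_mul, gl_mul, gl_cm.sq (by positivity),
    gl_cm.sq (by positivity), gl_three, gl_int, gl_int]
  ring

theorem count_pos {a b c d : ℤ} (ha : 0 < a)
    (H : ∀ g : ℚ → ℤ, (g = gl ∨ g = gs) → ∀ s : ℤ, s = 1 ∨ s = -1 →
      Seq g ((9 * a * c - 3 * b ^ 2 : ℤ) : ℚ) ((27 * a ^ 2 * d - 9 * a * b * c + 2 * b ^ 3 : ℤ) : ℚ) s) :
    GoodC a b c d := by
  obtain ⟨P, hP⟩ : ∃ P : ℤ, P = 9 * a * c - 3 * b ^ 2 := ⟨_, rfl⟩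
  obtain ⟨Q, hQ⟩ : ∃ Q : ℤ, Q = 27 * a ^ 2 * d - 9 * a * b * c + 2 * b ^ 3 := ⟨_, rfl⟩
  obtain ⟨q, hq, δ, hδ, hcnt⟩ := four_counts H
  rw [← hP, ← hQ] at hcnt
  have hqZ : (0:ℤ) < q := by exact_mod_cast hq
  have hqQ : (0:ℚ) < q := by exact_mod_cast hq
  refine ⟨3 * a * q, by positivity, δ / 4, by positivity, fun y hy hdvd => ?_⟩
  obtain ⟨r, hr⟩ := hdvd
  have hr0 : 0 < r := by
    by_contra hcon
    have : r ≤ 0 := by omega
    have h2 : 3 * a * q * r ≤ 0 := mul_nonpos_of_nonneg_of_nonpos (by positivity) this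
    omega
  -- the bound `B`
  obtain ⟨B, hB⟩ : ∃ B : ℕ, (B:ℤ) = q * (|P| + |Q| + 1 + |b|) :=
    ⟨(q * (|P| + |Q| + 1 + |b|)).toNat, Int.toNat_of_nonneg (by positivity)⟩
  obtain ⟨X₁, hX₁⟩ := hcnt B
  obtain ⟨β, hβ⟩ : ∃ β : ℕ, (β:ℤ) = |b| * q := ⟨(|b| * q).toNat, Int.toNat_of_nonneg (by positivity)⟩
  obtain ⟨ρ, hρ⟩ : ∃ ρ : ℕ, (ρ:ℤ) = r := ⟨r.toNat, Int.toNat_of_nonneg hr0.le⟩
  have hρ0 : 0 < ρ := by
    have : (0:ℤ) < ρ := by rw [hρ]; exact hr0
    exact_mod_cast this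
  refine ⟨(ρ * (2 + β) + X₁ + 1) ^ 2, fun X hX => ?_⟩
  obtain ⟨T, hT⟩ : ∃ T, T = Nat.sqrt X := ⟨_, rfl⟩
  have hT1 : ρ * (2 + β) + X₁ + 1 ≤ T := by
    rw [hT]
    exact Nat.le_sqrt'.2 hX
  have hT2 : T * T ≤ X := by rw [hT]; exact Nat.sqrt_le X
  have hT3 : X < (T + 1) * (T + 1) := by rw [hT]; exact Nat.lt_succ_sqrt X
  obtain ⟨X', hX'⟩ : ∃ X', X' = X / ρ - β := ⟨_, rfl⟩
  have hdiv : T + 1 + β ≤ X / ρ := by
    rw [Nat.le_div_iff_mul_le hρ0]
    refine le_trans ?_ hT2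
    have h1 : ρ * (2 + β) ≤ T := by omega
    have h2 : 1 ≤ T := by omega
    have h3 : T + 1 + β ≤ T * (2 + β) := by
      have : β ≤ T * β := Nat.le_mul_of_pos_left β (by omega)
      have e : T * (2 + β) = T + T + T * β := by ring
      omega
    calc (T + 1 + β) * ρ ≤ (T * (2 + β)) * ρ := Nat.mul_le_mul_right _ h3
      _ = T * (ρ * (2 + β)) := by ring
      _ ≤ T * T := Nat.mul_le_mul_left _ h1
  have hX'T : T + 1 ≤ X' := by omega
  have hX'1 : X₁ ≤ X' := by omega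
  have hX'r : (X' + β) * ρ ≤ X := by
    have h1 : X' + β = X / ρ := by omega
    rw [h1]
    exact Nat.div_mul_le_self X ρ
  have hlog : Real.log X ≤ 2 * Real.log X' := by
    have h1 : (X:ℝ) ≤ (X':ℝ) ^ 2 := by
      have : X ≤ X' ^ 2 := by
        have e : (T + 1) * (T + 1) ≤ X' * X' := Nat.mul_le_mul hX'T hX'T
        rw [pow_two]
        exact le_trans hT3.le e
      exact_mod_cast this
    have h2 : (0:ℝ) < X := by
      have : 0 < X := lt_of_lt_of_le (Nat.mul_pos (by omega) (by omega)) hT2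
      exact_mod_cast this
    have h3 := Real.log_le_log h2 h1
    rw [Real.log_pow] at h3
    push_cast at h3
    exact h3
  -- the four numbers
  let Pc : ℤ → ℕ := fun σ => ((Finset.Icc (-(X':ℤ)) X').filter
    (fun n => ((B:ℤ) < |n| ∧ gl (fc (P:ℚ) Q ((n : ℚ) / q)) = σ) ∧ 0 < n)).card
  let Mc : ℤ → ℕ := fun σ => ((Finset.Icc (-(X':ℤ)) X').filter
    (fun n => ((B:ℤ) < |n| ∧ gl (fc (P:ℚ) Q ((n : ℚ) / q)) = σ) ∧ ¬ 0 < n)).card
  have hsum : ∀ σ : ℤ, ((Finset.Icc (-(X':ℤ)) X').filter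
      (fun n => (B:ℤ) < |n| ∧ gl (fc (P:ℚ) Q ((n : ℚ) / q)) = σ)).card = Pc σ + Mc σ := by
    intro σ
    have := Finset.card_filter_add_card_filter_not (s := (Finset.Icc (-(X':ℤ)) X').filter
      (fun n => (B:ℤ) < |n| ∧ gl (fc (P:ℚ) Q ((n : ℚ) / q)) = σ)) (fun n => 0 < n)
    rw [Finset.filter_filter, Finset.filter_filter] at this
    exact this.symm
  -- the sign of the cubic
  have hbig : ∀ n : ℤ, (B:ℤ) < |n| → |(P:ℚ)| + |(Q:ℚ)| + 1 ≤ |(n:ℚ) / q| := by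
    intro n hn
    rw [abs_div, abs_of_pos hqQ, le_div_iff₀ hqQ]
    have h1 : (q:ℤ) * (|P| + |Q| + 1 + |b|) ≤ |n| := by rw [← hB]; exact hn.le
    have h2 : (q:ℤ) * (|P| + |Q| + 1) ≤ |n| := by
      have h0 : (0:ℤ) ≤ q * |b| := by positivity
      have h01 : (q:ℤ) * (|P| + |Q| + 1 + |b|) = q * (|P| + |Q| + 1) + q * |b| := by ring
      rw [h01] at h1
      linarith only [h0, h1]
    have h3 : ((q * (|P| + |Q| + 1) : ℤ) : ℚ) ≤ ((|n| : ℤ) : ℚ) := by exact_mod_cast h2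
    push_cast at h3
    linarith
  have hposn : ∀ n : ℤ, (B:ℤ) < |n| → 0 < n → gs (fc (P:ℚ) Q ((n : ℚ) / q)) = gl (fc (P:ℚ) Q ((n : ℚ) / q)) := by
    intro n hn hn0
    have h1 := hbig n hn
    have h2 : (0:ℚ) ≤ (n:ℚ) / q := by
      have : (0:ℚ) < n := by exact_mod_cast hn0
      positivity
    rw [abs_of_nonneg h2] at h1
    have h3 : 0 < fc (P:ℚ) Q ((n:ℚ) / q) := cubic_pos h1
    unfold gs
    rw [sign_pos h3]
    norm_num
  have hnegn : ∀ n : ℤ, (B:ℤ) < |n| → ¬ 0 < n →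
      gs (fc (P:ℚ) Q ((n : ℚ) / q)) = - gl (fc (P:ℚ) Q ((n : ℚ) / q)) := by
    intro n hn hn0
    have h1 := hbig n hn
    have h2 : (n:ℚ) / q ≤ 0 := by
      have : (n:ℚ) ≤ 0 := by exact_mod_cast (not_lt.1 hn0)
      exact div_nonpos_of_nonpos_of_nonneg this hqQ.le
    rw [abs_of_nonpos h2] at h1
    have h3 : fc (P:ℚ) Q ((n:ℚ) / q) < 0 := cubic_neg (by linarith)
    unfold gs
    rw [sign_neg h3]
    norm_num
  have hsum2 : ∀ σ : ℤ, ((Finset.Icc (-(X':ℤ)) X').filter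
      (fun n => (B:ℤ) < |n| ∧ gs (fc (P:ℚ) Q ((n : ℚ) / q)) = σ)).card = Pc σ + Mc (-σ) := by
    intro σ
    have := Finset.card_filter_add_card_filter_not (s := (Finset.Icc (-(X':ℤ)) X').filter
      (fun n => (B:ℤ) < |n| ∧ gs (fc (P:ℚ) Q ((n : ℚ) / q)) = σ)) (fun n => 0 < n)
    rw [Finset.filter_filter, Finset.filter_filter] at this
    rw [← this]
    congr 1
    · congr 1
      apply Finset.filter_congr
      intro n _
      constructor
      · rintro ⟨⟨h1, h2⟩, h3⟩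
        rw [hposn n h1 h3] at h2
        exact ⟨⟨h1, h2⟩, h3⟩
      · rintro ⟨⟨h1, h2⟩, h3⟩
        rw [← hposn n h1 h3] at h2
        exact ⟨⟨h1, h2⟩, h3⟩
    · congr 1
      apply Finset.filter_congr
      intro n _
      constructor
      · rintro ⟨⟨h1, h2⟩, h3⟩
        rw [hnegn n h1 h3] at h2
        exact ⟨⟨h1, by linarith⟩, h3⟩
      · rintro ⟨⟨h1, h2⟩, h3⟩
        refine ⟨⟨h1, ?_⟩, h3⟩
        rw [hnegn n h1 h3, h2, neg_neg]
  -- transfer
  have hylam : lam y = 1 ∨ lam y = -1 := lam_eq_one_or hy.ne'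
  have haQ : (0:ℚ) < a := by exact_mod_cast ha
  have htr : ∀ n : ℤ, lam (form a b c d ((n - b * q) * r) y) = - lam y * gl (fc (P:ℚ) Q ((n : ℚ) / q)) := by
    intro n
    have h1 := val_id (a := a) (b := b) (c := c) (d := d) ha hy ((n - b * q) * r)
    rw [← hP, ← hQ] at h1
    have hrQ : (0:ℚ) < r := by exact_mod_cast hr0
    have hyr : (y : ℚ) = 3 * a * q * r := by exact_mod_cast hr
    have e : (3 * a * (((n - b * q) * r : ℤ) : ℚ) / y + b : ℚ) = (n:ℚ) / q := by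
      rw [hyr]
      push_cast
      field_simp
      ring
    rw [e] at h1
    rw [h1]
    rcases hylam with h | h <;> rw [h] <;> ring
  have hbq : |b * (q:ℤ)| = β := by
    rw [hβ, abs_mul, abs_of_pos hqZ]
  have hBβ : (β:ℤ) ≤ B := by
    rw [hβ, hB]
    have h0 : 0 ≤ (q:ℤ) * (|P| + |Q| + 1) := by positivity
    have h01 : (q:ℤ) * (|P| + |Q| + 1 + |b|) = q * (|P| + |Q| + 1) + |b| * q := by ring
    rw [h01]
    linarith only [h0]
  have hX'rZ : ((X':ℤ) + β) * r ≤ X := by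
    rw [← hρ]
    exact_mod_cast hX'r
  have hPle : ∀ σ : ℤ, Pc σ ≤ ((Finset.Icc (1:ℤ) X).filter
      (fun n => lam (form a b c d n y) = - lam y * σ)).card := by
    intro σ
    apply Finset.card_le_card_of_injOn (fun n => (n - b * q) * r)
    · intro n hn
      simp only [Finset.coe_filter, Set.mem_ofPred_eq, Finset.mem_Icc] at hn ⊢
      obtain ⟨⟨h1, h2⟩, ⟨h3, h4⟩, h5⟩ := hn
      have h6 : b * (q:ℤ) ≤ β := by rw [← hbq]; exact le_abs_self _
      have h7 : -(β:ℤ) ≤ b * q := by rw [← hbq]; exact neg_abs_le _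
      rw [abs_of_pos h5] at h3
      refine ⟨⟨?_, ?_⟩, ?_⟩
      · have : 1 ≤ n - b * q := by omega
        exact le_trans hr0 (le_mul_of_one_le_left hr0.le this)
      · refine le_trans ?_ hX'rZ
        exact mul_le_mul_of_nonneg_right (by omega) hr0.le
      · rw [htr, h4]
    · intro n _ m _ hnm
      have := mul_right_cancel₀ hr0.ne' hnm
      omega
  have hMle : ∀ σ : ℤ, Mc σ ≤ ((Finset.Icc (1:ℤ) X).filter
      (fun n => lam (form a b c d (-n) y) = - lam y * σ)).card := by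
    intro σ
    apply Finset.card_le_card_of_injOn (fun n => -((n - b * q) * r))
    · intro n hn
      simp only [Finset.coe_filter, Set.mem_ofPred_eq, Finset.mem_Icc] at hn ⊢
      obtain ⟨⟨h1, h2⟩, ⟨h3, h4⟩, h5⟩ := hn
      have h6 : b * (q:ℤ) ≤ β := by rw [← hbq]; exact le_abs_self _
      have h7 : -(β:ℤ) ≤ b * q := by rw [← hbq]; exact neg_abs_le _
      rw [abs_of_nonpos (by omega)] at h3
      refine ⟨⟨?_, ?_⟩, ?_⟩
      · have : 1 ≤ -(n - b * q) := by omega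
        have e : -((n - b * q) * r) = (-(n - b * q)) * r := by ring
        rw [e]
        exact le_trans hr0 (le_mul_of_one_le_left hr0.le this)
      · have e : -((n - b * q) * r) = (-(n - b * q)) * r := by ring
        rw [e]
        refine le_trans ?_ hX'rZ
        exact mul_le_mul_of_nonneg_right (by omega) hr0.le
      · rw [neg_neg, htr, h4]
    · intro n _ m _ hnm
      have h8 : (n - b * q) * r = (m - b * q) * r := neg_injective hnm
      have := mul_right_cancel₀ hr0.ne' h8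
      omega
  -- conclusion
  by_contra hcon
  push Not at hcon
  obtain ⟨⟨s1, hs1, h1⟩, ⟨s2, hs2, h2⟩⟩ := hcon
  have hσ : ∀ s : ℤ, s = 1 ∨ s = -1 → (- lam y * s = 1 ∨ - lam y * s = -1) ∧ - lam y * (- lam y * s) = s := by
    intro s hs
    rcases hylam with h | h <;> rcases hs with h' | h' <;> rw [h, h'] <;> norm_num
  obtain ⟨σ1, hσ1⟩ : ∃ σ1, σ1 = - lam y * s1 := ⟨_, rfl⟩
  obtain ⟨σ2, hσ2⟩ : ∃ σ2, σ2 = - lam y * s2 := ⟨_, rfl⟩
  have k1 := hσ s1 hs1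
  have k2 := hσ s2 hs2
  rw [← hσ1] at k1
  rw [← hσ2] at k2
  have p1 : (Pc σ1 : ℝ) < δ / 4 * Real.log X := by
    refine lt_of_le_of_lt ?_ h1
    have := hPle σ1
    rw [k1.2] at this
    exact_mod_cast this
  have p2 : (Mc σ2 : ℝ) < δ / 4 * Real.log X := by
    refine lt_of_le_of_lt ?_ h2
    have := hMle σ2
    rw [k2.2] at this
    exact_mod_cast this
  have p3 : δ * Real.log X' ≤ (Pc σ1 : ℝ) + Mc σ2 := by
    rcases eq_or_ne σ1 σ2 with h | h
    · have h3 := hX₁ X' hX'1 gl (Or.inl rfl) σ1 k1.1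
      rw [hsum σ1] at h3
      rw [← h]
      exact_mod_cast h3
    · have h4 : σ2 = -σ1 := by
        rcases k1.1 with h5 | h5 <;> rcases k2.1 with h6 | h6 <;> rw [h5, h6] at h ⊢ <;> simp at h ⊢
      have h3 := hX₁ X' hX'1 gs (Or.inr rfl) σ1 k1.1
      rw [hsum2 σ1] at h3
      rw [h4]
      exact_mod_cast h3
  have p4 : δ / 2 * Real.log X ≤ δ * Real.log X' := by nlinarith
  linarith

end MP648Diag
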