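import Mathlib

/-!
Sign patterns of completely multiplicative functions at `w^3 + k`, `w` rational with bounded denominator.
-/

namespace MP648Diag

open Filter Polynomial

/-- A completely multiplicative function on `ℚ` with the values `1`, `-1` off `0`. -/
structure CM (g : ℚ → ℤ) : Prop where
  mul : ∀ x y, g (x * y) = g x * g y
  val : ∀ x, x ≠ 0 → g x = 1 ∨ g x = -1

theorem CM.self {g : ℚ → ℤ} (hg : CM g) {x : ℚ} (hx : x ≠ 0) : g x * g x = 1 := by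
  rcases hg.val x hx with h | h <;> rw [h] <;> norm_num

theorem CM.one {g : ℚ → ℤ} (hg : CM g) : g 1 = 1 := by
  have h := hg.mul 1 1
  rw [one_mul] at h
  have h2 := hg.self (x := 1) one_ne_zero
  rw [h, h2]

theorem CM.sq {g : ℚ → ℤ} (hg : CM g) {x : ℚ} (hx : x ≠ 0) : g (x ^ 2) = 1 := by
  rw [pow_two, hg.mul, hg.self hx]

theorem CM.div {g : ℚ → ℤ} (hg : CM g) {x y : ℚ} (hy : y ≠ 0) : g (x / y) = g x * g y := by
  have h : x = x / y * y := by field_simp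
  have h2 := hg.mul (x / y) y
  rw [← h] at h2
  rw [h2, mul_assoc, hg.self hy, mul_one]

/-- `g (w^3 + k) = κ` for all large `w` in `(1/q) ℤ`, for every `q`. -/
def Hyp (g : ℚ → ℤ) (k : ℚ) (κ : ℤ) : Prop :=
  ∀ q : ℤ, q ≠ 0 → ∃ R : ℚ, ∀ w : ℚ, (∃ m : ℤ, (q : ℚ) * w = m) → R ≤ |w| → g (w ^ 3 + k) = κ

theorem Hyp.ev {g : ℚ → ℤ} {k : ℚ} {κ : ℤ} (h : Hyp g k κ) (P : ℚ[X]) (hP : 0 < P.degree) :
    ∀ᶠ n : ℕ in atTop, g ((P.eval (n : ℚ)) ^ 3 + k) = κ := by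
  obtain ⟨b, hbm, hb⟩ := IsLocalization.integerNormalization_spec (nonZeroDivisors ℤ) P
  obtain ⟨R, hR⟩ := h b (nonZeroDivisors.ne_zero hbm)
  have ht : Tendsto (fun n : ℕ => |P.eval (n : ℚ)|) atTop atTop := by
    refine Polynomial.tendsto_abv_atTop abs P hP ?_
    have h1 : (abs ∘ fun n : ℕ => (n : ℚ)) = fun n : ℕ => (n : ℚ) := by
      funext n
      simp
    rw [h1]
    exact tendsto_natCast_atTop_atTop
  filter_upwards [ht.eventually_ge_atTop R] with n hn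
  refine hR _ ⟨(IsLocalization.integerNormalization (nonZeroDivisors ℤ) P).eval (n : ℤ), ?_⟩ hn
  have h2 := congrArg (Polynomial.eval (n : ℚ)) hb
  have h3 : Polynomial.eval (n : ℚ) ((IsLocalization.integerNormalization (nonZeroDivisors ℤ) P).map
      (algebraMap ℤ ℚ)) = (((IsLocalization.integerNormalization (nonZeroDivisors ℤ) P).eval (n : ℤ) : ℤ) : ℚ) := by
    have := Polynomial.eval_map_apply (algebraMap ℤ ℚ) (n : ℤ)
      (p := IsLocalization.integerNormalization (nonZeroDivisors ℤ) P)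
    simp at this ⊢
  rw [← h3, h2]
  simp

theorem prod_identity {M y z k x1 x2 x3 : ℚ} (h1 : x1 + x2 + x3 = -M)
    (h2 : x1 * x2 + x1 * x3 + x2 * x3 = -M * (y + z)) (h3 : x1 * x2 * x3 = -k - M * y * z) :
    (x1 ^ 3 + k) * (x2 ^ 3 + k) * (x3 ^ 3 + k) = -M ^ 3 * ((y ^ 3 + k) * (z ^ 3 + k)) := by
  have e : (x1 ^ 3 + k) * (x2 ^ 3 + k) * (x3 ^ 3 + k) =
      (x1 * x2 * x3) ^ 3 + k * ((x1 * x2 + x1 * x3 + x2 * x3) ^ 3
        - 3 * (x1 + x2 + x3) * (x1 * x2 + x1 * x3 + x2 * x3) * (x1 * x2 * x3) + 3 * (x1 * x2 * x3) ^ 2)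
      + k ^ 2 * ((x1 + x2 + x3) ^ 3 - 3 * (x1 + x2 + x3) * (x1 * x2 + x1 * x3 + x2 * x3)
        + 3 * (x1 * x2 * x3)) + k ^ 3 := by
    ring
  rw [e, h1, h2, h3]
  ring

theorem deg2 {a b : ℚ} (ha : a ≠ 0) : 0 < (C a * X ^ 2 + C b : ℚ[X]).degree := by
  have h : (C a * X ^ 2 + C b : ℚ[X]).degree = 2 := by
    compute_degree!
  rw [h]
  norm_num

theorem deg3 {a b c d : ℚ} (ha : a ≠ 0) : 0 < (C a * X ^ 3 + C b * X ^ 2 + C c * X + C d : ℚ[X]).degree := by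
  have h : (C a * X ^ 3 + C b * X ^ 2 + C c * X + C d : ℚ[X]).degree = 3 := by
    compute_degree!
  rw [h]
  norm_num

theorem five_term_aux {u k t F G : ℚ} (hF : F = u ^ 3 + k) (hG : G = u ^ 3 + 2 * k)
    (hk : k ≠ 0) (hu : u ≠ 0) (h1 : F ≠ 0) (h2 : G ≠ 0)
    {y x1 x2 x3 z : ℚ}
    (hy : y = (-1 / (4 * F)) * t ^ 2 + (9 * u ^ 4 / (4 * F) - 2 * u))
    (hx1 : x1 = (-1 / (8 * F * u ^ 2)) * t ^ 3 + (1 / (8 * F)) * t ^ 2
      + (-(3 * u ^ 3 + 12 * k) / (8 * F * u)) * t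
      + (-9 * u ^ 4 / (8 * F) + 5 / 2 * u - F / u ^ 2))
    (hx2 : x2 = (1 / (8 * F * u ^ 2)) * t ^ 3 + (1 / (8 * F)) * t ^ 2
      + ((3 * u ^ 3 + 12 * k) / (8 * F * u)) * t
      + (-9 * u ^ 4 / (8 * F) + 5 / 2 * u - F / u ^ 2))
    (hx3 : x3 = (-1 / (4 * F)) * t ^ 2 + (5 * u ^ 4 / (4 * F) - 2 * u))
    (hz : z = x3 + (-F ^ 2 / (k * G * u ^ 2)) * (x3 ^ 3 + k)) :
    (x1 ^ 3 + k) * (x2 ^ 3 + k) * (x3 ^ 3 + k) =
      -(k * G / (u ^ 2 * F)) ^ 3 * ((y ^ 3 + k) * (z ^ 3 + k)) := by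
  apply prod_identity
  · rw [hx1, hx2, hx3]
    field_simp
    rw [hG, hF]
    ring
  · rw [hz, hx1, hx2, hx3, hy]
    field_simp
    rw [hG, hF]
    ring
  · rw [hz, hx1, hx2, hx3, hy]
    field_simp
    rw [hG, hF]
    ring

end MP648Diag
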