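import Pool.Agent.Lib.MP_648c71_nt.Diag.Main
import Pool.Agent.Lib.MP_648c71_nt.Lam

/-!
Liouville's function on `ℚ`, and the binary cubic forms `a x^3 + b x^2 y + c x y^2 + d y^3`, `b^2 = 3 a c`.
-/

namespace MP648Diag

open Filter Pool.Agent.Lib.MP_648c71_nt

/-- Liouville's function on `ℚ` -/
def gl (x : ℚ) : ℤ := lam x.num * lam x.den

theorem gl_mul (x y : ℚ) : gl (x * y) = gl x * gl y := by
  have h1 : (x * y).num * (x.den * y.den : ℕ) = x.num * y.num * (x * y).den := by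
    have := Rat.mul_num_den' x y
    push_cast
    linarith
  have h2 := congrArg lam h1
  push_cast at h2
  rw [lam_mul, lam_mul, lam_mul, lam_mul] at h2
  have d1 : lam (x.den : ℤ) * lam (x.den : ℤ) = 1 := lam_mul_self (by exact_mod_cast x.den_ne_zero)
  have d2 : lam (y.den : ℤ) * lam (y.den : ℤ) = 1 := lam_mul_self (by exact_mod_cast y.den_ne_zero)
  have d3 : lam ((x * y).den : ℤ) * lam ((x * y).den : ℤ) = 1 :=
    lam_mul_self (by exact_mod_cast (x * y).den_ne_zero)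
  unfold gl
  generalize lam (x * y).num = A at *
  generalize lam ((x * y).den : ℤ) = D at *
  generalize lam x.num = B at *
  generalize lam y.num = B' at *
  generalize lam (x.den : ℤ) = c1 at *
  generalize lam (y.den : ℤ) = c2 at *
  calc A * D = (A * (c1 * c2)) * D * c1 * c2 := by
        have : (A * (c1 * c2)) * D * c1 * c2 = A * D * (c1 * c1) * (c2 * c2) := by ring
        rw [this, d1, d2]; ring
    _ = (B * B' * D) * D * c1 * c2 := by rw [h2]
    _ = B * B' * c1 * c2 * (D * D) := by ring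
    _ = B * c1 * (B' * c2) := by rw [d3]; ring

theorem gl_int (m : ℤ) : gl (m : ℚ) = lam m := by
  unfold gl
  rw [Rat.num_intCast, Rat.den_intCast]
  simp [lam_one]

theorem gl_cm : CM gl where
  mul := gl_mul
  val := by
    intro x hx
    have h1 : x.num ≠ 0 := Rat.num_ne_zero.2 hx
    have h2 : (x.den : ℤ) ≠ 0 := by exact_mod_cast x.den_ne_zero
    unfold gl
    rcases lam_eq_one_or h1 with h | h <;> rcases lam_eq_one_or h2 with h' | h' <;> rw [h, h'] <;> norm_num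

/-- Liouville's function times the sign -/
def gs (x : ℚ) : ℤ := (SignType.sign x : ℤ) * gl x

theorem gs_cm : CM gs where
  mul := by
    intro x y
    unfold gs
    rw [sign_mul, gl_mul]
    push_cast
    ring
  val := by
    intro x hx
    unfold gs
    rcases lt_or_gt_of_ne hx with h | h
    · rw [sign_neg h]
      rcases gl_cm.val x hx with h' | h' <;> rw [h'] <;> norm_num
    · rw [sign_pos h]
      rcases gl_cm.val x hx with h' | h' <;> rw [h'] <;> norm_num

theorem gl_seven : gl 7 = -1 := by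
  have h := gl_int 7
  have h2 := lam_prime (p := 7) (by norm_num)
  push_cast at h h2
  rw [h, h2]

theorem gs_seven : gs 7 = -1 := by
  unfold gs
  rw [gl_seven, sign_pos (by norm_num)]
  norm_num

theorem gl_three : gl 3 = -1 := by
  have h := gl_int 3
  have h2 := lam_prime (p := 3) (by norm_num)
  push_cast at h h2
  rw [h, h2]

/-- the sign of `w^3 + k` is eventually constant on both sides, with bounded denominators: impossible -/
theorem no_pattern {k : ℚ} (hk : k ≠ 0) (h : ∀ q : ℤ, q ≠ 0 → ∃ σ τ : ℤ, (σ = 1 ∨ σ = -1) ∧ (τ = 1 ∨ τ = -1) ∧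
    ∃ R : ℚ, ∀ w : ℚ, (∃ m : ℤ, (q : ℚ) * w = m) →
      (R ≤ w → gl (w ^ 3 + k) = σ) ∧ (w ≤ -R → gl (w ^ 3 + k) = τ)) : False := by
  obtain ⟨σ, τ, hσ, hτ, R1, h1⟩ := h 1 one_ne_zero
  have hk0 : 0 ≤ |k| := abs_nonneg k
  -- the constants do not depend on `q`
  have key : ∀ q : ℤ, q ≠ 0 → ∃ R : ℚ, ∀ w : ℚ, (∃ m : ℤ, (q : ℚ) * w = m) →
      (R ≤ w → gl (w ^ 3 + k) = σ) ∧ (w ≤ -R → gl (w ^ 3 + k) = τ) := by
    intro q hq
    obtain ⟨σ', τ', hσ', hτ', R, hR⟩ := h q hq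
    obtain ⟨n, hn⟩ := exists_nat_gt (max R R1)
    have n1 : R < n := lt_of_le_of_lt (le_max_left _ _) hn
    have n2 : R1 < n := lt_of_le_of_lt (le_max_right _ _) hn
    have a1 := (h1 (n : ℚ) ⟨n, by push_cast; ring⟩).1 n2.le
    have a2 := (hR (n : ℚ) ⟨q * n, by push_cast; ring⟩).1 n1.le
    have b1 := (h1 (-(n : ℚ)) ⟨-n, by push_cast; ring⟩).2 (by linarith)
    have b2 := (hR (-(n : ℚ)) ⟨-(q * n), by push_cast; ring⟩).2 (by linarith)
    have e1 : σ' = σ := by rw [← a1, ← a2]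
    have e2 : τ' = τ := by rw [← b1, ← b2]
    rw [e1, e2] at hR
    exact ⟨R, hR⟩
  have hcube : ∀ w : ℚ, |k| + 1 ≤ w → 0 < w ^ 3 + k := by
    intro w hw
    have h2 : 1 ≤ w := by linarith
    have h3 : w ≤ w ^ 3 := by
      have : (1:ℚ) ≤ w ^ 2 := one_le_pow₀ h2
      nlinarith
    have := neg_abs_le k
    linarith
  have hcube2 : ∀ w : ℚ, w ≤ -(|k| + 1) → w ^ 3 + k < 0 := by
    intro w hw
    have h2 : 1 ≤ -w := by linarith
    have h3 : -w ≤ (-w) ^ 3 := by
      have : (1:ℚ) ≤ (-w) ^ 2 := one_le_pow₀ h2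
      nlinarith
    have := le_abs_self k
    have h4 : (-w) ^ 3 = -w ^ 3 := by ring
    linarith
  rcases eq_or_ne σ τ with hst | hst
  · refine no_hyp gl_cm gl_seven hk (κ := σ) ?_
    intro q hq
    obtain ⟨R, hR⟩ := key q hq
    refine ⟨R, fun w hw hw2 => ?_⟩
    rcases le_abs.1 hw2 with h2 | h2
    · exact (hR w hw).1 h2
    · rw [hst]
      exact (hR w hw).2 (by linarith)
  · have hτσ : τ = -σ := by
      rcases hσ with h2 | h2 <;> rcases hτ with h3 | h3 <;> rw [h2, h3] at hst ⊢ <;> simp at hst ⊢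
    refine no_hyp gs_cm gs_seven hk (κ := σ) ?_
    intro q hq
    obtain ⟨R, hR⟩ := key q hq
    refine ⟨max R (|k| + 1), fun w hw hw2 => ?_⟩
    have g1 : R ≤ |w| := le_trans (le_max_left _ _) hw2
    have g2 : |k| + 1 ≤ |w| := le_trans (le_max_right _ _) hw2
    unfold gs
    rcases le_or_gt 0 w with hw0 | hw0
    · rw [abs_of_nonneg hw0] at g1 g2
      rw [(hR w hw).1 g1, sign_pos (hcube w g2)]
      norm_num
    · rw [abs_of_neg hw0] at g1 g2
      rw [(hR w hw).2 (by linarith), sign_neg (hcube2 w (by linarith)), hτσ]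
      norm_num

/-- the binary cubic form -/
def form (a b c d x y : ℤ) : ℤ := a * x ^ 3 + b * x ^ 2 * y + c * x * y ^ 2 + d * y ^ 3

/-- the main theorem for `a > 0` -/
theorem main_pos {a b c d : ℤ} (ha : 0 < a) (hb : b ^ 2 = 3 * a * c) (hd : 27 * a ^ 2 * d ≠ b ^ 3) :
    ∃ y₀ : ℤ, 0 < y₀ ∧ ∀ y : ℤ, 0 < y → y₀ ∣ y →
      (∀ s : ℤ, s = 1 ∨ s = -1 → ∀ N : ℤ, ∃ n : ℤ, N < n ∧ lam (form a b c d n y) = s) ∨
      (∀ s : ℤ, s = 1 ∨ s = -1 → ∀ N : ℤ, ∃ n : ℤ, n < N ∧ lam (form a b c d n y) = s) := by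
  by_contra hcon
  push Not at hcon
  set k : ℚ := 27 * a ^ 2 * d - b ^ 3 with hk
  have hk0 : k ≠ 0 := by
    rw [hk]
    intro h
    apply hd
    have : ((27 * a ^ 2 * d : ℤ) : ℚ) = ((b ^ 3 : ℤ) : ℚ) := by
      push_cast
      linarith
    exact_mod_cast this
  have hkabs : 0 ≤ |k| := abs_nonneg k
  refine no_pattern hk0 fun q hq => ?_
  have haQ : (0:ℚ) < a := by exact_mod_cast ha
  have hqabs : 0 < |q| := abs_pos.2 hq
  obtain ⟨y, hy, hdvd, ⟨s, hs, N, hN⟩, ⟨s', hs', N', hN'⟩⟩ := hcon (3 * a * |q|) (by positivity)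
  have hyQ : (0:ℚ) < y := by exact_mod_cast hy
  have hylam : lam y = 1 ∨ lam y = -1 := lam_eq_one_or hy.ne'
  -- the identity
  have hval : ∀ n : ℤ, gl ((3 * a * n / y + b) ^ 3 + k) = - lam y * lam (form a b c d n y) := by
    intro n
    have hbQ : (b : ℚ) ^ 2 = 3 * a * c := by exact_mod_cast hb
    have e : ((3 * a * n / y + b : ℚ)) ^ 3 + k = (3 * ((3 * a) ^ 2)) * ((form a b c d n y : ℤ) : ℚ) / (y * y ^ 2) := by
      rw [hk]
      unfold form
      push_cast
      field_simp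
      linear_combination (9 * a * n * y ^ 2) * hbQ
    rw [e, gl_cm.div (by positivity), gl_mul, gl_mul, gl_mul, gl_cm.sq (by positivity),
      gl_cm.sq (by positivity), gl_three, gl_int, gl_int]
    ring
  refine ⟨lam y * s, lam y * s', ?_, ?_, ?_⟩
  · rcases hylam with h1 | h1 <;> rcases hs with h2 | h2 <;> rw [h1, h2] <;> norm_num
  · rcases hylam with h1 | h1 <;> rcases hs' with h2 | h2 <;> rw [h1, h2] <;> norm_num
  refine ⟨3 * a * (|(N:ℚ)| + |(N':ℚ)| + 1) / y + |(b:ℚ)| + |k| + 1, fun w ⟨m, hm⟩ => ?_⟩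
  obtain ⟨r, hr⟩ := hdvd
  -- `w = 3 a n / y + b`
  obtain ⟨n, hn⟩ : ∃ n : ℤ, w = 3 * a * n / y + b := by
    refine ⟨(m * |q| / q - b * |q|) * r, ?_⟩
    have hq2 : |q| = q ∨ |q| = -q := abs_choice q
    have hqQ : (q : ℚ) ≠ 0 := by exact_mod_cast hq
    have hw : w = m / q := by
      rw [← hm]
      field_simp
    have hyr : (y : ℚ) = 3 * a * |q| * r := by exact_mod_cast hr
    have hr0 : (r : ℚ) ≠ 0 := by
      intro h0
      rw [h0, mul_zero] at hyr
      linarith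
    rcases hq2 with h2 | h2
    · rw [h2] at hyr ⊢
      rw [Int.mul_ediv_cancel _ hq, hw, hyr]
      push_cast
      field_simp
      ring
    · rw [h2] at hyr ⊢
      have e3 : m * -q / q = -m := by
        rw [show m * -q = (-m) * q by ring, Int.mul_ediv_cancel _ hq]
      rw [e3, hw, hyr]
      push_cast
      field_simp
      ring
  have hB : 0 ≤ 3 * a * (|(N:ℚ)| + |(N':ℚ)| + 1) / y := by positivity
  have hb0 : 0 ≤ |(b : ℚ)| := abs_nonneg _
  have hN1 : (N : ℚ) ≤ |(N:ℚ)| := le_abs_self _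
  have hN2 : -|(N' : ℚ)| ≤ N' := neg_abs_le _
  have hN3 : 0 ≤ |(N:ℚ)| := abs_nonneg _
  have hN4 : 0 ≤ |(N':ℚ)| := abs_nonneg _
  have hb1 : (b : ℚ) ≤ |(b : ℚ)| := le_abs_self _
  have hb2 : -|(b : ℚ)| ≤ b := neg_abs_le _
  have hne : (3 * a * (|(N:ℚ)| + |(N':ℚ)| + 1) / y + |(b:ℚ)| + |k| + 1 ≤ |w|) → lam (form a b c d n y) ≠ 0 := by
    intro hw h0
    have h1 := hval n
    rw [← hn, h0, mul_zero] at h1
    have h2 : w ^ 3 + k ≠ 0 := ne_of_large hkabs (by linarith) le_rfl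
    rcases gl_cm.val _ h2 with h3 | h3 <;> rw [h3] at h1 <;> norm_num at h1
  have hpm : ∀ x : ℤ, lam x ≠ 0 → lam x = 1 ∨ lam x = -1 := by
    intro x hx
    apply lam_eq_one_or
    intro h
    rw [h, lam_zero] at hx
    exact hx rfl
  constructor
  · intro hw
    have hw0 : 0 ≤ w := by linarith
    have h1 : N < n := by
      have h2 : 3 * a * (|(N:ℚ)| + |(N':ℚ)| + 1) / y ≤ 3 * a * n / y := by
        rw [hn] at hw
        linarith
      rw [div_le_div_iff_of_pos_right hyQ] at h2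
      have h3 : |(N:ℚ)| + |(N':ℚ)| + 1 ≤ n := le_of_mul_le_mul_left h2 (by positivity)
      have h4 : (N : ℚ) < n := by linarith
      exact_mod_cast h4
    rw [hn, hval n]
    have h2 := hN n h1
    have h3 := hpm _ (hne (by rw [abs_of_nonneg hw0]; exact hw))
    generalize lam (form a b c d n y) = L at *
    rcases hs with h4 | h4 <;> rcases h3 with h5 | h5 <;> rw [h4, h5] at h2 ⊢ <;> simp at h2 ⊢
  · intro hw
    have hw0 : w < 0 := by linarith
    have h1 : n < N' := by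
      have h2 : 3 * a * n / y ≤ -(3 * a * (|(N:ℚ)| + |(N':ℚ)| + 1)) / y := by
        rw [hn] at hw
        rw [neg_div]
        linarith
      rw [div_le_div_iff_of_pos_right hyQ, ← mul_neg] at h2
      have h3 : (n:ℚ) ≤ -(|(N:ℚ)| + |(N':ℚ)| + 1) := le_of_mul_le_mul_left h2 (by positivity)
      have h4 : (n : ℚ) < N' := by linarith
      exact_mod_cast h4
    rw [hn, hval n]
    have h2 := hN' n h1
    have h3 := hpm _ (hne (by rw [abs_of_neg hw0]; linarith))
    generalize lam (form a b c d n y) = L at *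
    rcases hs' with h4 | h4 <;> rcases h3 with h5 | h5 <;> rw [h4, h5] at h2 ⊢ <;> simp at h2 ⊢

theorem main {a b c d : ℤ} (ha : a ≠ 0) (hb : b ^ 2 = 3 * a * c) (hd : 27 * a ^ 2 * d ≠ b ^ 3) :
    ∃ y₀ : ℤ, 0 < y₀ ∧ ∀ y : ℤ, 0 < y → y₀ ∣ y →
      (∀ s : ℤ, s = 1 ∨ s = -1 → ∀ N : ℤ, ∃ n : ℤ, N < n ∧ lam (form a b c d n y) = s) ∨
      (∀ s : ℤ, s = 1 ∨ s = -1 → ∀ N : ℤ, ∃ n : ℤ, n < N ∧ lam (form a b c d n y) = s) := by
  rcases lt_or_gt_of_ne ha with h | h
  · have h1 := main_pos (a := -a) (b := -b) (c := -c) (d := -d) (by linarith) (by linarith) (by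
      intro h2
      apply hd
      have : (-b) ^ 3 = -b ^ 3 := by ring
      rw [this] at h2
      nlinarith)
    have e : ∀ x y : ℤ, lam (form (-a) (-b) (-c) (-d) x y) = lam (form a b c d x y) := by
      intro x y
      rw [← lam_neg]
      congr 1
      unfold form
      ring
    simpa only [e] using h1
  · exact main_pos h hb hd

end MP648Diag
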