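import Pool.Agent.Lib.MP_648c71_nt.Diag.Core

/-!
The relation `g (u^3 + k) g (u^3 + 2 k) = κ g (-k)`, the transfer from `k` to `2 k`, and the contradiction.
-/

namespace MP648Diag

open Filter Polynomial

theorem Hyp.val {g : ℚ → ℤ} (hg : CM g) {k : ℚ} {κ : ℤ} (h : Hyp g k κ) : κ = 1 ∨ κ = -1 := by
  have h1 := h.ev X (by rw [degree_X]; norm_num)
  obtain ⟨N, hN⟩ := eventually_atTop.1 h1
  obtain ⟨n, hn1, hn2⟩ : ∃ n : ℕ, N ≤ n ∧ |k| < n := by
    obtain ⟨m, hm⟩ := exists_nat_gt |k|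
    exact ⟨max N m, le_max_left _ _, lt_of_lt_of_le hm (by exact_mod_cast le_max_right N m)⟩
  have h2 := hN n hn1
  rw [eval_X] at h2
  have h3 : (0 : ℚ) ≤ |k| := abs_nonneg k
  have h4 : (1 : ℚ) ≤ n := by
    have : 0 < n := by
      rcases Nat.eq_zero_or_pos n with h0 | h0
      · rw [h0] at hn2
        push_cast at hn2
        linarith
      · exact h0
    exact_mod_cast this
  have h5 : (n : ℚ) ≤ (n : ℚ) ^ 3 := by nlinarith [mul_nonneg (by linarith : (0:ℚ) ≤ n) (by linarith : (0:ℚ) ≤ n)]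
  have h6 : (n : ℚ) ^ 3 + k ≠ 0 := by
    have := neg_abs_le k
    intro h
    linarith
  rw [← h2]
  exact hg.val _ h6

/-- the five term relation -/
theorem Hyp.rel {g : ℚ → ℤ} (hg : CM g) {k : ℚ} (hk : k ≠ 0) {κ : ℤ} (h : Hyp g k κ) {u : ℚ} (hu : u ≠ 0)
    (h1 : u ^ 3 + k ≠ 0) (h2 : u ^ 3 + 2 * k ≠ 0) : g (u ^ 3 + k) * g (u ^ 3 + 2 * k) = κ * g (-k) := by
  obtain ⟨F, hF⟩ : ∃ F, F = u ^ 3 + k := ⟨_, rfl⟩
  obtain ⟨G, hG⟩ : ∃ G, G = u ^ 3 + 2 * k := ⟨_, rfl⟩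
  rw [← hF, ← hG]
  rw [← hF] at h1
  rw [← hG] at h2
  set Py : ℚ[X] := C (-1 / (4 * F)) * X ^ 2 + C (9 * u ^ 4 / (4 * F) - 2 * u) with hPy
  set P1 : ℚ[X] := C (-1 / (8 * F * u ^ 2)) * X ^ 3 + C (1 / (8 * F)) * X ^ 2
      + C (-(3 * u ^ 3 + 12 * k) / (8 * F * u)) * X
      + C (-9 * u ^ 4 / (8 * F) + 5 / 2 * u - F / u ^ 2) with hP1
  set P2 : ℚ[X] := C (1 / (8 * F * u ^ 2)) * X ^ 3 + C (1 / (8 * F)) * X ^ 2
      + C ((3 * u ^ 3 + 12 * k) / (8 * F * u)) * X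
      + C (-9 * u ^ 4 / (8 * F) + 5 / 2 * u - F / u ^ 2) with hP2
  set P3 : ℚ[X] := C (-1 / (4 * F)) * X ^ 2 + C (5 * u ^ 4 / (4 * F) - 2 * u) with hP3
  set Q : ℚ[X] := C (-F ^ 2 / (k * G * u ^ 2)) * X ^ 3 + C 0 * X ^ 2 + C 1 * X
      + C (-F ^ 2 / (k * G * u ^ 2) * k) with hQ
  have dy : 0 < Py.degree := deg2 (by
    have : (4 * F) ≠ 0 := by positivity
    exact div_ne_zero (by norm_num) this)
  have d1 : 0 < P1.degree := deg3 (div_ne_zero (by norm_num) (by positivity))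
  have d2 : 0 < P2.degree := deg3 (div_ne_zero (by norm_num) (by positivity))
  have d3 : 0 < P3.degree := deg2 (div_ne_zero (by norm_num) (by positivity))
  have dQ : 0 < Q.degree := deg3 (div_ne_zero (neg_ne_zero.2 (by positivity)) (by positivity))
  have dz : 0 < (Q.comp P3).degree := by
    rw [← natDegree_pos_iff_degree_pos, natDegree_comp]
    exact Nat.mul_pos (natDegree_pos_iff_degree_pos.2 dQ) (natDegree_pos_iff_degree_pos.2 d3)
  obtain ⟨n, ny, n1, n2, n3, nz⟩ := ((h.ev Py dy).and ((h.ev P1 d1).and ((h.ev P2 d2).and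
    ((h.ev P3 d3).and (h.ev _ dz))))).exists
  have key := five_term_aux (t := (n : ℚ)) hF hG hk hu h1 h2 (y := Py.eval (n : ℚ)) (x1 := P1.eval (n : ℚ))
    (x2 := P2.eval (n : ℚ)) (x3 := P3.eval (n : ℚ)) (z := (Q.comp P3).eval (n : ℚ))
    (by simp only [hPy, eval_add, eval_mul, eval_C, eval_pow, eval_X])
    (by simp only [hP1, eval_add, eval_mul, eval_C, eval_pow, eval_X])
    (by simp only [hP2, eval_add, eval_mul, eval_C, eval_pow, eval_X])
    (by simp only [hP3, eval_add, eval_mul, eval_C, eval_pow, eval_X])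
    (by
      rw [eval_comp]
      generalize P3.eval (n : ℚ) = w
      simp only [hQ, eval_add, eval_mul, eval_C, eval_pow, eval_X]
      ring)
  have hκ := h.val hg
  have key2 := congrArg g key
  have e1 : -(k * G / (u ^ 2 * F)) ^ 3 = (k * G / (u ^ 2 * F)) ^ 2 * ((-k) * G / (u ^ 2 * F)) := by
    ring
  have hm0 : k * G / (u ^ 2 * F) ≠ 0 := div_ne_zero (mul_ne_zero hk h2) (by positivity)
  rw [hg.mul, hg.mul, n1, n2, n3, hg.mul, hg.mul, ny, nz, e1, hg.mul, hg.sq hm0,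
    hg.div (by positivity), hg.mul, hg.mul (u ^ 2), hg.sq hu] at key2
  have hF2 := hg.self h1
  have hk2 : κ * κ = 1 := by rcases hκ with h | h <;> rw [h] <;> norm_num
  have e2 : κ = g (-k) * g G * g F := by
    have e3 : κ * κ * κ = (g (-k) * g G * g F) * (κ * κ) := by
      rw [key2]
      ring
    rw [hk2] at e3
    linarith
  have hk3 : g (-k) * g (-k) = 1 := hg.self (neg_ne_zero.2 hk)
  calc g F * g G = (g (-k) * g (-k)) * (g F * g G) := by rw [hk3, one_mul]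
    _ = (g (-k) * g G * g F) * g (-k) := by ring
    _ = κ * g (-k) := by rw [← e2]

theorem cube_gt {w B : ℚ} (hB : 0 ≤ B) (hw : B + 1 ≤ |w|) : B < |w| ^ 3 := by
  have h1 : 1 ≤ |w| := by linarith
  have h2 : |w| ≤ |w| ^ 3 := by
    have : (1:ℚ) ≤ |w| ^ 2 := one_le_pow₀ h1
    nlinarith
  linarith

theorem ne_of_large {w B k : ℚ} (hB : 0 ≤ B) (hw : B + 1 ≤ |w|) (hk : |k| ≤ B) : w ^ 3 + k ≠ 0 := by
  intro h
  have h1 : w ^ 3 = -k := by linarith
  have h2 : |w| ^ 3 = |k| := by rw [← abs_pow, h1, abs_neg]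
  have h3 := cube_gt hB hw
  linarith

/-- the sign pattern passes from `k` to `2 k` -/
theorem Hyp.double {g : ℚ → ℤ} (hg : CM g) {k : ℚ} (hk : k ≠ 0) {κ : ℤ} (h : Hyp g k κ) :
    Hyp g (2 * k) (g (-k)) := by
  intro q hq
  obtain ⟨R, hR⟩ := h q hq
  refine ⟨max R (2 * |k| + 1), fun w hw hw2 => ?_⟩
  have h1 : R ≤ |w| := le_trans (le_max_left _ _) hw2
  have h2 : 2 * |k| + 1 ≤ |w| := le_trans (le_max_right _ _) hw2
  have hk0 : 0 ≤ |k| := abs_nonneg k
  have h3 : w ≠ 0 := by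
    intro h0
    rw [h0, abs_zero] at h2
    linarith
  have h4 : w ^ 3 + k ≠ 0 := ne_of_large (B := 2 * |k|) (by linarith) h2 (by linarith)
  have h5 : w ^ 3 + 2 * k ≠ 0 := ne_of_large (B := 2 * |k|) (by linarith) h2 (by
    rw [abs_mul]
    norm_num)
  have h6 := h.rel hg hk h3 h4 h5
  rw [hR w hw h1] at h6
  have hκ : κ * κ = 1 := by rcases h.val hg with h | h <;> rw [h] <;> norm_num
  calc g (w ^ 3 + 2 * k) = (κ * κ) * g (w ^ 3 + 2 * k) := by rw [hκ, one_mul]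
    _ = κ * (κ * g (w ^ 3 + 2 * k)) := by ring
    _ = κ * (κ * g (-k)) := by rw [h6]
    _ = (κ * κ) * g (-k) := by ring
    _ = g (-k) := by rw [hκ, one_mul]

theorem g_mul_four {g : ℚ → ℤ} (hg : CM g) (x : ℚ) : g (4 * x) = g x := by
  rw [hg.mul, show (4:ℚ) = 2 ^ 2 by norm_num, hg.sq (by norm_num), one_mul]

/-- the product of the values at `u` and `u / 2` -/
theorem Hyp.half {g : ℚ → ℤ} (hg : CM g) {k : ℚ} (hk : k ≠ 0) {κ : ℤ} (h : Hyp g k κ) {u : ℚ}
    (hu : 8 * |k| + 1 ≤ |u|) :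
    g (u ^ 3 + k) * g ((u / 2) ^ 3 + k) = κ * g (-k) * g 2 := by
  have hk0 : 0 ≤ |k| := abs_nonneg k
  have hu0 : u ≠ 0 := by
    intro h0
    rw [h0, abs_zero] at hu
    linarith
  have a1 : u ^ 3 + k ≠ 0 := ne_of_large (B := 8 * |k|) (by linarith) hu (by linarith)
  have a2 : u ^ 3 + 2 * k ≠ 0 := ne_of_large (B := 8 * |k|) (by linarith) hu (by
    rw [abs_mul]; norm_num; linarith)
  have a4 : u ^ 3 + 4 * k ≠ 0 := ne_of_large (B := 8 * |k|) (by linarith) hu (by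
    rw [abs_mul]; norm_num; linarith)
  have a8 : u ^ 3 + 8 * k ≠ 0 := ne_of_large (B := 8 * |k|) (by linarith) hu (by
    rw [abs_mul]; norm_num)
  have e22 : 2 * (2 * k) = 4 * k := by ring
  have e24 : 2 * (4 * k) = 8 * k := by ring
  have H2 := h.double hg hk
  have hk2 : 2 * k ≠ 0 := mul_ne_zero two_ne_zero hk
  have H4 := H2.double hg hk2
  have hk4 : 4 * k ≠ 0 := mul_ne_zero four_ne_zero hk
  rw [e22] at H4
  have r1 := h.rel hg hk hu0 a1 a2
  have r2 := H2.rel hg hk2 hu0 a2 (by rw [e22]; exact a4)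
  rw [e22] at r2
  have r3 := H4.rel hg hk4 hu0 a4 (by rw [e24]; exact a8)
  rw [e24] at r3
  have e3 : g (-(4 * k)) = g (-k) := by
    rw [show -(4 * k) = 4 * (-k) by ring, g_mul_four hg]
  rw [e3] at r3
  have e4 : g (u ^ 3 + 8 * k) = g 2 * g ((u / 2) ^ 3 + k) := by
    rw [show u ^ 3 + 8 * k = 4 * (2 * ((u / 2) ^ 3 + k)) by ring, g_mul_four hg, hg.mul]
  rw [e4] at r3
  have s1 := hg.self a1
  have s2 := hg.self a2
  have s4 := hg.self a4
  have sk := hg.self (neg_ne_zero.2 hk)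
  have sk2 := hg.self (neg_ne_zero.2 hk2)
  have s22 := hg.self (x := (2:ℚ)) (by norm_num)
  generalize g (u ^ 3 + k) = A at *
  generalize g (u ^ 3 + 2 * k) = B at *
  generalize g (u ^ 3 + 4 * k) = D at *
  generalize g ((u / 2) ^ 3 + k) = A' at *
  generalize g (-k) = c at *
  generalize g (-(2 * k)) = c2 at *
  generalize g 2 = d at *
  calc A * A' = (d * d) * (B * B) * (D * D) * (A * A') := by rw [s22, s2, s4]; ring
    _ = (A * B) * (B * D) * (D * (d * A')) * d := by ring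
    _ = (κ * c) * (c * c2) * (c2 * c) * d := by rw [r1, r2, r3]
    _ = κ * c * d * (c * c) * (c2 * c2) := by ring
    _ = κ * c * d := by rw [sk, sk2]; ring

/-- the sign is `κ` at all rational `u` of moderate size, without condition on the denominator -/
theorem Hyp.all {g : ℚ → ℤ} (hg : CM g) {k : ℚ} (hk : k ≠ 0) {κ : ℤ} (h : Hyp g k κ) {u : ℚ}
    (hu : 8 * |k| + 1 ≤ |u|) : g (u ^ 3 + k) = κ := by
  have hκ : κ * κ = 1 := by rcases h.val hg with h | h <;> rw [h] <;> norm_num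
  have hk0 : 0 ≤ |k| := abs_nonneg k
  -- the constant is one
  have hc : κ * g (-k) * g 2 = 1 := by
    obtain ⟨R, hR⟩ := h 1 one_ne_zero
    obtain ⟨n, hn⟩ := exists_nat_gt (max R (8 * |k| + 1))
    have n1 : R < n := lt_of_le_of_lt (le_max_left _ _) hn
    have n2 : 8 * |k| + 1 < n := lt_of_le_of_lt (le_max_right _ _) hn
    have hn0 : (0:ℚ) < n := by linarith
    have e : |2 * (n:ℚ)| = 2 * n := abs_of_pos (by linarith)
    have h1 := h.half hg hk (u := 2 * (n : ℚ)) (by rw [e]; linarith)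
    rw [hR (2 * (n:ℚ)) ⟨2 * n, by push_cast; ring⟩ (by rw [e]; linarith),
      show 2 * (n:ℚ) / 2 = n by ring, hR (n:ℚ) ⟨n, by push_cast; ring⟩ (by
        rw [abs_of_pos hn0]; linarith), hκ] at h1
    exact h1.symm
  have step : ∀ v : ℚ, 8 * |k| + 1 ≤ |v| → g (v ^ 3 + k) = g ((2 * v) ^ 3 + k) := by
    intro v hv
    have hv2 : |2 * v| = 2 * |v| := by rw [abs_mul]; norm_num
    have h1 := h.half hg hk (u := 2 * v) (by rw [hv2]; linarith)
    rw [hc, show 2 * v / 2 = v by ring] at h1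
    have b1 : v ^ 3 + k ≠ 0 := ne_of_large (B := 8 * |k|) (by linarith) hv (by linarith)
    have s1 := hg.self b1
    calc g (v ^ 3 + k) = (g ((2 * v) ^ 3 + k) * g (v ^ 3 + k)) * g (v ^ 3 + k) := by rw [h1, one_mul]
      _ = g ((2 * v) ^ 3 + k) * (g (v ^ 3 + k) * g (v ^ 3 + k)) := by ring
      _ = g ((2 * v) ^ 3 + k) := by rw [s1, mul_one]
  have size : ∀ j : ℕ, |2 ^ j * u| = 2 ^ j * |u| := by
    intro j
    rw [abs_mul, abs_of_pos (by positivity)]
  have hu1 : 1 ≤ |u| := by linarith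
  have steps : ∀ j : ℕ, g (u ^ 3 + k) = g ((2 ^ j * u) ^ 3 + k) := by
    intro j
    induction j with
    | zero => simp
    | succ j ih =>
      have h2 : (1:ℚ) ≤ 2 ^ j := one_le_pow₀ (by norm_num)
      rw [ih, step (2 ^ j * u) (by rw [size]; nlinarith)]
      congr 2
      ring
  obtain ⟨R, hR⟩ := h u.den (by exact_mod_cast u.den_ne_zero)
  obtain ⟨j, hj⟩ : ∃ j : ℕ, R ≤ 2 ^ j := by
    obtain ⟨j, hj⟩ := pow_unbounded_of_one_lt R (by norm_num : (1:ℚ) < 2)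
    exact ⟨j, hj.le⟩
  rw [steps j]
  refine hR _ ⟨2 ^ j * u.num, ?_⟩ ?_
  · have h3 : ((u.den : ℤ) : ℚ) * u = u.num := by
      push_cast
      rw [mul_comm]
      exact Rat.mul_den_eq_num u
    push_cast at h3 ⊢
    calc (u.den : ℚ) * (2 ^ j * u) = 2 ^ j * ((u.den : ℚ) * u) := by ring
      _ = _ := by rw [h3]
  · rw [size]
    have h2 : (0:ℚ) ≤ 2 ^ j := by positivity
    nlinarith

/-- three points with sum zero -/
theorem Hyp.three {g : ℚ → ℤ} (hg : CM g) {k : ℚ} (hk : k ≠ 0) {κ : ℤ} (h : Hyp g k κ) {x y n : ℚ}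
    (h1 : 8 * |k| + 1 ≤ |n * x|) (h2 : 8 * |k| + 1 ≤ |n * y|) (h3 : 8 * |k| + 1 ≤ |n * (x + y)|)
    (hn : n ≠ 0) (hxy : x ^ 2 + x * y + y ^ 2 ≠ 0)
    (h4 : 8 * |k| + 1 ≤ |(n ^ 3 * (x * y * (x + y)) - k) / (n ^ 2 * (x ^ 2 + x * y + y ^ 2))|) :
    g (-(x ^ 2 + x * y + y ^ 2)) = 1 := by
  have hκ : κ * κ = 1 := by rcases h.val hg with h | h <;> rw [h] <;> norm_num
  have a1 := h.all hg hk h1
  have a2 := h.all hg hk h2
  have a3 := h.all hg hk (u := -(n * (x + y))) (by rw [abs_neg]; exact h3)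
  have a4 := h.all hg hk h4
  obtain ⟨s, hs⟩ : ∃ s, s = x ^ 2 + x * y + y ^ 2 := ⟨_, rfl⟩
  rw [← hs] at a4 hxy ⊢
  have key : ((n * x) ^ 3 + k) * ((n * y) ^ 3 + k) * ((-(n * (x + y))) ^ 3 + k) =
      (n ^ 3 * s) ^ 2 * ((-s) * (((n ^ 3 * (x * y * (x + y)) - k) / (n ^ 2 * s)) ^ 3 + k)) := by
    field_simp
    rw [hs]
    ring
  have key2 := congrArg g key
  rw [hg.mul, hg.mul, a1, a2, a3, hg.mul, hg.sq (mul_ne_zero (pow_ne_zero 3 hn) hxy), hg.mul, a4, one_mul,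
    hκ, one_mul] at key2
  calc g (-s) = (κ * κ) * g (-s) := by rw [hκ, one_mul]
    _ = κ * (g (-s) * κ) := by ring
    _ = κ * κ := by rw [← key2]
    _ = 1 := hκ

theorem no_hyp {g : ℚ → ℤ} (hg : CM g) (h7 : g 7 = -1) {k : ℚ} (hk : k ≠ 0) {κ : ℤ} : ¬ Hyp g k κ := by
  intro h
  have hk0 : 0 ≤ |k| := abs_nonneg k
  have hkl : k ≤ |k| := le_abs_self k
  set n : ℚ := 12 * (|k| + 1) with hn
  have hn1 : 12 ≤ n := by linarith
  have hn0 : 0 < n := by linarith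
  have b1 : g (-3) = 1 := by
    have := h.three hg hk (x := 1) (y := 1) (n := n) (by
        rw [mul_one, abs_of_pos hn0]; linarith) (by
        rw [mul_one, abs_of_pos hn0]; linarith) (by
        rw [abs_of_pos (show 0 < n * (1 + 1) by positivity)]; linarith) hn0.ne' (by norm_num) (by
        refine le_trans ?_ (le_abs_self _)
        rw [le_div_iff₀ (by positivity)]
        nlinarith [mul_pos hn0 hn0, mul_nonneg hk0 (mul_pos hn0 hn0).le])
    norm_num at this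
    exact this
  have b2 : g (-21) = 1 := by
    have := h.three hg hk (x := 1) (y := 4) (n := n) (by
        rw [mul_one, abs_of_pos hn0]; linarith) (by
        rw [abs_of_pos (show 0 < n * 4 by positivity)]; linarith) (by
        rw [abs_of_pos (show 0 < n * (1 + 4) by positivity)]; linarith) hn0.ne' (by norm_num) (by
        refine le_trans ?_ (le_abs_self _)
        rw [le_div_iff₀ (by positivity)]
        nlinarith [mul_pos hn0 hn0, mul_nonneg hk0 (mul_pos hn0 hn0).le])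
    norm_num at this
    exact this
  have b3 : g (-21) = g (-3) * g 7 := by
    rw [← hg.mul]
    norm_num
  rw [b1, b2, h7] at b3
  norm_num at b3

end MP648Diag
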