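import Pool.Agent.Lib.MP_648c71_nt.Diag.Final

/-!
Reduction: if a binary cubic form is not good up to dilation, then there is a completely multiplicative
function `g` (Liouville's function on `ℚ`, or its product with the sign) which is constant on the values of
the depressed cubic at all large rational numbers of bounded denominator.
-/

namespace MP648Diag

open Filter Pool.Agent.Lib.MP_648c71_nt

theorem cubic_pos {P Q w : ℚ} (hw : |P| + |Q| + 1 ≤ w) : 0 < w ^ 3 + P * w + Q := by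
  have h0 : 0 ≤ |P| := abs_nonneg P
  have h1 : 0 ≤ |Q| := abs_nonneg Q
  have h2 : -|P| ≤ P := neg_abs_le P
  have h3 : -|Q| ≤ Q := neg_abs_le Q
  have h4 : 1 ≤ w := by linarith
  have h5 : -(|P| * w) ≤ P * w := by nlinarith
  have h6 : |Q| ≤ |Q| * w := by nlinarith
  have h7 : (|P| + |Q|) * w ≤ (w - 1) * w := by nlinarith
  have h8 : (w - 1) * w < w ^ 3 := by
    have : w ^ 3 - (w - 1) * w = w * ((w - 1) ^ 2 + w) := by ring
    have h9 : 0 < w * ((w - 1) ^ 2 + w) := by positivity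
    linarith
  nlinarith

theorem cubic_neg {P Q w : ℚ} (hw : w ≤ -(|P| + |Q| + 1)) : w ^ 3 + P * w + Q < 0 := by
  have h := cubic_pos (P := P) (Q := -Q) (w := -w) (by rw [abs_neg]; linarith)
  have e : (-w) ^ 3 + P * (-w) + -Q = -(w ^ 3 + P * w + Q) := by ring
  rw [e] at h
  linarith

theorem cubic_ne {P Q w : ℚ} (hw : |P| + |Q| + 1 ≤ |w|) : w ^ 3 + P * w + Q ≠ 0 := by
  rcases le_or_gt 0 w with h | h
  · rw [abs_of_nonneg h] at hw
    exact (cubic_pos hw).ne'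
  · rw [abs_of_neg h] at hw
    exact (cubic_neg (by linarith)).ne

/-- the two constants give one completely multiplicative function -/
theorem exists_g {P Q : ℚ} (h : ∀ q : ℕ, 0 < q → ∃ σ τ : ℤ, (σ = 1 ∨ σ = -1) ∧ (τ = 1 ∨ τ = -1) ∧
    ∃ R : ℚ, ∀ w : ℚ, (∃ n : ℤ, w = n / q) →
      (R ≤ w → gl (w ^ 3 + P * w + Q) = σ) ∧ (w ≤ -R → gl (w ^ 3 + P * w + Q) = τ)) :
    ∃ g : ℚ → ℤ, (g = gl ∨ g = gs) ∧ ∃ κ : ℤ, (κ = 1 ∨ κ = -1) ∧ ∀ q : ℕ, 0 < q → ∃ R : ℚ, ∀ w : ℚ,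
      (∃ n : ℤ, w = n / q) → R ≤ |w| → g (w ^ 3 + P * w + Q) = κ := by
  obtain ⟨σ, τ, hσ, hτ, R1, h1⟩ := h 1 one_pos
  -- the constants do not depend on `q`
  have key : ∀ q : ℕ, 0 < q → ∃ R : ℚ, ∀ w : ℚ, (∃ n : ℤ, w = n / q) →
      (R ≤ w → gl (w ^ 3 + P * w + Q) = σ) ∧ (w ≤ -R → gl (w ^ 3 + P * w + Q) = τ) := by
    intro q hq
    obtain ⟨σ', τ', hσ', hτ', R, hR⟩ := h q hq
    have hqQ : (q : ℚ) ≠ 0 := by exact_mod_cast hq.ne'
    obtain ⟨n, hn⟩ := exists_nat_gt (max R R1)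
    have n1 : R < n := lt_of_le_of_lt (le_max_left _ _) hn
    have n2 : R1 < n := lt_of_le_of_lt (le_max_right _ _) hn
    have a1 := (h1 (n : ℚ) ⟨n, by push_cast; ring⟩).1 n2.le
    have a2 := (hR (n : ℚ) ⟨q * n, by push_cast; field_simp⟩).1 n1.le
    have b1 := (h1 (-(n : ℚ)) ⟨-n, by push_cast; ring⟩).2 (by linarith)
    have b2 := (hR (-(n : ℚ)) ⟨-(q * n), by push_cast; field_simp⟩).2 (by linarith)
    have e1 : σ' = σ := by rw [← a1, ← a2]
    have e2 : τ' = τ := by rw [← b1, ← b2]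
    rw [e1, e2] at hR
    exact ⟨R, hR⟩
  rcases eq_or_ne σ τ with hst | hst
  · refine ⟨gl, Or.inl rfl, σ, hσ, ?_⟩
    intro q hq
    obtain ⟨R, hR⟩ := key q hq
    refine ⟨R, fun w hw hw2 => ?_⟩
    rcases le_abs.1 hw2 with h2 | h2
    · exact (hR w hw).1 h2
    · rw [hst]
      exact (hR w hw).2 (by linarith)
  · have hτσ : τ = -σ := by
      rcases hσ with h2 | h2 <;> rcases hτ with h3 | h3 <;> rw [h2, h3] at hst ⊢ <;> simp at hst ⊢
    refine ⟨gs, Or.inr rfl, σ, hσ, ?_⟩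
    intro q hq
    obtain ⟨R, hR⟩ := key q hq
    refine ⟨max R (|P| + |Q| + 1), fun w hw hw2 => ?_⟩
    have g1 : R ≤ |w| := le_trans (le_max_left _ _) hw2
    have g2 : |P| + |Q| + 1 ≤ |w| := le_trans (le_max_right _ _) hw2
    unfold gs
    rcases le_or_gt 0 w with hw0 | hw0
    · rw [abs_of_nonneg hw0] at g1 g2
      rw [(hR w hw).1 g1, sign_pos (cubic_pos g2)]
      norm_num
    · rw [abs_of_neg hw0] at g1 g2
      rw [(hR w hw).2 (by linarith), sign_neg (cubic_neg (by linarith)), hτσ]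
      norm_num

/-- the property which we want for the form `a x^3 + b x^2 y + c x y^2 + d y^3` -/
def Good (a b c d : ℤ) : Prop :=
  ∃ y₀ : ℤ, 0 < y₀ ∧ ∀ y : ℤ, 0 < y → y₀ ∣ y →
      (∀ s : ℤ, s = 1 ∨ s = -1 → ∀ N : ℤ, ∃ n : ℤ, N < n ∧ lam (form a b c d n y) = s) ∨
      (∀ s : ℤ, s = 1 ∨ s = -1 → ∀ N : ℤ, ∃ n : ℤ, n < N ∧ lam (form a b c d n y) = s)

theorem good_neg {a b c d : ℤ} (h : Good (-a) (-b) (-c) (-d)) : Good a b c d := by
  have e : ∀ x y : ℤ, lam (form (-a) (-b) (-c) (-d) x y) = lam (form a b c d x y) := by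
    intro x y
    rw [← lam_neg]
    congr 1
    unfold form
    ring
  unfold Good at h ⊢
  simpa only [e] using h

/-- the reduction for `a > 0` -/
theorem reduction_pos {a b c d : ℤ} (ha : 0 < a) (hnot : ¬ Good a b c d) :
    ∃ g : ℚ → ℤ, (g = gl ∨ g = gs) ∧ ∃ κ : ℤ, (κ = 1 ∨ κ = -1) ∧ ∀ q : ℕ, 0 < q → ∃ R : ℚ, ∀ w : ℚ,
      (∃ n : ℤ, w = n / q) → R ≤ |w| →
        g (w ^ 3 + ((9 * a * c - 3 * b ^ 2 : ℤ) : ℚ) * w +
          ((27 * a ^ 2 * d - 9 * a * b * c + 2 * b ^ 3 : ℤ) : ℚ)) = κ := by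
  unfold Good at hnot
  push Not at hnot
  obtain ⟨P, hP⟩ : ∃ P : ℚ, P = ((9 * a * c - 3 * b ^ 2 : ℤ) : ℚ) := ⟨_, rfl⟩
  obtain ⟨Q, hQ⟩ : ∃ Q : ℚ, Q = ((27 * a ^ 2 * d - 9 * a * b * c + 2 * b ^ 3 : ℤ) : ℚ) := ⟨_, rfl⟩
  rw [← hP, ← hQ]
  refine exists_g fun q hq => ?_
  have haQ : (0:ℚ) < a := by exact_mod_cast ha
  have hqQ : (0:ℚ) < q := by exact_mod_cast hq
  obtain ⟨y, hy, hdvd, ⟨s, hs, N, hN⟩, ⟨s', hs', N', hN'⟩⟩ := hnot (3 * a * q) (by positivity)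
  have hyQ : (0:ℚ) < y := by exact_mod_cast hy
  have hylam : lam y = 1 ∨ lam y = -1 := lam_eq_one_or hy.ne'
  -- the identity
  have hval : ∀ n : ℤ, gl ((3 * a * n / y + b) ^ 3 + P * (3 * a * n / y + b) + Q)
      = - lam y * lam (form a b c d n y) := by
    intro n
    have e : ((3 * a * n / y + b : ℚ)) ^ 3 + P * (3 * a * n / y + b) + Q =
        (3 * ((3 * a) ^ 2)) * ((form a b c d n y : ℤ) : ℚ) / (y * y ^ 2) := by
      rw [hP, hQ]
      unfold form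
      push_cast
      field_simp
      ring
    rw [e, gl_cm.div (by positivity), gl_mul, gl_mul, gl_mul, gl_cm.sq (by positivity),
      gl_cm.sq (by positivity), gl_three, gl_int, gl_int]
    ring
  refine ⟨lam y * s, lam y * s', ?_, ?_, ?_⟩
  · rcases hylam with h1 | h1 <;> rcases hs with h2 | h2 <;> rw [h1, h2] <;> norm_num
  · rcases hylam with h1 | h1 <;> rcases hs' with h2 | h2 <;> rw [h1, h2] <;> norm_num
  have hP0 : 0 ≤ |P| := abs_nonneg P
  have hQ0 : 0 ≤ |Q| := abs_nonneg Q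
  refine ⟨3 * a * (|(N:ℚ)| + |(N':ℚ)| + 1) / y + |(b:ℚ)| + (|P| + |Q|) + 1, fun w ⟨m, hm⟩ => ?_⟩
  obtain ⟨r, hr⟩ := hdvd
  -- `w = 3 a n / y + b`
  obtain ⟨n, hn⟩ : ∃ n : ℤ, w = 3 * a * n / y + b := by
    refine ⟨(m - b * q) * r, ?_⟩
    have hyr : (y : ℚ) = 3 * a * q * r := by exact_mod_cast hr
    have hr0 : (r : ℚ) ≠ 0 := by
      intro h0
      rw [h0, mul_zero] at hyr
      linarith
    rw [hm, hyr]
    push_cast
    field_simp
    ring
  have hB : 0 ≤ 3 * a * (|(N:ℚ)| + |(N':ℚ)| + 1) / y := by positivity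
  have hb0 : 0 ≤ |(b : ℚ)| := abs_nonneg _
  have hN1 : (N : ℚ) ≤ |(N:ℚ)| := le_abs_self _
  have hN2 : -|(N' : ℚ)| ≤ N' := neg_abs_le _
  have hN3 : 0 ≤ |(N:ℚ)| := abs_nonneg _
  have hN4 : 0 ≤ |(N':ℚ)| := abs_nonneg _
  have hb1 : (b : ℚ) ≤ |(b : ℚ)| := le_abs_self _
  have hb2 : -|(b : ℚ)| ≤ b := neg_abs_le _
  have hne : (3 * a * (|(N:ℚ)| + |(N':ℚ)| + 1) / y + |(b:ℚ)| + (|P| + |Q|) + 1 ≤ |w|) →
      lam (form a b c d n y) ≠ 0 := by
    intro hw h0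
    have h1 := hval n
    rw [← hn, h0, mul_zero] at h1
    have h2 : w ^ 3 + P * w + Q ≠ 0 := cubic_ne (by linarith)
    rcases gl_cm.val _ h2 with h3 | h3 <;> rw [h3] at h1 <;> norm_num at h1
  have hpm : ∀ x : ℤ, lam x ≠ 0 → lam x = 1 ∨ lam x = -1 := by
    intro x hx
    apply lam_eq_one_or
    intro h
    rw [h, lam_zero] at hx
    exact hx rfl
  constructor
  · intro hw
    have hw0 : 0 ≤ w := by linarith
    have h1 : N < n := by
      have h2 : 3 * a * (|(N:ℚ)| + |(N':ℚ)| + 1) / y ≤ 3 * a * n / y := by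
        rw [hn] at hw
        linarith
      rw [div_le_div_iff_of_pos_right hyQ] at h2
      have h3 : |(N:ℚ)| + |(N':ℚ)| + 1 ≤ n := le_of_mul_le_mul_left h2 (by positivity)
      have h4 : (N : ℚ) < n := by linarith
      exact_mod_cast h4
    rw [hn, hval n]
    have h2 := hN n h1
    have h3 := hpm _ (hne (by rw [abs_of_nonneg hw0]; exact hw))
    generalize lam (form a b c d n y) = L at *
    rcases hs with h4 | h4 <;> rcases h3 with h5 | h5 <;> rw [h4, h5] at h2 ⊢ <;> simp at h2 ⊢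
  · intro hw
    have hw0 : w < 0 := by linarith
    have h1 : n < N' := by
      have h2 : 3 * a * n / y ≤ -(3 * a * (|(N:ℚ)| + |(N':ℚ)| + 1)) / y := by
        rw [hn] at hw
        rw [neg_div]
        linarith
      rw [div_le_div_iff_of_pos_right hyQ, ← mul_neg] at h2
      have h3 : (n:ℚ) ≤ -(|(N:ℚ)| + |(N':ℚ)| + 1) := le_of_mul_le_mul_left h2 (by positivity)
      have h4 : (n : ℚ) < N' := by linarith
      exact_mod_cast h4
    rw [hn, hval n]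
    have h2 := hN' n h1
    have h3 := hpm _ (hne (by rw [abs_of_neg hw0]; linarith))
    generalize lam (form a b c d n y) = L at *
    rcases hs' with h4 | h4 <;> rcases h3 with h5 | h5 <;> rw [h4, h5] at h2 ⊢ <;> simp at h2 ⊢

/-- the facts about `g` which are needed: it is completely multiplicative, agrees with `λ` on positive
integers, and `g (-1)` is `1` or `-1` -/
theorem g_facts {g : ℚ → ℤ} (h : g = gl ∨ g = gs) :
    CM g ∧ (∀ n : ℤ, 0 < n → g n = lam n) ∧ g 2 = -1 ∧ g 3 = -1 ∧ g 5 = -1 ∧ g 7 = -1 := by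
  have key : CM g ∧ (∀ n : ℤ, 0 < n → g n = lam n) := by
    rcases h with h | h
    · rw [h]
      exact ⟨gl_cm, fun n _ => gl_int n⟩
    · rw [h]
      refine ⟨gs_cm, fun n hn => ?_⟩
      unfold gs
      rw [gl_int, sign_pos (by exact_mod_cast hn)]
      norm_num
  obtain ⟨h1, h2⟩ := key
  have hp : ∀ p : ℕ, p.Prime → g (p : ℚ) = -1 := by
    intro p hp
    have h3 := h2 (p : ℤ) (by exact_mod_cast hp.pos)
    rw [lam_prime hp] at h3
    exact_mod_cast h3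
  exact ⟨h1, h2, by simpa using hp 2 (by norm_num), by simpa using hp 3 (by norm_num),
    by simpa using hp 5 (by norm_num), by simpa using hp 7 (by norm_num)⟩

/-- THE REDUCTION: to prove `Good a b c d` it suffices, for `(P, Q)` = plus or minus the depressed cubic
of the form, to refute the constancy hypothesis.  The hypothesis `H` is to be proved for all `P`, `Q` with
`Q ≠ 0`. -/
theorem good_of_no_hyp
    (H : ∀ (g : ℚ → ℤ), (g = gl ∨ g = gs) → ∀ (P Q : ℤ) (κ : ℤ), (κ = 1 ∨ κ = -1) → Q ≠ 0 →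
      (∀ q : ℕ, 0 < q → ∃ R : ℚ, ∀ w : ℚ, (∃ n : ℤ, w = n / q) → R ≤ |w| →
        g (w ^ 3 + (P : ℚ) * w + (Q : ℚ)) = κ) → False)
    {a b c d : ℤ} (ha : a ≠ 0) (hQ : 27 * a ^ 2 * d - 9 * a * b * c + 2 * b ^ 3 ≠ 0) : Good a b c d := by
  by_contra hnot
  rcases lt_or_gt_of_ne ha with h | h
  · have hnot' : ¬ Good (-a) (-b) (-c) (-d) := fun hg => hnot (good_neg hg)
    obtain ⟨g, hg, κ, hκ, hyp⟩ := reduction_pos (a := -a) (b := -b) (c := -c) (d := -d) (by linarith) hnot'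
    refine H g hg _ _ κ hκ ?_ hyp
    intro h0
    apply hQ
    have e : 27 * (-a) ^ 2 * -d - 9 * -a * -b * -c + 2 * (-b) ^ 3 =
        -(27 * a ^ 2 * d - 9 * a * b * c + 2 * b ^ 3) := by ring
    rw [e] at h0
    linarith
  · obtain ⟨g, hg, κ, hκ, hyp⟩ := reduction_pos h hnot
    exact H g hg _ _ κ hκ hQ hyp

end MP648Diag
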