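import Pool.Agent.Lib.MP_648c71_nt.Diag.Cnt

/-!
Pell sequences, and how a finite family of sequences gives `Seq`.
-/

namespace MP648Diag

open Filter Pool.Agent.Lib.MP_648c71_nt Pool.Agent.Lib.MP_648c71_nt.AllCub

/-- the powers of a solution of the Pell equation -/
def pellPow (d a e : ℤ) : ℕ → ℤ × ℤ
  | 0 => (a, e)
  | k + 1 => (a * (pellPow d a e k).1 + d * e * (pellPow d a e k).2, e * (pellPow d a e k).1 + a * (pellPow d a e k).2)

theorem pell_seq (d : ℤ) (hd : 0 < d) (hns : ¬ IsSquare d) :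
    ∃ (x y : ℕ → ℤ) (C : ℕ), (∀ k, x k ^ 2 - d * y k ^ 2 = 1) ∧ (∀ k, 1 ≤ x k) ∧ (∀ k, 1 ≤ y k) ∧
      StrictMono x ∧ StrictMono y ∧ (∀ k, x k ≤ C ^ (k + 1)) ∧ (∀ k, y k ≤ C ^ (k + 1)) := by
  obtain ⟨a, e, ha, he, hae⟩ := pell_large d hd hns 2
  have ha' : 2 ≤ a := by exact_mod_cast ha
  have he' : 1 ≤ e := by
    have : (2:ℤ) ≤ e := by exact_mod_cast he
    omega
  have pos : ∀ k, 1 ≤ (pellPow d a e k).1 ∧ 1 ≤ (pellPow d a e k).2 := by
    intro k
    induction k with
    | zero => exact ⟨by simp only [pellPow]; omega, by simp only [pellPow]; omega⟩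
    | succ k ih =>
      obtain ⟨h1, h2⟩ := ih
      simp only [pellPow]
      have t1 : 0 < d * e * (pellPow d a e k).2 := by positivity
      have t2 : 1 * 1 ≤ a * (pellPow d a e k).1 := mul_le_mul (by omega) h1 (by norm_num) (by omega)
      have t3 : 0 < e * (pellPow d a e k).1 := by positivity
      have t4 : 1 * 1 ≤ a * (pellPow d a e k).2 := mul_le_mul (by omega) h2 (by norm_num) (by omega)
      exact ⟨by omega, by omega⟩
  have eqn : ∀ k, (pellPow d a e k).1 ^ 2 - d * (pellPow d a e k).2 ^ 2 = 1 := by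
    intro k
    induction k with
    | zero => simp only [pellPow]; exact hae
    | succ k ih =>
      simp only [pellPow]
      have : (a * (pellPow d a e k).1 + d * e * (pellPow d a e k).2) ^ 2 -
          d * (e * (pellPow d a e k).1 + a * (pellPow d a e k).2) ^ 2 =
          (a ^ 2 - d * e ^ 2) * ((pellPow d a e k).1 ^ 2 - d * (pellPow d a e k).2 ^ 2) := by ring
      rw [this, hae, ih, one_mul]
  obtain ⟨C, hC⟩ : ∃ C : ℕ, (C:ℤ) = a + e + d * e := ⟨(a + e + d * e).toNat, Int.toNat_of_nonneg (by positivity)⟩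
  have bnd : ∀ k, (pellPow d a e k).1 ≤ (C:ℤ) ^ (k + 1) ∧ (pellPow d a e k).2 ≤ (C:ℤ) ^ (k + 1) := by
    intro k
    induction k with
    | zero =>
      simp only [pellPow, zero_add, pow_one]
      rw [hC]
      have : 0 < d * e := by positivity
      constructor <;> omega
    | succ k ih =>
      obtain ⟨h1, h2⟩ := ih
      simp only [pellPow]
      have hC0 : (0:ℤ) ≤ (C:ℤ) ^ (k + 1) := by positivity
      have t1 : a * (pellPow d a e k).1 ≤ a * (C:ℤ) ^ (k + 1) := mul_le_mul_of_nonneg_left h1 (by omega)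
      have t2 : d * e * (pellPow d a e k).2 ≤ d * e * (C:ℤ) ^ (k + 1) :=
        mul_le_mul_of_nonneg_left h2 (by positivity)
      have t3 : e * (pellPow d a e k).1 ≤ e * (C:ℤ) ^ (k + 1) := mul_le_mul_of_nonneg_left h1 (by omega)
      have t4 : a * (pellPow d a e k).2 ≤ a * (C:ℤ) ^ (k + 1) := mul_le_mul_of_nonneg_left h2 (by omega)
      have t5 : (C:ℤ) ^ (k + 1 + 1) = (a + e + d * e) * (C:ℤ) ^ (k + 1) := by
        rw [pow_succ (C:ℤ) (k + 1), mul_comm, hC]
      have t6 : 0 ≤ e * (C:ℤ) ^ (k + 1) := by positivity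
      have t7 : 0 ≤ d * e * (C:ℤ) ^ (k + 1) := by positivity
      rw [t5]
      constructor <;> nlinarith
  refine ⟨fun k => (pellPow d a e k).1, fun k => (pellPow d a e k).2, C, eqn, fun k => (pos k).1,
    fun k => (pos k).2, ?_, ?_, fun k => (bnd k).1, fun k => (bnd k).2⟩
  · apply strictMono_nat_of_lt_succ
    intro k
    obtain ⟨h1, h2⟩ := pos k
    simp only [pellPow]
    have t1 : 0 < d * e * (pellPow d a e k).2 := by positivity
    have t2 : 1 * (pellPow d a e k).1 ≤ a * (pellPow d a e k).1 := mul_le_mul_of_nonneg_right (by omega) (by omega)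
    omega
  · apply strictMono_nat_of_lt_succ
    intro k
    obtain ⟨h1, h2⟩ := pos k
    simp only [pellPow]
    have t1 : 0 < e * (pellPow d a e k).1 := by positivity
    have t2 : 1 * (pellPow d a e k).2 ≤ a * (pellPow d a e k).2 := mul_le_mul_of_nonneg_right (by omega) (by omega)
    omega

/-- a sequence of rationals of bounded denominator, exponential growth, bounded multiplicity -/
structure Tame (w : ℕ → ℚ) : Prop where
  bd : BD w
  gr : ∃ C : ℕ, ∀ k, |w k| ≤ (C:ℚ) ^ (k + 1)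
  mu : ∃ K : ℕ, ∀ v N, ((Finset.range N).filter (fun k => w k = v)).card ≤ K

theorem seq_of_cover {g : ℚ → ℤ} {b c : ℚ} {s : ℤ} {m : ℕ} (w : Fin m → ℕ → ℚ) (hw : ∀ i, Tame (w i))
    (k₀ : ℕ) (hcov : ∀ k, k₀ ≤ k → ∃ i, g (fc b c (w i k)) = s) : Seq g b c s := by
  choose D hD1 hD2 using fun i => (hw i).bd
  choose C hC using fun i => (hw i).gr
  choose K hK using fun i => (hw i).mu
  choose i hi using fun k : ℕ => hcov (k + k₀) (Nat.le_add_left _ _)
  obtain ⟨q, hq⟩ : ∃ q, q = ∏ i, D i := ⟨_, rfl⟩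
  have hq0 : 0 < q := by
    rw [hq]
    exact Finset.prod_pos fun i _ => hD1 i
  have hqQ : (0:ℚ) < q := by exact_mod_cast hq0
  obtain ⟨C1, hC1⟩ : ∃ C1, C1 = (∑ i, C i) + 1 := ⟨_, rfl⟩
  have hCle : ∀ i, C i ≤ C1 := fun i => by
    rw [hC1]
    exact le_trans (Finset.single_le_sum (fun j _ => Nat.zero_le (C j)) (Finset.mem_univ i)) (Nat.le_succ _)
  have hint : ∀ j k, ∃ n : ℤ, w j k = n / q := by
    intro j k
    have h1 : (w j k).den ∣ q := dvd_trans (hD2 j k) (by
      rw [hq]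
      exact Finset.dvd_prod_of_mem D (Finset.mem_univ j))
    obtain ⟨r, hr⟩ := h1
    refine ⟨(w j k).num * r, ?_⟩
    have hr0 : (r : ℚ) ≠ 0 := by
      intro h0
      have : r = 0 := by exact_mod_cast h0
      rw [this, mul_zero] at hr
      omega
    have hqr : (q : ℚ) = (w j k).den * r := by exact_mod_cast hr
    rw [hqr]
    push_cast
    rw [mul_div_mul_right _ _ hr0, Rat.num_div_den]
  choose n hn using hint
  refine ⟨q, hq0, C1 ^ (k₀ + 1) * q, ∑ i, K i, fun k => n (i k) (k + k₀), fun k => ?_, fun v N => ?_, fun k => ?_⟩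
  · have h1 : |w (i k) (k + k₀)| ≤ (C1:ℚ) ^ (k + k₀ + 1) := by
      refine le_trans (hC (i k) (k + k₀)) ?_
      have : (C (i k) : ℚ) ≤ C1 := by exact_mod_cast hCle (i k)
      exact pow_le_pow_left₀ (by positivity) this _
    have h2 : |(n (i k) (k + k₀) : ℚ)| ≤ (C1:ℚ) ^ (k + k₀ + 1) * q := by
      have h3 : (n (i k) (k + k₀) : ℚ) = w (i k) (k + k₀) * q := by
        rw [hn (i k) (k + k₀)]
        field_simp
      rw [h3, abs_mul, abs_of_pos hqQ]
      exact mul_le_mul_of_nonneg_right h1 hqQ.le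
    have h4 : |n (i k) (k + k₀)| ≤ (C1:ℤ) ^ (k + k₀ + 1) * q := by exact_mod_cast h2
    refine le_trans h4 ?_
    push_cast
    rw [mul_pow, ← pow_mul]
    have hC1' : (1:ℤ) ≤ C1 := by
      have : 1 ≤ C1 := by omega
      exact_mod_cast this
    apply mul_le_mul
    · apply pow_le_pow_right₀ hC1'
      nlinarith
    · calc (q:ℤ) = (q:ℤ) ^ 1 := (pow_one _).symm
        _ ≤ (q:ℤ) ^ (k + 1) := pow_le_pow_right₀ (by exact_mod_cast hq0) (by omega)
    · positivity
    · positivity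
  · -- multiplicity
    have hsub : (Finset.range N).filter (fun k => n (i k) (k + k₀) = v) ⊆
        Finset.univ.biUnion (fun j : Fin m => (Finset.range N).filter (fun k => w j (k + k₀) = (v:ℚ) / q)) := by
      intro k hk
      simp only [Finset.mem_filter, Finset.mem_range, Finset.mem_biUnion, Finset.mem_univ, true_and] at hk ⊢
      exact ⟨i k, hk.1, by rw [hn (i k) (k + k₀), hk.2]⟩
    refine le_trans (Finset.card_le_card hsub) ?_
    refine le_trans Finset.card_biUnion_le ?_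
    apply Finset.sum_le_sum
    intro j _
    refine le_trans ?_ (hK j ((v:ℚ) / q) (N + k₀))
    apply Finset.card_le_card_of_injOn (fun k => k + k₀)
    · intro k hk
      simp only [Finset.coe_filter, Finset.mem_range, Set.mem_ofPred_eq] at hk ⊢
      exact ⟨by omega, hk.2⟩
    · intro k _ l _ hkl
      simpa using hkl
  · rw [← hn]
    exact hi k

/-- injective sequences have multiplicity one -/
theorem mult_inj {w : ℕ → ℚ} (hw : Function.Injective w) (v : ℚ) (N : ℕ) :
    ((Finset.range N).filter (fun k => w k = v)).card ≤ 1 := by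
  apply Finset.card_le_one.2
  intro a ha b hb
  simp only [Finset.mem_filter] at ha hb
  exact hw (by rw [ha.2, hb.2])

/-- multiplicity of a polynomial relation: if `A u^2 + B u + C = 0` whenever `w = v`, `u` injective -/
theorem mult_quad {w u : ℕ → ℚ} (hu : Function.Injective u) {A : ℚ} (hA : A ≠ 0) (B C : ℚ → ℚ)
    (h : ∀ k, A * u k ^ 2 + B (w k) * u k + C (w k) = 0) (v : ℚ) (N : ℕ) :
    ((Finset.range N).filter (fun k => w k = v)).card ≤ 2 := by
  by_contra hcon
  have h3 : 2 < ((Finset.range N).filter (fun k => w k = v)).card := by omega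
  obtain ⟨i, j, l, hi, hj, hl, hij, hil, hjl⟩ := Finset.two_lt_card_iff.1 h3
  simp only [Finset.mem_filter] at hi hj hl
  have e1 := h i
  have e2 := h j
  have e3 := h l
  rw [hi.2] at e1
  rw [hj.2] at e2
  rw [hl.2] at e3
  have d1 : u i - u j ≠ 0 := sub_ne_zero.2 fun h => hij (hu h)
  have d2 : u i - u l ≠ 0 := sub_ne_zero.2 fun h => hil (hu h)
  have d3 : u j - u l ≠ 0 := sub_ne_zero.2 fun h => hjl (hu h)
  have f1 : A * (u i + u j) + B v = 0 := by
    apply mul_left_cancel₀ d1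
    linear_combination e1 - e2
  have f2 : A * (u i + u l) + B v = 0 := by
    apply mul_left_cancel₀ d2
    linear_combination e1 - e3
  have f3 : A * (u j - u l) = 0 := by linear_combination f1 - f2
  rcases mul_eq_zero.1 f3 with h | h
  · exact hA h
  · exact d3 h

/-- at most exponential growth -/
def Gr (w : ℕ → ℚ) : Prop := ∃ C : ℕ, ∀ k, |w k| ≤ (C:ℚ) ^ (k + 1)

theorem Gr.const (c : ℚ) : Gr (fun _ => c) := by
  obtain ⟨C, hC⟩ := exists_nat_gt (max |c| 1)
  have h1 : |c| ≤ C := le_trans (le_max_left _ _) hC.le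
  have h2 : (1:ℚ) ≤ C := le_trans (le_max_right _ _) hC.le
  exact ⟨C, fun k => le_trans h1 (le_self_pow₀ h2 (Nat.succ_ne_zero k))⟩

theorem Gr.add {w u : ℕ → ℚ} (hw : Gr w) (hu : Gr u) : Gr (fun k => w k + u k) := by
  obtain ⟨C, hC⟩ := hw
  obtain ⟨D, hD⟩ := hu
  refine ⟨C + D, fun k => ?_⟩
  push_cast
  calc |w k + u k| ≤ |w k| + |u k| := abs_add_le _ _
    _ ≤ (C:ℚ) ^ (k + 1) + (D:ℚ) ^ (k + 1) := add_le_add (hC k) (hD k)
    _ ≤ ((C:ℚ) + D) ^ (k + 1) := pow_add_pow_le (by positivity) (by positivity) (Nat.succ_ne_zero k)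

theorem Gr.mul {w u : ℕ → ℚ} (hw : Gr w) (hu : Gr u) : Gr (fun k => w k * u k) := by
  obtain ⟨C, hC⟩ := hw
  obtain ⟨D, hD⟩ := hu
  refine ⟨C * D, fun k => ?_⟩
  push_cast
  rw [abs_mul, mul_pow]
  exact mul_le_mul (hC k) (hD k) (abs_nonneg _) (by positivity)

theorem Gr.neg {w : ℕ → ℚ} (hw : Gr w) : Gr (fun k => -w k) := by
  obtain ⟨C, hC⟩ := hw
  exact ⟨C, fun k => by rw [abs_neg]; exact hC k⟩

theorem Gr.sub {w u : ℕ → ℚ} (hw : Gr w) (hu : Gr u) : Gr (fun k => w k - u k) := by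
  have := hw.add hu.neg
  simpa [sub_eq_add_neg] using this

theorem Gr.pow {w : ℕ → ℚ} (hw : Gr w) (n : ℕ) : Gr (fun k => w k ^ n) := by
  induction n with
  | zero => simpa using Gr.const 1
  | succ n ih => simpa [pow_succ] using ih.mul hw

theorem Gr.div {w : ℕ → ℚ} (hw : Gr w) (c : ℚ) : Gr (fun k => w k / c) := by
  have := hw.mul (Gr.const c⁻¹)
  simpa [div_eq_mul_inv] using this

theorem Gr.int {x : ℕ → ℤ} {C : ℕ} (h0 : ∀ k, 1 ≤ x k) (h : ∀ k, x k ≤ C ^ (k + 1)) :
    Gr (fun k => (x k : ℚ)) := by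
  refine ⟨C, fun k => ?_⟩
  have h1 : (0:ℚ) ≤ x k := by
    have := h0 k
    have h2 : (0:ℤ) ≤ x k := by omega
    exact_mod_cast h2
  rw [abs_of_nonneg h1]
  exact_mod_cast h k

end MP648Diag
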