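import Pool.Agent.Lib.MP_648c71_nt.Diag.Cnt2
import Pool.Agent.Lib.MP_648c71_nt.Diag.SeqLib

/-!
The count and the transfer at an explicit denominator.
-/

namespace MP648Diag

open Filter Pool.Agent.Lib.MP_648c71_nt Pool.Agent.Lib.MP_648c71_nt.AllCub

/-- a relation with common denominator `q`: the product of an even number of values is `-1`, for both
functions, at every index -/
def Rel (P Q : ℚ) (q : ℕ) : Prop :=
  ∃ (N : ℕ) (w : Fin N → ℕ → ℚ), Even N ∧ (∀ i k, ∃ n : ℤ, w i k = n / q) ∧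
    (∀ i, ∃ C : ℕ, ∀ k, |w i k| ≤ (C : ℚ) ^ (k + 1)) ∧
    (∀ i, ∃ K : ℕ, ∀ (v : ℚ) (M : ℕ), ((Finset.range M).filter (fun k => w i k = v)).card ≤ K) ∧
    ∀ k, (∏ i, gl (fc P Q (w i k)) = -1) ∧ (∏ i, gs (fc P Q (w i k)) = -1)

/-- both signs, both functions, one denominator -/
def AllSeq (P Q : ℚ) (q : ℕ) : Prop :=
  ∀ g : ℚ → ℤ, (g = gl ∨ g = gs) → ∀ s : ℤ, s = 1 ∨ s = -1 → SeqAt q g P Q s

/-- the theorem with counts, for one form and given `y₀` -/
def GoodAt (a b c d y₀ : ℤ) : Prop :=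
  ∃ δ : ℝ, 0 < δ ∧ ∀ y : ℤ, 0 < y → y₀ ∣ y → ∃ X₀ : ℕ, ∀ X : ℕ, X₀ ≤ X →
    (∀ s : ℤ, s = 1 ∨ s = -1 → δ * Real.log X ≤
      (((Finset.Icc (1:ℤ) X).filter (fun n => lam (form a b c d n y) = s)).card : ℝ)) ∨
    (∀ s : ℤ, s = 1 ∨ s = -1 → δ * Real.log X ≤
      (((Finset.Icc (1:ℤ) X).filter (fun n => lam (form a b c d (-n) y) = s)).card : ℝ))

theorem goodAt_neg {a b c d y₀ : ℤ} (h : GoodAt (-a) (-b) (-c) (-d) y₀) : GoodAt a b c d y₀ := by
  unfold GoodAt at h ⊢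
  simpa only [form_neg'] using h

theorem seqAt_of_cover {g : ℚ → ℤ} {b c : ℚ} {s : ℤ} {m q : ℕ} (hq0 : 0 < q) (w : Fin m → ℕ → ℚ)
    (hint : ∀ j k, ∃ n : ℤ, w j k = n / q) (hgr : ∀ i, ∃ C : ℕ, ∀ k, |w i k| ≤ (C:ℚ) ^ (k + 1))
    (hmu : ∀ i, ∃ K : ℕ, ∀ (v : ℚ) (N : ℕ), ((Finset.range N).filter (fun k => w i k = v)).card ≤ K)
    (k₀ : ℕ) (hcov : ∀ k, k₀ ≤ k → ∃ i, g (fc b c (w i k)) = s) : SeqAt q g b c s := by
  choose C hC using hgr
  choose K hK using hmu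
  choose i hi using fun k : ℕ => hcov (k + k₀) (Nat.le_add_left _ _)
  have hqQ : (0:ℚ) < q := by exact_mod_cast hq0
  obtain ⟨C1, hC1⟩ : ∃ C1, C1 = (∑ i, C i) + 1 := ⟨_, rfl⟩
  have hCle : ∀ i, C i ≤ C1 := fun i => by
    rw [hC1]
    exact le_trans (Finset.single_le_sum (fun j _ => Nat.zero_le (C j)) (Finset.mem_univ i)) (Nat.le_succ _)
  choose n hn using hint
  refine ⟨C1 ^ (k₀ + 1) * q, ∑ i, K i, fun k => n (i k) (k + k₀), fun k => ?_, fun v N => ?_, fun k => ?_⟩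
  · have h1 : |w (i k) (k + k₀)| ≤ (C1:ℚ) ^ (k + k₀ + 1) := by
      refine le_trans (hC (i k) (k + k₀)) ?_
      have : (C (i k) : ℚ) ≤ C1 := by exact_mod_cast hCle (i k)
      exact pow_le_pow_left₀ (by positivity) this _
    have h2 : |(n (i k) (k + k₀) : ℚ)| ≤ (C1:ℚ) ^ (k + k₀ + 1) * q := by
      have h3 : (n (i k) (k + k₀) : ℚ) = w (i k) (k + k₀) * q := by
        rw [hn (i k) (k + k₀)]
        field_simp
      rw [h3, abs_mul, abs_of_pos hqQ]
      exact mul_le_mul_of_nonneg_right h1 hqQ.le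
    have h4 : |n (i k) (k + k₀)| ≤ (C1:ℤ) ^ (k + k₀ + 1) * q := by exact_mod_cast h2
    refine le_trans h4 ?_
    push_cast
    rw [mul_pow, ← pow_mul]
    have hC1' : (1:ℤ) ≤ C1 := by
      have : 1 ≤ C1 := by omega
      exact_mod_cast this
    apply mul_le_mul
    · apply pow_le_pow_right₀ hC1'
      nlinarith
    · calc (q:ℤ) = (q:ℤ) ^ 1 := (pow_one _).symm
        _ ≤ (q:ℤ) ^ (k + 1) := pow_le_pow_right₀ (by exact_mod_cast hq0) (by omega)
    · positivity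
    · positivity
  · -- multiplicity
    have hsub : (Finset.range N).filter (fun k => n (i k) (k + k₀) = v) ⊆
        Finset.univ.biUnion (fun j : Fin m => (Finset.range N).filter (fun k => w j (k + k₀) = (v:ℚ) / q)) := by
      intro k hk
      simp only [Finset.mem_filter, Finset.mem_range, Finset.mem_biUnion, Finset.mem_univ, true_and] at hk ⊢
      exact ⟨i k, hk.1, by rw [hn (i k) (k + k₀), hk.2]⟩
    refine le_trans (Finset.card_le_card hsub) ?_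
    refine le_trans Finset.card_biUnion_le ?_
    apply Finset.sum_le_sum
    intro j _
    refine le_trans ?_ (hK j ((v:ℚ) / q) (N + k₀))
    apply Finset.card_le_card_of_injOn (fun k => k + k₀)
    · intro k hk
      simp only [Finset.coe_filter, Finset.mem_range, Set.mem_ofPred_eq] at hk ⊢
      exact ⟨by omega, hk.2⟩
    · intro k _ l _ hkl
      simpa using hkl
  · rw [← hn]
    exact hi k

/-- an even product of signs which is `-1` has both signs among its factors -/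
theorem exists_sign {N : ℕ} (hN : Even N) (a : Fin N → ℤ) (ha : ∀ i, a i = 1 ∨ a i = -1)
    (hp : ∏ i, a i = -1) (s : ℤ) (hs : s = 1 ∨ s = -1) : ∃ i, a i = s := by
  by_contra hcon
  push Not at hcon
  have h1 : ∀ i, a i = -s := by
    intro i
    have := hcon i
    rcases ha i with h | h <;> rcases hs with h' | h' <;> rw [h, h'] at this ⊢ <;> simp at this ⊢
  rw [Finset.prod_congr rfl fun i _ => h1 i, Finset.prod_const, Finset.card_univ, Fintype.card_fin] at hp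
  obtain ⟨m, hm⟩ := hN
  rw [hm, ← two_mul, pow_mul] at hp
  rcases hs with h' | h' <;> rw [h'] at hp <;> norm_num at hp

theorem Rel.allSeq {P Q : ℚ} {q : ℕ} (hq : 0 < q) (h : Rel P Q q) : AllSeq P Q q := by
  obtain ⟨N, w, hN, h1, h2, h3, h4⟩ := h
  have key : ∀ g : ℚ → ℤ, CM g → g 2 = -1 → (∀ k, ∏ i, g (fc P Q (w i k)) = -1) → ∀ s : ℤ,
      (s = 1 ∨ s = -1) → SeqAt q g P Q s := by
    intro g hg hg2 hp s hs
    refine seqAt_of_cover hq w h1 h2 h3 0 fun k _ => ?_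
    refine exists_sign hN _ (fun i => ?_) (hp k) s hs
    by_cases h0 : fc P Q (w i k) = 0
    · exfalso
      have h5 := hp k
      rw [Finset.prod_eq_zero (Finset.mem_univ i)] at h5
      · norm_num at h5
      · rw [h0]
        have h6 := hg.mul 0 2
        rw [zero_mul, hg2] at h6
        linarith
    · exact hg.val _ h0
  intro g hg s hs
  rcases hg with rfl | rfl
  · exact key _ gl_cm (g_facts (Or.inl rfl)).2.2.1 (fun k => (h4 k).1) s hs
  · exact key _ gs_cm (g_facts (Or.inr rfl)).2.2.1 (fun k => (h4 k).2) s hs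

theorem counts_at {P Q : ℚ} {q : ℕ} (H : AllSeq P Q q) :
    ∃ δ : ℝ, 0 < δ ∧ ∀ B : ℕ, ∃ X₀ : ℕ, ∀ X : ℕ, X₀ ≤ X →
      ∀ g : ℚ → ℤ, (g = gl ∨ g = gs) → ∀ s : ℤ, s = 1 ∨ s = -1 →
      δ * Real.log X ≤ (((Finset.Icc (-(X:ℤ)) X).filter
        (fun n => (B:ℤ) < |n| ∧ g (fc P Q ((n : ℚ) / q)) = s)).card : ℝ) := by
  obtain ⟨d1, hd1, c1⟩ := (H gl (Or.inl rfl) 1 (Or.inl rfl)).count
  obtain ⟨d2, hd2, c2⟩ := (H gl (Or.inl rfl) (-1) (Or.inr rfl)).count
  obtain ⟨d3, hd3, c3⟩ := (H gs (Or.inr rfl) 1 (Or.inl rfl)).count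
  obtain ⟨d4, hd4, c4⟩ := (H gs (Or.inr rfl) (-1) (Or.inr rfl)).count
  refine ⟨min (min d1 d2) (min d3 d4), by positivity, fun B => ?_⟩
  obtain ⟨X1, e1⟩ := c1 B
  obtain ⟨X2, e2⟩ := c2 B
  obtain ⟨X3, e3⟩ := c3 B
  obtain ⟨X4, e4⟩ := c4 B
  refine ⟨X1 + X2 + X3 + X4 + 1, fun X hX g hg s hs => ?_⟩
  have hlog : 0 ≤ Real.log X := Real.log_nonneg (by exact_mod_cast (by omega : 1 ≤ X))
  have k1 : min (min d1 d2) (min d3 d4) ≤ d1 := le_trans (min_le_left _ _) (min_le_left _ _)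
  have k2 : min (min d1 d2) (min d3 d4) ≤ d2 := le_trans (min_le_left _ _) (min_le_right _ _)
  have k3 : min (min d1 d2) (min d3 d4) ≤ d3 := le_trans (min_le_right _ _) (min_le_left _ _)
  have k4 : min (min d1 d2) (min d3 d4) ≤ d4 := le_trans (min_le_right _ _) (min_le_right _ _)
  rcases hg with hg | hg <;> rcases hs with hs | hs <;> rw [hg, hs]
  · exact le_trans (mul_le_mul_of_nonneg_right k1 hlog) (e1 X (by omega))
  · exact le_trans (mul_le_mul_of_nonneg_right k2 hlog) (e2 X (by omega))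
  · exact le_trans (mul_le_mul_of_nonneg_right k3 hlog) (e3 X (by omega))
  · exact le_trans (mul_le_mul_of_nonneg_right k4 hlog) (e4 X (by omega))

theorem seqAt_flip {q : ℕ} {g : ℚ → ℤ} (hg : GMul g) {b c : ℚ} {s : ℤ} (h : SeqAt q g b (-c) (g (-1) * s)) :
    SeqAt q g b c s := by
  obtain ⟨C, K, n, h1, h2, h3⟩ := h
  refine ⟨C, K, fun k => -n k, fun k => ?_, fun v N => ?_, fun k => ?_⟩
  · rw [abs_neg]
    exact h1 k
  · have := h2 (-v) N
    refine le_trans (Finset.card_le_card ?_) this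
    intro k hk
    rw [Finset.mem_filter] at hk ⊢
    exact ⟨hk.1, by linarith [hk.2]⟩
  · have h4 := h3 k
    have e : fc b c (((-n k : ℤ) : ℚ) / q) = (-1) * fc b (-c) ((n k : ℚ) / q) := by
      unfold fc
      push_cast
      ring
    have h5 : g (-1) * g (-1) = 1 := hg.sq _ (by norm_num)
    rw [e, hg.mul, h4, ← mul_assoc, h5, one_mul]

theorem AllSeq.flip {q : ℕ} {b c : ℚ} (h : AllSeq b (-c) q) : AllSeq b c q := by
  intro g hg s hs
  have hm : GMul g := by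
    obtain ⟨c1, -⟩ := g_facts hg
    exact ⟨c1.mul, fun _ hx => c1.self hx⟩
  refine seqAt_flip hm (h g hg _ ?_)
  have h5 : g (-1) * g (-1) = 1 := hm.sq _ (by norm_num)
  rcases mul_self_eq_one_iff.1 h5 with h6 | h6 <;> rcases hs with rfl | rfl <;> simp [h6]

theorem count_at {a b c d : ℤ} (ha : 0 < a) {q : ℕ} (hq : 0 < q)
    (H : AllSeq ((9 * a * c - 3 * b ^ 2 : ℤ) : ℚ) ((27 * a ^ 2 * d - 9 * a * b * c + 2 * b ^ 3 : ℤ) : ℚ) q) :
    GoodAt a b c d (3 * a * q) := by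
  obtain ⟨P, hP⟩ : ∃ P : ℤ, P = 9 * a * c - 3 * b ^ 2 := ⟨_, rfl⟩
  obtain ⟨Q, hQ⟩ : ∃ Q : ℤ, Q = 27 * a ^ 2 * d - 9 * a * b * c + 2 * b ^ 3 := ⟨_, rfl⟩
  rw [← hP, ← hQ] at H
  obtain ⟨δ, hδ, hcnt⟩ := counts_at H
  have hqZ : (0:ℤ) < q := by exact_mod_cast hq
  have hqQ : (0:ℚ) < q := by exact_mod_cast hq
  refine ⟨δ / 4, by positivity, fun y hy hdvd => ?_⟩
  obtain ⟨r, hr⟩ := hdvd
  have hr0 : 0 < r := by
    by_contra hcon
    have : r ≤ 0 := by omega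
    have h2 : 3 * a * q * r ≤ 0 := mul_nonpos_of_nonneg_of_nonpos (by positivity) this
    omega
  -- the bound `B`
  obtain ⟨B, hB⟩ : ∃ B : ℕ, (B:ℤ) = q * (|P| + |Q| + 1 + |b|) :=
    ⟨(q * (|P| + |Q| + 1 + |b|)).toNat, Int.toNat_of_nonneg (by positivity)⟩
  obtain ⟨X₁, hX₁⟩ := hcnt B
  obtain ⟨β, hβ⟩ : ∃ β : ℕ, (β:ℤ) = |b| * q := ⟨(|b| * q).toNat, Int.toNat_of_nonneg (by positivity)⟩
  obtain ⟨ρ, hρ⟩ : ∃ ρ : ℕ, (ρ:ℤ) = r := ⟨r.toNat, Int.toNat_of_nonneg hr0.le⟩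
  have hρ0 : 0 < ρ := by
    have : (0:ℤ) < ρ := by rw [hρ]; exact hr0
    exact_mod_cast this
  refine ⟨(ρ * (2 + β) + X₁ + 1) ^ 2, fun X hX => ?_⟩
  obtain ⟨T, hT⟩ : ∃ T, T = Nat.sqrt X := ⟨_, rfl⟩
  have hT1 : ρ * (2 + β) + X₁ + 1 ≤ T := by
    rw [hT]
    exact Nat.le_sqrt'.2 hX
  have hT2 : T * T ≤ X := by rw [hT]; exact Nat.sqrt_le X
  have hT3 : X < (T + 1) * (T + 1) := by rw [hT]; exact Nat.lt_succ_sqrt X
  obtain ⟨X', hX'⟩ : ∃ X', X' = X / ρ - β := ⟨_, rfl⟩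
  have hdiv : T + 1 + β ≤ X / ρ := by
    rw [Nat.le_div_iff_mul_le hρ0]
    refine le_trans ?_ hT2
    have h1 : ρ * (2 + β) ≤ T := by omega
    have h2 : 1 ≤ T := by omega
    have h3 : T + 1 + β ≤ T * (2 + β) := by
      have : β ≤ T * β := Nat.le_mul_of_pos_left β (by omega)
      have e : T * (2 + β) = T + T + T * β := by ring
      omega
    calc (T + 1 + β) * ρ ≤ (T * (2 + β)) * ρ := Nat.mul_le_mul_right _ h3
      _ = T * (ρ * (2 + β)) := by ring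
      _ ≤ T * T := Nat.mul_le_mul_left _ h1
  have hX'T : T + 1 ≤ X' := by omega
  have hX'1 : X₁ ≤ X' := by omega
  have hX'r : (X' + β) * ρ ≤ X := by
    have h1 : X' + β = X / ρ := by omega
    rw [h1]
    exact Nat.div_mul_le_self X ρ
  have hlog : Real.log X ≤ 2 * Real.log X' := by
    have h1 : (X:ℝ) ≤ (X':ℝ) ^ 2 := by
      have : X ≤ X' ^ 2 := by
        have e : (T + 1) * (T + 1) ≤ X' * X' := Nat.mul_le_mul hX'T hX'T
        rw [pow_two]
        exact le_trans hT3.le e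
      exact_mod_cast this
    have h2 : (0:ℝ) < X := by
      have : 0 < X := lt_of_lt_of_le (Nat.mul_pos (by omega) (by omega)) hT2
      exact_mod_cast this
    have h3 := Real.log_le_log h2 h1
    rw [Real.log_pow] at h3
    push_cast at h3
    exact h3
  -- the four numbers
  let Pc : ℤ → ℕ := fun σ => ((Finset.Icc (-(X':ℤ)) X').filter
    (fun n => ((B:ℤ) < |n| ∧ gl (fc (P:ℚ) Q ((n : ℚ) / q)) = σ) ∧ 0 < n)).card
  let Mc : ℤ → ℕ := fun σ => ((Finset.Icc (-(X':ℤ)) X').filter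
    (fun n => ((B:ℤ) < |n| ∧ gl (fc (P:ℚ) Q ((n : ℚ) / q)) = σ) ∧ ¬ 0 < n)).card
  have hsum : ∀ σ : ℤ, ((Finset.Icc (-(X':ℤ)) X').filter
      (fun n => (B:ℤ) < |n| ∧ gl (fc (P:ℚ) Q ((n : ℚ) / q)) = σ)).card = Pc σ + Mc σ := by
    intro σ
    have := Finset.card_filter_add_card_filter_not (s := (Finset.Icc (-(X':ℤ)) X').filter
      (fun n => (B:ℤ) < |n| ∧ gl (fc (P:ℚ) Q ((n : ℚ) / q)) = σ)) (fun n => 0 < n)
    rw [Finset.filter_filter, Finset.filter_filter] at this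
    exact this.symm
  -- the sign of the cubic
  have hbig : ∀ n : ℤ, (B:ℤ) < |n| → |(P:ℚ)| + |(Q:ℚ)| + 1 ≤ |(n:ℚ) / q| := by
    intro n hn
    rw [abs_div, abs_of_pos hqQ, le_div_iff₀ hqQ]
    have h1 : (q:ℤ) * (|P| + |Q| + 1 + |b|) ≤ |n| := by rw [← hB]; exact hn.le
    have h2 : (q:ℤ) * (|P| + |Q| + 1) ≤ |n| := by
      have h0 : (0:ℤ) ≤ q * |b| := by positivity
      have h01 : (q:ℤ) * (|P| + |Q| + 1 + |b|) = q * (|P| + |Q| + 1) + q * |b| := by ring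
      rw [h01] at h1
      linarith only [h0, h1]
    have h3 : ((q * (|P| + |Q| + 1) : ℤ) : ℚ) ≤ ((|n| : ℤ) : ℚ) := by exact_mod_cast h2
    push_cast at h3
    linarith
  have hposn : ∀ n : ℤ, (B:ℤ) < |n| → 0 < n → gs (fc (P:ℚ) Q ((n : ℚ) / q)) = gl (fc (P:ℚ) Q ((n : ℚ) / q)) := by
    intro n hn hn0
    have h1 := hbig n hn
    have h2 : (0:ℚ) ≤ (n:ℚ) / q := by
      have : (0:ℚ) < n := by exact_mod_cast hn0
      positivity
    rw [abs_of_nonneg h2] at h1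
    have h3 : 0 < fc (P:ℚ) Q ((n:ℚ) / q) := cubic_pos h1
    unfold gs
    rw [sign_pos h3]
    norm_num
  have hnegn : ∀ n : ℤ, (B:ℤ) < |n| → ¬ 0 < n →
      gs (fc (P:ℚ) Q ((n : ℚ) / q)) = - gl (fc (P:ℚ) Q ((n : ℚ) / q)) := by
    intro n hn hn0
    have h1 := hbig n hn
    have h2 : (n:ℚ) / q ≤ 0 := by
      have : (n:ℚ) ≤ 0 := by exact_mod_cast (not_lt.1 hn0)
      exact div_nonpos_of_nonpos_of_nonneg this hqQ.le
    rw [abs_of_nonpos h2] at h1
    have h3 : fc (P:ℚ) Q ((n:ℚ) / q) < 0 := cubic_neg (by linarith)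
    unfold gs
    rw [sign_neg h3]
    norm_num
  have hsum2 : ∀ σ : ℤ, ((Finset.Icc (-(X':ℤ)) X').filter
      (fun n => (B:ℤ) < |n| ∧ gs (fc (P:ℚ) Q ((n : ℚ) / q)) = σ)).card = Pc σ + Mc (-σ) := by
    intro σ
    have := Finset.card_filter_add_card_filter_not (s := (Finset.Icc (-(X':ℤ)) X').filter
      (fun n => (B:ℤ) < |n| ∧ gs (fc (P:ℚ) Q ((n : ℚ) / q)) = σ)) (fun n => 0 < n)
    rw [Finset.filter_filter, Finset.filter_filter] at this
    rw [← this]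
    congr 1
    · congr 1
      apply Finset.filter_congr
      intro n _
      constructor
      · rintro ⟨⟨h1, h2⟩, h3⟩
        rw [hposn n h1 h3] at h2
        exact ⟨⟨h1, h2⟩, h3⟩
      · rintro ⟨⟨h1, h2⟩, h3⟩
        rw [← hposn n h1 h3] at h2
        exact ⟨⟨h1, h2⟩, h3⟩
    · congr 1
      apply Finset.filter_congr
      intro n _
      constructor
      · rintro ⟨⟨h1, h2⟩, h3⟩
        rw [hnegn n h1 h3] at h2
        exact ⟨⟨h1, by linarith⟩, h3⟩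
      · rintro ⟨⟨h1, h2⟩, h3⟩
        refine ⟨⟨h1, ?_⟩, h3⟩
        rw [hnegn n h1 h3, h2, neg_neg]
  -- transfer
  have hylam : lam y = 1 ∨ lam y = -1 := lam_eq_one_or hy.ne'
  have haQ : (0:ℚ) < a := by exact_mod_cast ha
  have htr : ∀ n : ℤ, lam (form a b c d ((n - b * q) * r) y) = - lam y * gl (fc (P:ℚ) Q ((n : ℚ) / q)) := by
    intro n
    have h1 := val_id (a := a) (b := b) (c := c) (d := d) ha hy ((n - b * q) * r)
    rw [← hP, ← hQ] at h1
    have hrQ : (0:ℚ) < r := by exact_mod_cast hr0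
    have hyr : (y : ℚ) = 3 * a * q * r := by exact_mod_cast hr
    have e : (3 * a * (((n - b * q) * r : ℤ) : ℚ) / y + b : ℚ) = (n:ℚ) / q := by
      rw [hyr]
      push_cast
      field_simp
      ring
    rw [e] at h1
    rw [h1]
    rcases hylam with h | h <;> rw [h] <;> ring
  have hbq : |b * (q:ℤ)| = β := by
    rw [hβ, abs_mul, abs_of_pos hqZ]
  have hBβ : (β:ℤ) ≤ B := by
    rw [hβ, hB]
    have h0 : 0 ≤ (q:ℤ) * (|P| + |Q| + 1) := by positivity
    have h01 : (q:ℤ) * (|P| + |Q| + 1 + |b|) = q * (|P| + |Q| + 1) + |b| * q := by ring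
    rw [h01]
    linarith only [h0]
  have hX'rZ : ((X':ℤ) + β) * r ≤ X := by
    rw [← hρ]
    exact_mod_cast hX'r
  have hPle : ∀ σ : ℤ, Pc σ ≤ ((Finset.Icc (1:ℤ) X).filter
      (fun n => lam (form a b c d n y) = - lam y * σ)).card := by
    intro σ
    apply Finset.card_le_card_of_injOn (fun n => (n - b * q) * r)
    · intro n hn
      simp only [Finset.coe_filter, Set.mem_ofPred_eq, Finset.mem_Icc] at hn ⊢
      obtain ⟨⟨h1, h2⟩, ⟨h3, h4⟩, h5⟩ := hn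
      have h6 : b * (q:ℤ) ≤ β := by rw [← hbq]; exact le_abs_self _
      have h7 : -(β:ℤ) ≤ b * q := by rw [← hbq]; exact neg_abs_le _
      rw [abs_of_pos h5] at h3
      refine ⟨⟨?_, ?_⟩, ?_⟩
      · have : 1 ≤ n - b * q := by omega
        exact le_trans hr0 (le_mul_of_one_le_left hr0.le this)
      · refine le_trans ?_ hX'rZ
        exact mul_le_mul_of_nonneg_right (by omega) hr0.le
      · rw [htr, h4]
    · intro n _ m _ hnm
      have := mul_right_cancel₀ hr0.ne' hnm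
      omega
  have hMle : ∀ σ : ℤ, Mc σ ≤ ((Finset.Icc (1:ℤ) X).filter
      (fun n => lam (form a b c d (-n) y) = - lam y * σ)).card := by
    intro σ
    apply Finset.card_le_card_of_injOn (fun n => -((n - b * q) * r))
    · intro n hn
      simp only [Finset.coe_filter, Set.mem_ofPred_eq, Finset.mem_Icc] at hn ⊢
      obtain ⟨⟨h1, h2⟩, ⟨h3, h4⟩, h5⟩ := hn
      have h6 : b * (q:ℤ) ≤ β := by rw [← hbq]; exact le_abs_self _
      have h7 : -(β:ℤ) ≤ b * q := by rw [← hbq]; exact neg_abs_le _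
      rw [abs_of_nonpos (by omega)] at h3
      refine ⟨⟨?_, ?_⟩, ?_⟩
      · have : 1 ≤ -(n - b * q) := by omega
        have e : -((n - b * q) * r) = (-(n - b * q)) * r := by ring
        rw [e]
        exact le_trans hr0 (le_mul_of_one_le_left hr0.le this)
      · have e : -((n - b * q) * r) = (-(n - b * q)) * r := by ring
        rw [e]
        refine le_trans ?_ hX'rZ
        exact mul_le_mul_of_nonneg_right (by omega) hr0.le
      · rw [neg_neg, htr, h4]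
    · intro n _ m _ hnm
      have h8 : (n - b * q) * r = (m - b * q) * r := neg_injective hnm
      have := mul_right_cancel₀ hr0.ne' h8
      omega
  -- conclusion
  by_contra hcon
  push Not at hcon
  obtain ⟨⟨s1, hs1, h1⟩, ⟨s2, hs2, h2⟩⟩ := hcon
  have hσ : ∀ s : ℤ, s = 1 ∨ s = -1 → (- lam y * s = 1 ∨ - lam y * s = -1) ∧ - lam y * (- lam y * s) = s := by
    intro s hs
    rcases hylam with h | h <;> rcases hs with h' | h' <;> rw [h, h'] <;> norm_num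
  obtain ⟨σ1, hσ1⟩ : ∃ σ1, σ1 = - lam y * s1 := ⟨_, rfl⟩
  obtain ⟨σ2, hσ2⟩ : ∃ σ2, σ2 = - lam y * s2 := ⟨_, rfl⟩
  have k1 := hσ s1 hs1
  have k2 := hσ s2 hs2
  rw [← hσ1] at k1
  rw [← hσ2] at k2
  have p1 : (Pc σ1 : ℝ) < δ / 4 * Real.log X := by
    refine lt_of_le_of_lt ?_ h1
    have := hPle σ1
    rw [k1.2] at this
    exact_mod_cast this
  have p2 : (Mc σ2 : ℝ) < δ / 4 * Real.log X := by
    refine lt_of_le_of_lt ?_ h2
    have := hMle σ2
    rw [k2.2] at this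
    exact_mod_cast this
  have p3 : δ * Real.log X' ≤ (Pc σ1 : ℝ) + Mc σ2 := by
    rcases eq_or_ne σ1 σ2 with h | h
    · have h3 := hX₁ X' hX'1 gl (Or.inl rfl) σ1 k1.1
      rw [hsum σ1] at h3
      rw [← h]
      exact_mod_cast h3
    · have h4 : σ2 = -σ1 := by
        rcases k1.1 with h5 | h5 <;> rcases k2.1 with h6 | h6 <;> rw [h5, h6] at h ⊢ <;> simp at h ⊢
      have h3 := hX₁ X' hX'1 gs (Or.inr rfl) σ1 k1.1
      rw [hsum2 σ1] at h3
      rw [h4]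
      exact_mod_cast h3
  have p4 : δ / 2 * Real.log X ≤ δ * Real.log X' := by nlinarith
  linarith

end MP648Diag
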